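import Pool.Agent.Work.MP_0201f6_lc_helper21.UnifB

/-!
The model, and the main theorem (from the combinatorial part `PartA`).
-/

namespace Pool.Agent.Work.MP_0201f6_lc_helper21

open ZFSet Pool.Agent.Work.MP_6efb98_lc

variable {B : Type} [CompleteBooleanAlgebra B]

theorem regO_omega1 : RegO (Cardinal.aleph (0 + 1)).ord :=
  regO_ord (Cardinal.isRegular_aleph_add_one 0)
    (by rw [← Cardinal.aleph_zero]; exact Cardinal.aleph_lt_aleph.2 (by simp))

/-- the combinatorial part with the functions chosen -/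
noncomputable def PartA.Kf (P : PartA B) (c : Nm B) : Node → Node → B :=
  (P.unif (YP P.x c)).choose

/-- the combinatorial part with the functions chosen -/
noncomputable def PartA.Ff (P : PartA B) (c : Nm B) : Node → Node → Bool → B :=
  (P.unif (YP P.x c)).choose_spec.choose

/-- the two sequences -/
noncomputable def PartA.z (P : PartA B) (b : Bool) : W → W → ℕ → B := if b then P.y else P.x

/-- operations -/
noncomputable def opP (P : PartA B) : Bool × ℕ → List (Nm B) → Nm B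
  | (_, 0), _ => ordN (Cardinal.aleph (0 + 1)).ord
  | (_, 1), l => ordN (regB P.ccc regO_omega1 (l.getD 0 dN) (oN (l.getD 1 dN)))
  | (_, 2), _ => Cd.cN ((w0, 0) : Node)
  | (b, 3), l => opN (fun s : Node => fnN (P.z b) s) l
  | (b, 4), l => opN (fun η : Nm B => dcN (P.z b) η) l
  | (b, 5), _ => trN (P.z b)
  | (_, 6), l => opN (fun s : Node => rd s) l
  | (b, 7), l => opN (fun d : W => enN (P.z b) d) l
  | (_, 8), _ => ldN P.C
  | (_, 9), l => opN (fun p : W × W => md p) l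
  | (_, 10), l => opN (fun d : W => pr d) l
  | (_, 11), l => opN (fun p : W × W => cf P.C p) l
  | (_, 12), l => opN (fun c : Nm B => KN P.x P.y (P.Kf c)) l
  | (_, 13), l => opN (fun c : Nm B => FN P.x P.y (P.Ff c)) l
  | (_, _ + 14), _ => dN

/-- tasks -/
noncomputable def tkP (P : PartA B) : Bool × ℕ → List (Nm B) → Nm B → B
  | (_, 0), l, η => ⨆ δ' : Ordinal.{0}, ⨆ _ : η = ordN δ' ∧ δ' ≠ oN (l.getD 2 dN),
      bmem (pairN (l.getD 1 dN) (ordN δ')) (l.getD 0 dN)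
  | (b, 1), l, η => tkN (fun (a : Node × Node × W) (n : ℕ) =>
      sv (P.z b) a.1 a.2.2 n ⊓ sv (P.z b) a.2.1 a.2.2 n) l η
  | (b, 2), l, η => tkN (fun (a : Node × Node) (ξ : W) =>
      ⨆ _ : ξ < a.1.1, (⨆ n, sv (P.z b) a.1 ξ n ⊓ sv (P.z b) a.2 ξ n)ᶜ) l η
  | (b, 3), l, η => tkN (fun (a : Node × W) (n : ℕ) => sv (P.z b) a.1 a.2 n) l η
  | (b, 4), l, η => tkN (fun (a : Node × W) (s : Node) => ⨆ _ : s.1 = a.2, le (P.z b) s a.1) l η
  | (b, 5), l, η => tkN (fun (a : Node × W × ℕ) (t : Node) =>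
      ⨆ _ : t.1 = a.2.1, le (P.z b) a.1 t ⊓ sv (P.z b) t a.1.1 a.2.2) l η
  | (_, 6), l, η => tkN (fun (c : Nm B) (p : Node × Node) =>
      (PX P.x c p.1 ⊓ PX P.x c p.2 ⊓ le P.x p.1 p.2 ⇨ le P.x p.2 p.1)ᶜ) l η
  | (_, 7), l, η => tkN (fun (c : Nm B) (γ : W) => (⨆ s : Node, ⨆ _ : γ ≤ s.1, PX P.x c s)ᶜ) l η
  | (_, 8), l, η => tkN (fun (a : Nm B × Node) (p : (Node × Node) × (Node × Node)) =>
      (le P.x a.2 p.1.1 ⊓ le P.x p.1.1 p.2.1 ⊓ PA P.x P.y a.1 p.1.1 p.1.2 ⊓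
        PA P.x P.y a.1 p.2.1 p.2.2 ⇨ le P.y p.1.2 p.2.2 ⊔ le P.y p.2.2 p.1.2)ᶜ) l η
  | (_, 9), l, η => tkN (fun (a : Nm B × Node) (p : Node × W) =>
      (le P.x a.2 p.1 ⇨ ⨆ s', ⨆ t : Node, ⨆ _ : p.2 ≤ t.1,
        le P.x p.1 s' ⊓ PA P.x P.y a.1 s' t)ᶜ) l η
  | (_, 10), l, η => tkN (fun (a : Nm B × Nm B) (p : Node × Node) =>
      ⨆ _ : pairN (fnN P.x p.1) (fnN P.y p.2) = a.2, P.Kf a.1 p.1 p.2) l η
  | (_, 11), l, η => tkN (fun (a : Nm B × Nm B) (p : Node × Node × Bool) =>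
      ⨆ _ : pairN (fnN P.x p.1) (pairN (fnN P.y p.2.1) (Cd.cN p.2.2)) = a.2,
        P.Ff a.1 p.1 p.2.1 p.2.2) l η
  | (_, 12), l, η => tkN (fun (a : Nm B × Node) (p : Node × Node) =>
      le P.x a.2 p.1 ⊓ P.Kf a.1 p.1 p.2) l η
  | (_, 13), l, η => tkN (fun (a : Nm B × Node × Node × W) (p : Node × Node) =>
      ⨆ _ : a.2.2.2 ≤ p.2.1, le P.x a.2.2.1 p.1 ⊓ le P.y a.2.1 p.2 ⊓ P.Kf a.1 p.1 p.2) l η
  | (_, 14), l, η => tkN (fun (a : Nm B × Node × Node × W) (t' : Node) =>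
      ⨆ _ : t'.1 = a.2.2.2, le P.y t' a.2.2.1 ⊓ P.Kf a.1 a.2.1 t') l η
  | (_, 15), l, η => tkN (fun (a : Nm B × Node × Node) (β : W) =>
      ⨆ _ : β < a.2.2.1, ⨅ ξ, ⨅ _ : ξ ∈ P.C a.2.2.1 ∧ β ≤ ξ,
      ⨆ s', ⨆ t' : Node, ⨆ _ : t'.1 = ξ,
        ker5 P.x P.y (P.Ff a.1) (YP P.x a.1) a.2.1 a.2.2 ξ s' t') l η
  | (_, 16), l, η => tkN (fun (a : Nm B × Node × Node × W) (p : Node × Node) =>
      ⨆ _ : p.2.1 = a.2.2.2,
        ker5 P.x P.y (P.Ff a.1) (YP P.x a.1) a.2.1 a.2.2.1 a.2.2.2 p.1 p.2) l η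
  | (_, 17), l, η => tkN (fun (a : Nm B × Node × W × W) (s'' : Node) =>
      le P.x a.2.1 s'' ⊓ YP P.x a.1 s'' a.2.2.1 a.2.2.2) l η
  | (_, _ + 18), _, _ => ⊥

/-- the model -/
theorem exists_model' [Nontrivial B] (P : PartA B) : ∃ M : Set ZFSet.{0}, M.Countable ∧ Model M ∧
    ∃ κ S T C, SusD M κ S ∧ TreeD M κ T ∧ IsLadder M κ C ∧ Aron M κ S T ∧ UnifD M κ S T C := by
  obtain ⟨X, G, hXc, hX, hGen, hop, htk⟩ := exists_hull_gen (opP P) (tkP P)
  have hG := hGen.ultra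
  have e0 : ∀ b n, opP P (b, n) [] ∈ X := fun b n => hop (b, n) [] (by simp)
  have hz : ∀ b, Tz (P.z b) X G := by
    intro b
    refine ⟨hX, hG, ?_, ?_, ?_, ?_, ?_, ?_, ?_, ?_, ?_, ?_, ?_, ?_, ?_, ?_, ?_⟩
    · cases b
      · exact P.x_disj
      · exact P.y_disj
    · cases b
      · exact P.x_tot
      · exact P.y_tot
    · cases b
      · exact P.x_restr
      · exact P.y_restr
    · cases b
      · exact P.x_ext
      · exact P.y_ext
    · exact e0 b 2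
    · exact fun s hs => opN_mem (f := fun s : Node => fnN (P.z b) s) (hop (b, 3)) hs
    · exact fun η hη => opN_mem (f := fun η : Nm B => dcN (P.z b) η) (hop (b, 4)) hη
    · exact e0 b 5
    · exact fun s hs => opN_mem (f := fun s : Node => rd s) (hop (b, 6)) hs
    · exact fun d hd => opN_mem (f := fun d : W => enN (P.z b) d) (hop (b, 7)) hd
    · intro s t ξ hs ht hξ h
      obtain ⟨n, _, h1⟩ := tkN_mem hG (htk (b, 1)) (a := (s, t, ξ))
        ((in_prod hX).2 ⟨hs, (in_prod hX).2 ⟨ht, hξ⟩⟩) h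
      exact ⟨n, h1⟩
    · intro s t hs ht h
      exact tkN_mem hG (htk (b, 2)) (a := (s, t)) ((in_prod hX).2 ⟨hs, ht⟩) h
    · intro s ξ hs hξ h
      obtain ⟨n, _, h1⟩ := tkN_mem hG (htk (b, 3)) (a := (s, ξ)) ((in_prod hX).2 ⟨hs, hξ⟩) h
      exact ⟨n, h1⟩
    · intro t β ht hβ h
      exact tkN_mem hG (htk (b, 4)) (a := (t, β)) ((in_prod hX).2 ⟨ht, hβ⟩) h
    · intro s β n hs hβ h
      exact tkN_mem hG (htk (b, 5)) (a := (s, β, n)) ((in_prod hX).2 ⟨hs, (in_prod hX).2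
        ⟨hβ, in_nat hX n⟩⟩) h
  have hx : Tz P.x X G := hz false
  have hy : Tz P.y X G := hz true
  have hl : Lz P.C X G := by
    refine ⟨hX, hG, P.C_lt, P.C_cof, P.C_fin, e0 true 8, ?_, ?_, ?_, ?_⟩
    · exact ((in_prod hX).1 (e0 true 2)).1
    · exact fun p hp => opN_mem (f := fun p : W × W => md p) (hop (true, 9)) hp
    · exact fun d hd => opN_mem (f := fun d : W => pr d) (hop (true, 10)) hd
    · exact fun p hp => opN_mem (f := fun p : W × W => cf P.C p) (hop (true, 11)) hp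
  have hs : Sz P.x X G := by
    refine ⟨hGen, hx, P.suslin, ?_, ?_⟩
    · intro c hc h
      exact tkN_mem hG (htk (true, 6)) (a := c) hc h
    · intro c hc h
      exact tkN_mem hG (htk (true, 7)) (a := c) hc h
  have ha : Az P.x P.y X G := by
    refine ⟨hGen, hx, hy, P.aron, ?_, ?_⟩
    · intro c hc s₀ hs₀ h
      exact tkN_mem hG (htk (true, 8)) (a := (c, s₀)) ((in_prod hX).2 ⟨hc, hs₀⟩) h
    · intro c hc s₀ hs₀ h
      exact tkN_mem hG (htk (true, 9)) (a := (c, s₀)) ((in_prod hX).2 ⟨hc, hs₀⟩) h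
  have hu : Uz P.x P.y P.C P.Kf P.Ff X G := by
    have hKF := fun c => (P.unif (YP P.x c)).choose_spec.choose_spec
    refine ⟨hGen, hx, hy, hl, fun c => (hKF c).1, fun c => (hKF c).2.1, fun c => (hKF c).2.2.1,
      fun c => (hKF c).2.2.2.1, fun c => (hKF c).2.2.2.2, ?_, ?_, ?_, ?_, ?_, ?_, ?_, ?_, ?_, ?_⟩
    · exact fun c hc => opN_mem (f := fun c : Nm B => KN P.x P.y (P.Kf c)) (hop (true, 12)) hc
    · exact fun c hc => opN_mem (f := fun c : Nm B => FN P.x P.y (P.Ff c)) (hop (true, 13)) hc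
    · intro c hc η hη h
      exact tkN_mem hG (htk (true, 10)) (a := (c, η)) ((in_prod hX).2 ⟨hc, hη⟩) h
    · intro c hc η hη h
      exact tkN_mem hG (htk (true, 11)) (a := (c, η)) ((in_prod hX).2 ⟨hc, hη⟩) h
    · intro c hc s hs h
      exact tkN_mem hG (htk (true, 12)) (a := (c, s)) ((in_prod hX).2 ⟨hc, hs⟩) h
    · intro c hc t s' γ ht hs' hγ h
      exact tkN_mem hG (htk (true, 13)) (a := (c, t, s', γ)) ((in_prod hX).2 ⟨hc,
        (in_prod hX).2 ⟨ht, (in_prod hX).2 ⟨hs', hγ⟩⟩⟩) h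
    · intro c hc s t β hs ht hβ h
      exact tkN_mem hG (htk (true, 14)) (a := (c, s, t, β)) ((in_prod hX).2 ⟨hc,
        (in_prod hX).2 ⟨hs, (in_prod hX).2 ⟨ht, hβ⟩⟩⟩) h
    · intro c hc s t hs ht h
      exact tkN_mem hG (htk (true, 15)) (a := (c, s, t)) ((in_prod hX).2 ⟨hc,
        (in_prod hX).2 ⟨hs, ht⟩⟩) h
    · intro c hc s t ξ hs ht hξ h
      exact tkN_mem hG (htk (true, 16)) (a := (c, s, t, ξ)) ((in_prod hX).2 ⟨hc,
        (in_prod hX).2 ⟨hs, (in_prod hX).2 ⟨ht, hξ⟩⟩⟩) h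
    · intro c hc s' α ξ hs' hα hξ h
      exact tkN_mem hG (htk (true, 17)) (a := (c, s', α, ξ)) ((in_prod hX).2 ⟨hc,
        (in_prod hX).2 ⟨hs', (in_prod hX).2 ⟨hα, hξ⟩⟩⟩) h
  have hreg : Reg (Mod X G) (kap X G) := by
    refine reg_of hGen hX P.ccc regO_omega1 (e0 true 0) ?_ ?_
    · intro f hf a ha
      have := hop (true, 1) [f, ordN a] (by simp [hf, ha])
      simpa [opP, oN_ordN] using this
    · intro f hf g hg δ hδ h
      have h1 := htk (true, 0) [f, g, ordN δ] (by simp [hf, hg, hδ])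
      simp only [tkP, List.getD_cons_zero, List.getD_cons_succ, oN_ordN] at h1
      exact sup_inj ordN ordN_injective (fun δ' => δ' ≠ δ) (fun δ' => bmem (pairN g (ordN δ')) f)
        hG h1 h
  exact ⟨Mod X G, mod_countable hXc, mod_model hGen hX, kap X G, ev X G (trN P.x),
    ev X G (trN P.y), ev X G (ldN P.C), ⟨hreg, hx.treeD, hs.anti⟩, hy.treeD, hl.isLadder, ha.aronM,
    hu.unifD⟩

/-- the main theorem, from the combinatorial part -/
theorem main_of [Nontrivial B] (P : PartA B) : ∃ M : Set ZFSet.{0}, M.Countable ∧ IsModel M ∧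
    ∃ κ S T C : ZFSet.{0}, IsOmegaOne M κ ∧ IsSuslin M κ S ∧ IsAronszajn M κ T ∧
      IsLadder M κ C ∧ (∃ G, IsGeneric M {s | s ∈ S} G) ∧
      ∀ G, IsGeneric M {s | s ∈ S} G → IsOmegaOne (Ext M G) κ ∧ IsAronszajn (Ext M G) κ T ∧
        IsLadder (Ext M G) κ C ∧
        ∀ f ∈ Ext M G, IsFunc C {∅, {∅}} f → ∃ φ, Uniformizes (Ext M G) κ T C f φ := by
  obtain ⟨M, hMc, hM, κ, S, T, C, hS, hT, hC, hA, hU⟩ := exists_model' P
  have hctbl : ∀ α ∈ κ, Ctbl M α := by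
    intro α hα
    have hαo := hS.reg.ord.mem hα
    have h1 := (hT.ctbl α hα).img (dfn_dom (dfn_id (α := ZFSet.{0})))
    have h2 : img dom (ZFSet.sep (fun t => dom t ∈ α) T) = α := by
      ext x
      rw [mem_img]
      constructor
      · rintro ⟨t, ht, rfl⟩
        exact (mem_sep.1 ht).2
      · intro hx
        have hxκ : x ∈ κ := hS.reg.ord.mem_trans hx hα
        rcases eq_or_ne x ∅ with rfl | hne
        · have h3 : dom (∅ : ZFSet.{0}) = ∅ := by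
            ext y
            rw [mem_dom]
            exact ⟨fun ⟨z, hz⟩ => absurd hz (notMem_empty _), fun hy => absurd hy (notMem_empty _)⟩
          exact ⟨∅, mem_sep.2 ⟨hT.root, by rw [h3]; exact hx⟩, h3⟩
        · have h3 : dom (∅ : ZFSet.{0}) = ∅ := by
            ext y
            rw [mem_dom]
            exact ⟨fun ⟨z, hz⟩ => absurd hz (notMem_empty _), fun hy => absurd hy (notMem_empty _)⟩
          have h4 : (∅ : ZFSet.{0}) ∈ x := by
            rcases (hαo.mem hx).mem_trichotomous (hS.reg.ord.mem (subset_omega_of_mem hS.reg)) with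
              h | h | h
            · exact absurd h (notMem_empty _)
            · exact absurd h hne
            · exact h
          obtain ⟨t, ht, _, h5, _⟩ := hT.ext ∅ hT.root x hxκ (by rw [h3]; exact h4) ∅ omega_zero
          exact ⟨t, mem_sep.2 ⟨ht, by rw [h5]; exact hx⟩, h5⟩
    rw [h2] at h1
    exact h1
  refine ⟨M, hMc, Model.isModel hM, κ, S, T, C, ⟨hS.reg.mem, hS.reg.ord, hctbl, not_ctbl hS.reg⟩,
    hS.isSuslin, isAronszajn_M hS hT hA, hC, ?_, ?_⟩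
  · exact exists_generic hMc ⟨κ, hS.reg.mem⟩ (p0 := ∅) hS.tree.root
  · intro G hG
    have h0 := empty_mem_G hS.tree hG
    refine ⟨isOmegaOne_ext hS hctbl hG, isAronszajn_ext hS hT hA hG, ?_, ?_⟩
    · exact ⟨sub_ext h0 hC.mem, hC.pairs, hC.cofinal, hC.finite⟩
    · intro f hf hfC
      exact uniformizes_ext hS hT hC hU hG hf hfC

end Pool.Agent.Work.MP_0201f6_lc_helper21
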