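import Pool.Agent.Work.MP_6efb98_lc.NamesCard

/-!
Interface between the combinatorics (part A) and the model theory (part B) of the uniformization
theorem.
-/

namespace Pool.Agent.Work.MP_0201f6_lc_helper21

open Pool.Agent.Work.MP_6efb98_lc

/-- the countable ordinals -/
abbrev W : Type := (Cardinal.aleph (0 + 1)).ord.ToType

/-- codes of nodes: level and finite modification (`h ξ = n + 1` means that the value at `ξ` is
changed to `n`; only the values below the level matter) -/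
abbrev Node : Type := W × (W →₀ ℕ)

section

variable {B : Type} [CompleteBooleanAlgebra B]

/-- value with which the node `s` takes the value `n` at `ξ` -/
noncomputable def sv (x : W → W → ℕ → B) (s : Node) (ξ : W) (n : ℕ) : B :=
  if s.2 ξ = 0 then x s.1 ξ n else if s.2 ξ = n + 1 then ⊤ else ⊥

/-- value with which `s` is an initial segment of `t` -/
noncomputable def le (x : W → W → ℕ → B) (s t : Node) : B :=
  ⨆ _ : s.1 ≤ t.1, ⨅ ξ, ⨅ _ : ξ < s.1, ⨆ n, sv x s ξ n ⊓ sv x t ξ n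

/-- `s` forces that `Y` holds -/
noncomputable def F1 (x : W → W → ℕ → B) (Y : Node → W → W → B) (s : Node) (α ξ : W) : B :=
  ⨅ s', (le x s s' ⇨ ⨆ s'', le x s' s'' ⊓ Y s'' α ξ)

/-- `s` forces that `Y` fails -/
noncomputable def F0 (x : W → W → ℕ → B) (Y : Node → W → W → B) (s : Node) (α ξ : W) : B :=
  ⨅ s', (le x s s' ⇨ (Y s' α ξ)ᶜ)

/-- the combinatorial part: `x` for the Suslin tree, `y` for the Aronszajn tree -/
structure PartA (B : Type) [CompleteBooleanAlgebra B] where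
  ccc : CCC B
  /-- the ladder system -/
  C : W → Set W
  C_lt : ∀ α, ∀ ξ ∈ C α, ξ < α
  C_cof : ∀ α, Order.IsSuccLimit α → ∀ β < α, ∃ ξ ∈ C α, β ≤ ξ
  C_fin : ∀ α, ∀ β < α, (C α ∩ Set.Iio β).Finite
  /-- the coherent sequence of the Suslin tree -/
  x : W → W → ℕ → B
  /-- the coherent sequence of the Aronszajn tree -/
  y : W → W → ℕ → B
  x_disj : ∀ α, ∀ ξ < α, ∀ n m, n ≠ m → x α ξ n ⊓ x α ξ m = ⊥
  x_tot : ∀ α, ∀ ξ < α, (⨆ n, x α ξ n) = ⊤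
  y_disj : ∀ α, ∀ ξ < α, ∀ n m, n ≠ m → y α ξ n ⊓ y α ξ m = ⊥
  y_tot : ∀ α, ∀ ξ < α, (⨆ n, y α ξ n) = ⊤
  x_restr : ∀ (t : Node), ∀ β ≤ t.1, (⨆ s : Node, ⨆ _ : s.1 = β, le x s t) = ⊤
  y_restr : ∀ (t : Node), ∀ β ≤ t.1, (⨆ s : Node, ⨆ _ : s.1 = β, le y s t) = ⊤
  x_ext : ∀ (s : Node) (β : W) (n : ℕ), s.1 < β →
    (⨆ t : Node, ⨆ _ : t.1 = β, le x s t ⊓ sv x t s.1 n) = ⊤
  y_ext : ∀ (s : Node) (β : W) (n : ℕ), s.1 < β →
    (⨆ t : Node, ⨆ _ : t.1 = β, le y s t ⊓ sv y t s.1 n) = ⊤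
  /-- antichains of the Suslin tree are bounded -/
  suslin : ∀ X : Node → B, (⨅ s, ⨅ t, (X s ⊓ X t ⊓ le x s t ⇨ le x t s)) ⊓
    (⨅ γ : W, ⨆ s : Node, ⨆ _ : γ ≤ s.1, X s) = ⊥
  /-- no node of the Suslin tree forces that there is an unbounded chain in the other tree -/
  aron : ∀ (X : Node → Node → B) (s₀ : Node),
    (⨅ s, ⨅ t, ⨅ s', ⨅ t', (le x s₀ s ⊓ le x s s' ⊓ X s t ⊓ X s' t' ⇨ le y t t' ⊔ le y t' t)) ⊓
    (⨅ s, ⨅ γ : W, (le x s₀ s ⇨ ⨆ s', ⨆ t : Node, ⨆ _ : γ ≤ t.1, le x s s' ⊓ X s' t)) = ⊥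
  /-- uniformization of two-valued colourings in the extension by the Suslin tree -/
  unif : ∀ Y : Node → W → W → B, ∃ (K : Node → Node → B) (Φ : Node → Node → Bool → B),
    (∀ s, (⨆ s', ⨆ t, le x s s' ⊓ K s' t) = ⊤) ∧
    (∀ s t s' (γ : W), K s t ⊓ le x s s' ≤
      ⨆ s'', ⨆ t'' : Node, ⨆ _ : γ ≤ t''.1, le x s' s'' ⊓ le y t t'' ⊓ K s'' t'') ∧
    (∀ s (t : Node) (β : W), Order.IsSuccLimit β → β < t.1 →
      K s t ≤ ⨆ t' : Node, ⨆ _ : t'.1 = β, le y t' t ⊓ K s t') ∧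
    (∀ s (t : Node), Order.IsSuccLimit t.1 → K s t ≤
      ⨆ β : W, ⨆ _ : β < t.1, ⨅ ξ, ⨅ _ : ξ ∈ C t.1 ∧ β ≤ ξ,
        ⨆ s', ⨆ t' : Node, ⨆ _ : t'.1 = ξ, le x s' s ⊓ le y t' t ⊓
          ((Φ s' t' true ⊓ F1 x Y s t.1 ξ) ⊔ (Φ s' t' false ⊓ F0 x Y s t.1 ξ))) ∧
    (∀ s t s' t', Φ s t true ⊓ Φ s' t' false ⊓ (le x s s' ⊔ le x s' s) ⊓
      (le y t t' ⊓ le y t' t) = ⊥)

end

end Pool.Agent.Work.MP_0201f6_lc_helper21
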