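import Pool.Agent.Work.MP_6efb98_lc.Assemble

/-!
Countable hulls closed under arbitrary countable families of operations and tasks.
-/

namespace Pool.Agent.Work.MP_0201f6_lc_helper21

open ZFSet Pool.Agent.Work.MP_6efb98_lc

variable {B : Type} [CompleteBooleanAlgebra B]

/-- basic operations -/
noncomputable def opB : OpK → List (Nm B) → Nm B
  | .inl 0, l => upN (l.getD 0 dN) (l.getD 1 dN)
  | .inl 1, l => unN (l.getD 0 dN)
  | .inl 2, l => resN (l.getD 0 dN) (l.getD 1 dN)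
  | .inl 3, l => powN (l.getD 0 dN)
  | .inl 4, _ => ordN Ordinal.omega0
  | .inl 5, l => woA (l.getD 0 dN)
  | .inl 6, l => woN (l.getD 0 dN)
  | .inl 7, l => woW (l.getD 0 dN) (l.getD 1 dN)
  | .inl 8, l => fstN (l.getD 0 dN)
  | .inl 9, l => sndN (l.getD 0 dN)
  | .inl (_ + 10), _ => dN
  | .inr (.inl ⟨n, φ⟩), l => sepN φ (l.headD dN) (argv l.tail n)
  | .inr (.inr (.inl ⟨n, φ⟩)), l => wB φ (l.headD dN)
      (bval φ (Fin.cons (l.tail.headD dN) (Fin.cons (l.headD dN) (argv l.tail.tail n))))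
      (argv l.tail.tail n)
  | .inr (.inr (.inr (.inl ⟨n, φ⟩))), l => colN φ (l.headD dN) (argv l.tail n)
  | .inr (.inr (.inr (.inr n))), _ => ordN (n : Ordinal.{0})

/-- basic tasks -/
noncomputable def tkB : TkK → List (Nm B) → Nm B → B
  | .inl (0, _), l, ρ => lab (l.getD 1 dN) ρ ⊓ beq (l.getD 0 dN) ρ
  | .inl (1, _), l, η => lab (l.getD 0 dN) η ⊓ beq η (l.getD 1 dN)
  | .inl (2, _), l, η => lab (l.getD 0 dN) η ⊓ (⨆ ρ, lab (l.getD 1 dN) ρ ⊓ beq η ρ)ᶜ
  | .inl (3, _), l, ρ => lab (l.getD 1 dN) ρ ⊓ (⨆ η, lab (l.getD 0 dN) η ⊓ beq η ρ)ᶜ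
  | .inl (_ + 4, _), _, _ => ⊥
  | .inr ⟨n, φ⟩, l, η => bval φ (Fin.cons η (argv l n))

/-- a countable hull closed under given operations and tasks -/
theorem exists_hull_gen [Nontrivial B] {E₁ E₂ : Type} [Countable E₁] [Countable E₂]
    (op : E₁ → List (Nm B) → Nm B) (tk : E₂ → List (Nm B) → Nm B → B) :
    ∃ (X : Set (Nm B)) (G : Set B), X.Countable ∧ Hull X ∧ Gen X G ∧
      (∀ e l, (∀ x ∈ l, x ∈ X) → op e l ∈ X) ∧
      (∀ e l, (∀ x ∈ l, x ∈ X) → (⨆ η, tk e l η) ∈ G → ∃ η ∈ X, tk e l η ∈ G) := by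
  have : Nonempty (Nm B) := ⟨dN⟩
  let opAll : OpK ⊕ E₁ → List (Nm B) → Nm B := Sum.elim opB op
  let tkAll : TkK ⊕ E₂ → List (Nm B) → Nm B → B := Sum.elim tkB tk
  obtain ⟨X, hXc, hXop', G, hG, hTk'⟩ := exists_hull opAll tkAll
  have hXop : ∀ k l, (∀ x ∈ l, x ∈ X) → opB k l ∈ X := fun k l hl => hXop' (.inl k) l hl
  have hTk : ∀ t l, (∀ x ∈ l, x ∈ X) → (⨆ η, tkB t l η) ∈ G → ∃ η ∈ X, tkB t l η ∈ G :=
    fun t l hl h => hTk' (.inl t) l hl h
  have op1 : ∀ (k : OpK) (a : Nm B), a ∈ X → opB k [a] ∈ X := by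
    intro k a ha
    exact hXop k [a] (by simpa using ha)
  have op2 : ∀ (k : OpK) (a b : Nm B), a ∈ X → b ∈ X → opB k [a, b] ∈ X := by
    intro k a b ha hb
    exact hXop k [a, b] (by simp [ha, hb])
  have op0 : ∀ (k : OpK), opB k [] ∈ X := by
    intro k
    exact hXop k [] (by simp)
  have hfn : ∀ {n : ℕ} (v : Fin n → Nm B), (∀ i, v i ∈ X) → ∀ x ∈ List.ofFn v, x ∈ X := by
    intro n v hv x hx
    obtain ⟨i, rfl⟩ := (List.mem_ofFn' _ _).1 hx
    exact hv i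
  refine ⟨X, G, hXc, ?_, ?_, fun e l hl => hXop' (.inr e) l hl,
    fun e l hl h => hTk' (.inr e) l hl h⟩
  · refine ⟨?_, ?_, ?_, ?_, ?_, ?_, ?_, ?_, ?_, ?_, ?_, ?_, ?_, ?_⟩
    · exact fun σ hσ τ hτ => op2 (.inl 0) σ τ hσ hτ
    · exact fun σ hσ => op1 (.inl 1) σ hσ
    · exact fun σ hσ τ hτ => op2 (.inl 2) σ τ hσ hτ
    · exact fun σ hσ => op1 (.inl 3) σ hσ
    · intro n φ σ hσ v hv
      have := hXop (.inr (.inl ⟨n, φ⟩)) (σ :: List.ofFn v) (by
        intro x hx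
        rcases List.mem_cons.1 hx with rfl | hx
        · exact hσ
        · exact hfn v hv x hx)
      simpa [opB, argv_ofFn] using this
    · intro n φ x hx y hy v hv
      have := hXop (.inr (.inr (.inl ⟨n, φ⟩))) (x :: y :: List.ofFn v) (by
        intro z hz
        rcases List.mem_cons.1 hz with rfl | hz
        · exact hx
        rcases List.mem_cons.1 hz with rfl | hz
        · exact hy
        · exact hfn v hv z hz)
      simpa [opB, argv_ofFn] using this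
    · intro n φ σ hσ v hv
      have := hXop (.inr (.inr (.inr (.inl ⟨n, φ⟩)))) (σ :: List.ofFn v) (by
        intro x hx
        rcases List.mem_cons.1 hx with rfl | hx
        · exact hσ
        · exact hfn v hv x hx)
      simpa [opB, argv_ofFn] using this
    · exact fun n => op0 (.inr (.inr (.inr (.inr n))))
    · exact op0 (.inl 4)
    · exact fun σ hσ => op1 (.inl 5) σ hσ
    · exact fun σ hσ => op1 (.inl 6) σ hσ
    · exact fun σ hσ τ hτ => op2 (.inl 7) σ τ hσ hτ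
    · exact fun σ hσ => op1 (.inl 8) σ hσ
    · exact fun σ hσ => op1 (.inl 9) σ hσ
  · refine ⟨hG, ?_, ?_, ?_, ?_, ?_⟩
    · intro σ hσ τ hτ h
      exact hTk (.inl (0, 0)) [σ, τ] (by simp [hσ, hτ]) h
    · intro σ hσ ρ hρ h
      exact hTk (.inl (1, 0)) [σ, ρ] (by simp [hσ, hρ]) h
    · intro σ hσ τ hτ h
      exact hTk (.inl (2, 0)) [σ, τ] (by simp [hσ, hτ]) h
    · intro σ hσ τ hτ h
      exact hTk (.inl (3, 0)) [σ, τ] (by simp [hσ, hτ]) h
    · intro n φ v hv h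
      have h1 := hTk (.inr ⟨n, φ⟩) (List.ofFn v) (hfn v hv)
      simp only [tkB, argv_ofFn] at h1
      exact h1 h

/-- the model is countable -/
theorem mod_countable {X : Set (Nm B)} {G : Set B} (h : X.Countable) : (Mod X G).Countable := by
  have : Mod X G = (ev X G) '' X := by
    ext x
    exact Iff.rfl
  rw [this]
  exact h.image _

end Pool.Agent.Work.MP_0201f6_lc_helper21
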