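import Pool.Agent.Work.MP_0201f6_lc_helper21.Interface
import Pool.Agent.Work.MP_0201f6_lc_helper21.Gen

/-!
Coding of types by names, operations and tasks on coded types, countable ordinals in the hull.
-/

namespace Pool.Agent.Work.MP_0201f6_lc_helper21

open ZFSet Pool.Agent.Work.MP_6efb98_lc

universe u v

variable {B : Type} [CompleteBooleanAlgebra B]

/-- coded types -/
class Cd (B : Type) (α : Type u) where
  cN : α → Nm B
  inj : Function.Injective cN

noncomputable instance : Cd B (Nm B) := ⟨id, Function.injective_id⟩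

noncomputable instance : Cd B ℕ := ⟨fun n => ordN (n : Ordinal.{0}), natN_injective⟩

noncomputable instance : Cd B Bool := ⟨fun b => ordN ((cond b 1 0 : ℕ) : Ordinal.{0}), by
  intro a b h
  have h1 := natN_injective h
  cases a <;> cases b <;> simp_all⟩

noncomputable instance : Cd B W := ⟨fun w => ordN (w.toOrd : Ordinal.{0}), by
  intro a b h
  have h1 := ordN_injective h
  have h2 := Subtype.ext h1
  have h3 := congrArg Ordinal.ToType.mk h2
  simpa using h3⟩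

noncomputable instance : Cd B (W →₀ ℕ) :=
  ⟨fun h => ordN (Ordinal.typein (α := W →₀ ℕ) WellOrderingRel h), by
    intro a b h
    exact Ordinal.typein_injective _ (ordN_injective h)⟩

noncomputable instance {α : Type u} {β : Type v} [Cd B α] [Cd B β] : Cd B (α × β) :=
  ⟨fun p => pairN (Cd.cN p.1) (Cd.cN p.2), by
    rintro ⟨a, b⟩ ⟨a', b'⟩ h
    obtain ⟨h1, h2⟩ := pairN_inj h
    exact Prod.ext (Cd.inj h1) (Cd.inj h2)⟩

/-- the code of `a` is in the hull -/
def In (X : Set (Nm B)) {α : Type u} [Cd B α] (a : α) : Prop := Cd.cN a ∈ X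

theorem in_prod {X : Set (Nm B)} (hX : Hull X) {α : Type u} {β : Type v} [Cd B α] [Cd B β]
    {a : α} {b : β} : In X (a, b) ↔ In X a ∧ In X b := by
  constructor
  · intro h
    have h1 := hX.fst _ h
    have h2 := hX.snd _ h
    change fstN (pairN (Cd.cN a) (Cd.cN b)) ∈ X at h1
    change sndN (pairN (Cd.cN a) (Cd.cN b)) ∈ X at h2
    rw [fstN_pairN] at h1
    rw [sndN_pairN] at h2
    exact ⟨h1, h2⟩
  · rintro ⟨h1, h2⟩
    exact hX.up _ (hX.up _ h1 _ h1) _ (hX.up _ h1 _ h2)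

theorem in_nat {X : Set (Nm B)} (hX : Hull X) (n : ℕ) : In X n := hX.nat n

theorem in_bool {X : Set (Nm B)} (hX : Hull X) (b : Bool) : In X b := hX.nat _

omit [CompleteBooleanAlgebra B] in
theorem in_nm {X : Set (Nm B)} {c : Nm B} : In X c ↔ c ∈ X := Iff.rfl

theorem pairN_mem {X : Set (Nm B)} (hX : Hull X) {σ τ : Nm B} (hσ : σ ∈ X) (hτ : τ ∈ X) :
    pairN σ τ ∈ X := hX.up _ (hX.up _ hσ _ hσ) _ (hX.up _ hσ _ hτ)

theorem of_pairN_mem {X : Set (Nm B)} (hX : Hull X) {σ τ : Nm B} (h : pairN σ τ ∈ X) :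
    σ ∈ X ∧ τ ∈ X := by
  have h1 := hX.fst _ h
  have h2 := hX.snd _ h
  rw [fstN_pairN] at h1
  rw [sndN_pairN] at h2
  exact ⟨h1, h2⟩

open Classical in
/-- operation on names given by a function on coded types -/
noncomputable def opN {α : Type u} {β : Type v} [Cd B α] [Cd B β] (f : α → β)
    (l : List (Nm B)) : Nm B :=
  if h : ∃ a : α, Cd.cN a = l.getD 0 dN then Cd.cN (f h.choose) else dN

omit [CompleteBooleanAlgebra B] in
theorem opN_mem {X : Set (Nm B)} {α : Type u} {β : Type v} [Cd B α] [Cd B β] {f : α → β}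
    (h : ∀ l, (∀ x ∈ l, x ∈ X) → opN (B := B) f l ∈ X) {a : α} (ha : In X a) : In X (f a) := by
  have h1 := h [Cd.cN a] (by simpa [In] using ha)
  have h2 : ∃ a' : α, (Cd.cN a' : Nm B) = [Cd.cN a].getD 0 dN := ⟨a, by simp⟩
  rw [opN, dif_pos h2] at h1
  have h3 : h2.choose = a := by
    apply Cd.inj (B := B)
    simpa using h2.choose_spec
  rw [h3] at h1
  exact h1

/-- task on names given by a family on coded types -/
noncomputable def tkN {α : Type u} {D : Type v} [Cd B α] [Cd B D] (f : α → D → B)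
    (l : List (Nm B)) (η : Nm B) : B :=
  ⨆ a : α, ⨆ _ : Cd.cN a = l.getD 0 dN, ⨆ d : D, ⨆ _ : η = Cd.cN d, f a d

theorem tkN_mem {X : Set (Nm B)} {G : Set B} (hG : IsUltra G) {α : Type u} {D : Type v} [Cd B α]
    [Cd B D] {f : α → D → B}
    (h : ∀ l, (∀ x ∈ l, x ∈ X) → (⨆ η, tkN f l η) ∈ G → ∃ η ∈ X, tkN f l η ∈ G)
    {a : α} (ha : In X a) (hs : (⨆ d, f a d) ∈ G) : ∃ d, In X d ∧ f a d ∈ G := by
  have h1 : ∀ η, tkN f [Cd.cN a] η = ⨆ d : D, ⨆ _ : η = Cd.cN d, f a d := by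
    intro η
    apply le_antisymm
    · refine iSup₂_le fun a' ha' => ?_
      have : a' = a := Cd.inj (B := B) (by simpa using ha')
      subst this
      exact le_rfl
    · exact le_iSup₂_of_le a (by simp) le_rfl
  obtain ⟨η, hη, h2⟩ := h [Cd.cN a] (by simpa [In] using ha) (by
    refine hG.up hs (iSup_le fun d => ?_)
    refine le_iSup_of_le (Cd.cN d) ?_
    rw [h1]
    exact le_iSup₂_of_le d rfl le_rfl)
  rw [h1] at h2
  by_cases h3 : ∃ d : D, η = Cd.cN d
  · obtain ⟨d, rfl⟩ := h3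
    refine ⟨d, hη, hG.up h2 (iSup₂_le fun d' hd' => ?_)⟩
    rw [Cd.inj hd']
  · exfalso
    apply hG.ne_bot h2
    simp only [iSup_eq_bot]
    intro d hd
    exact absurd ⟨d, hd⟩ h3

/-- members of a name, with a decoding of the members -/
theorem mem_ev_mk {X : Set (Nm B)} {G : Set B} (hG : IsUltra G) {ι : Type} {c : ι → Nm B}
    {b : ι → B} [Cd B ι]
    (hdec : ∀ η ∈ X, (⨆ i, ⨆ _ : c i = η, b i) ∈ G → ∃ i, In X i ∧ (⨆ _ : c i = η, b i) ∈ G)
    (hc : ∀ i, In X i → c i ∈ X) {x : ZFSet.{0}} :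
    x ∈ ev X G (.mk ι c b) ↔ ∃ i, In X i ∧ b i ∈ G ∧ ev X G (c i) = x := by
  rw [mem_ev hG]
  constructor
  · rintro ⟨η, hη, h1, rfl⟩
    obtain ⟨i, hi, h2⟩ := hdec η hη h1
    by_cases h3 : c i = η
    · refine ⟨i, hi, ?_, by rw [h3]⟩
      simpa [h3] using h2
    · exfalso
      apply hG.ne_bot h2
      simp [h3]
  · rintro ⟨i, hi, h1, rfl⟩
    exact ⟨c i, hc i hi, hG.up h1 (le_lab (.mk ι c b) i), rfl⟩

/-- members of a name, injective case -/
theorem mem_ev_inj {X : Set (Nm B)} {G : Set B} (hG : IsUltra G) {ι : Type} {c : ι → Nm B}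
    {b : ι → B} (hc : Function.Injective c) {x : ZFSet.{0}} :
    x ∈ ev X G (.mk ι c b) ↔ ∃ i, c i ∈ X ∧ b i ∈ G ∧ ev X G (c i) = x := by
  rw [mem_ev hG]
  constructor
  · rintro ⟨η, hη, h1, rfl⟩
    by_cases h3 : ∃ i, c i = η
    · obtain ⟨i, rfl⟩ := h3
      refine ⟨i, hη, hG.up h1 (iSup₂_le fun j hj => ?_), rfl⟩
      rw [hc hj]
      exact le_rfl
    · exfalso
      apply hG.ne_bot h1
      rw [lab]
      simp only [iSup_eq_bot]
      intro i hi
      exact absurd ⟨i, hi⟩ h3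
  · rintro ⟨i, hi, h1, rfl⟩
    exact ⟨c i, hi, hG.up h1 (le_lab (.mk ι c b) i), rfl⟩

section W

variable {X : Set (Nm B)} {G : Set B} (hG : IsUltra G)
include hG

omit hG in
theorem toOrd_lt {v w : W} : (v.toOrd : Ordinal.{0}) < w.toOrd ↔ v < w := by
  rw [Subtype.coe_lt_coe]
  have : ∀ a : W, Ordinal.ToType.mk a.toOrd = a := fun a => by simp
  constructor
  · intro h
    have := (Ordinal.ToType.mk (o := (Cardinal.aleph (0 + 1)).ord)).lt_iff_lt.2 h
    simpa using this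
  · intro h
    rw [← (Ordinal.ToType.mk (o := (Cardinal.aleph (0 + 1)).ord)).lt_iff_lt]
    simpa using h

/-- members of a countable ordinal -/
theorem mem_ev_W {w : W} {x : ZFSet.{0}} :
    x ∈ ev X G (Cd.cN w) ↔ ∃ v < w, In X v ∧ ev X G (Cd.cN v) = x := by
  change x ∈ ev X G (ordN (w.toOrd : Ordinal.{0})) ↔ _
  rw [mem_ev_ordN hG]
  constructor
  · rintro ⟨a, ha, h1, rfl⟩
    have ha' : a < (Cardinal.aleph (0 + 1)).ord := ha.trans w.toOrd.2
    have h2 : ((Ordinal.ToType.mk (o := (Cardinal.aleph (0 + 1)).ord) ⟨a, ha'⟩).toOrd :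
        Ordinal.{0}) = a := by simp
    refine ⟨Ordinal.ToType.mk ⟨a, ha'⟩, ?_, ?_, ?_⟩
    · rw [← toOrd_lt, h2]
      exact ha
    · change ordN _ ∈ X
      rw [h2]
      exact h1
    · change ev X G (ordN _) = _
      rw [h2]
  · rintro ⟨v, hv, h1, rfl⟩
    exact ⟨_, toOrd_lt.2 hv, h1, rfl⟩

/-- members of `ω₁` -/
theorem mem_ev_omega1 {x : ZFSet.{0}} :
    x ∈ ev X G (ordN (Cardinal.aleph (0 + 1)).ord) ↔ ∃ v : W, In X v ∧ ev X G (Cd.cN v) = x := by
  rw [mem_ev_ordN hG]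
  constructor
  · rintro ⟨a, ha, h1, rfl⟩
    have h2 : ((Ordinal.ToType.mk (o := (Cardinal.aleph (0 + 1)).ord) ⟨a, ha⟩).toOrd :
        Ordinal.{0}) = a := by simp
    refine ⟨Ordinal.ToType.mk ⟨a, ha⟩, ?_, ?_⟩
    · change ordN _ ∈ X
      rw [h2]
      exact h1
    · change ev X G (ordN _) = _
      rw [h2]
  · rintro ⟨v, h1, rfl⟩
    exact ⟨_, v.toOrd.2, h1, rfl⟩

theorem ev_W_mem {v w : W} (hv : In X v) (h : v < w) : ev X G (Cd.cN v) ∈ ev X G (Cd.cN w) :=
  (mem_ev_W hG).2 ⟨v, h, hv, rfl⟩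

theorem ev_W_lt {v w : W} (hv : In X v) (hw : In X w) :
    ev X G (Cd.cN v) ∈ ev X G (Cd.cN w) ↔ v < w := by
  refine ⟨fun h => ?_, ev_W_mem hG hv⟩
  rcases lt_trichotomy v w with h1 | h1 | h1
  · exact h1
  · rw [h1] at h
    exact absurd h (mem_irrefl _)
  · exact absurd h (mem_asymm (ev_W_mem hG hw h1))

theorem ev_W_inj {v w : W} (hv : In X v) (hw : In X w)
    (h : ev X G (Cd.cN v) = ev X G (Cd.cN w)) : v = w := by
  rcases lt_trichotomy v w with h1 | h1 | h1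
  · have := ev_W_mem hG hv h1
    rw [h] at this
    exact absurd this (mem_irrefl _)
  · exact h1
  · have := ev_W_mem hG hw h1
    rw [h] at this
    exact absurd this (mem_irrefl _)

theorem ev_W_ord (w : W) : (ev X G (Cd.cN w)).IsOrdinal := ev_ordN_ordinal hG _

theorem ev_W_le {v w : W} (hv : In X v) (hw : In X w) :
    ev X G (Cd.cN v) ⊆ ev X G (Cd.cN w) ↔ v ≤ w := by
  rw [← not_lt, ← ev_W_lt hG hw hv]
  exact ((ev_W_ord hG w).notMem_iff_subset (ev_W_ord hG v)).symm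

end W

end Pool.Agent.Work.MP_0201f6_lc_helper21
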