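import Pool.Agent.Work.MP_6efb98_lc.Defs

/-!
# Trees, ladder systems and uniformization in a transitive model

Everything is about sets in the sense of Mathlib's `ZFSet.{0}`; `N` is a transitive set, the model
in which the notions are computed. Trees are sets of functions from countable ordinals to `ω`,
ordered by inclusion (end-extension); the height of `t` is its domain.
-/

namespace Pool.Agent.Work.MP_0201f6_lc_helper21

open ZFSet Pool.Agent.Work.MP_6efb98_lc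

/-- `x` is countable in `N`: some function in `N` maps a subset of `ω` onto `x`. -/
def Ctbl (N : Set ZFSet.{0}) (x : ZFSet.{0}) : Prop :=
  ∃ f ∈ N, ∃ d, d ⊆ omega ∧ IsFunc d x f ∧ ∀ y ∈ x, ∃ n, pair n y ∈ f

/-- `κ` is the first uncountable ordinal of `N`. -/
def IsOmegaOne (N : Set ZFSet.{0}) (κ : ZFSet.{0}) : Prop :=
  κ ∈ N ∧ κ.IsOrdinal ∧ (∀ α ∈ κ, Ctbl N α) ∧ ¬ Ctbl N κ

/-- The restriction of the function `f` to the set `d`. -/
noncomputable def rs (f d : ZFSet.{0}) : ZFSet.{0} :=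
  ZFSet.sep (fun z => ∃ x ∈ d, ∃ y, z = pair x y) f

/-- `T ∈ N` is a (normal) tree of height `κ`: a set of functions from ordinals `α ∈ κ` to `ω`,
containing the root `∅`, closed under restrictions, in which every member has extensions of every
larger height below `κ`. The order is inclusion. -/
structure IsTree (N : Set ZFSet.{0}) (κ T : ZFSet.{0}) : Prop where
  mem : T ∈ N
  func : ∀ t ∈ T, ∃ α ∈ κ, IsFunc α omega t
  root : ∅ ∈ T
  restr : ∀ t ∈ T, ∀ α, IsFunc α omega t → ∀ ξ ∈ α, rs t ξ ∈ T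
  extend : ∀ t ∈ T, ∀ α, IsFunc α omega t → ∀ β ∈ κ, α ∈ β → ∃ t' ∈ T, t ⊆ t' ∧ IsFunc β omega t'

/-- `S` is a Suslin tree in `N`: all chains and all antichains are countable in `N`. -/
structure IsSuslin (N : Set ZFSet.{0}) (κ S : ZFSet.{0}) : Prop where
  tree : IsTree N κ S
  chain : ∀ A ∈ N, A ⊆ S → (∀ s ∈ A, ∀ t ∈ A, s ⊆ t ∨ t ⊆ s) → Ctbl N A
  antichain : ∀ A ∈ N, A ⊆ S → (∀ s ∈ A, ∀ t ∈ A, s ≠ t → ¬ s ⊆ t) → Ctbl N A

/-- `T` is an Aronszajn tree in `N`: all levels and all chains are countable in `N`. -/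
structure IsAronszajn (N : Set ZFSet.{0}) (κ T : ZFSet.{0}) : Prop where
  tree : IsTree N κ T
  level : ∀ α ∈ κ, Ctbl N (ZFSet.sep (fun t => IsFunc α omega t) T)
  chain : ∀ A ∈ N, A ⊆ T → (∀ s ∈ A, ∀ t ∈ A, s ⊆ t ∨ t ⊆ s) → Ctbl N A

/-- The ordinal `α` is a limit ordinal (`≠ 0`). -/
def IsLim (α : ZFSet.{0}) : Prop := α ≠ ∅ ∧ ∀ β ∈ α, ∃ γ ∈ α, β ∈ γ

/-- `C ∈ N` is a ladder system on `κ`: a set of pairs `(α, ξ)` (meaning `ξ ∈ C_α`) such that `α ∈ κ`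
is a limit ordinal, `C_α ⊆ α` is cofinal in `α` and every proper initial segment of `C_α` is finite
(so that `C_α` has order type `ω`). -/
structure IsLadder (N : Set ZFSet.{0}) (κ C : ZFSet.{0}) : Prop where
  mem : C ∈ N
  pairs : ∀ z ∈ C, ∃ α ∈ κ, IsLim α ∧ ∃ ξ ∈ α, z = pair α ξ
  cofinal : ∀ α ∈ κ, IsLim α → ∀ β ∈ α, ∃ ξ, pair α ξ ∈ C ∧ β ⊆ ξ
  finite : ∀ α ∈ κ, ∀ β ∈ α, {ξ | pair α ξ ∈ C ∧ ξ ∈ β}.Finite

/-- `D` is a (nonempty) subtree of `T`: it is downward closed and every member has extensions in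
`D` of arbitrarily large height below `κ`. -/
structure IsSubtree (κ T D : ZFSet.{0}) : Prop where
  subset : D ⊆ T
  nonempty : ∃ t, t ∈ D
  restr : ∀ t ∈ D, ∀ α, IsFunc α omega t → ∀ ξ ∈ α, rs t ξ ∈ D
  unbounded : ∀ t ∈ D, ∀ β ∈ κ, ∃ t' ∈ D, t ⊆ t' ∧ ∃ α, β ⊆ α ∧ IsFunc α omega t'

/-- `φ ∈ N` is a `T`-uniformization of the `2`-colouring `f` of `C` (`f` is a function from the set
of pairs `C` to `2 = {0, 1}`): its domain `D` is a subtree of `T`, and for every `t ∈ D` of limit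
height `α`, `φ (t ↾ ξ) = f (α, ξ)` for all but finitely many `ξ ∈ C_α`. -/
def Uniformizes (N : Set ZFSet.{0}) (κ T C f φ : ZFSet.{0}) : Prop :=
  φ ∈ N ∧ ∃ D, IsSubtree κ T D ∧ IsFunc D {∅, {∅}} φ ∧
    ∀ t ∈ D, ∀ α, IsFunc α omega t → IsLim α →
      {ξ | pair α ξ ∈ C ∧ ¬ ∃ i, pair (rs t ξ) i ∈ φ ∧ pair (pair α ξ) i ∈ f}.Finite

end Pool.Agent.Work.MP_0201f6_lc_helper21
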