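import Pool.Agent.Work.MP_0201f6_lc_helper21.Force

/-!
The extension by a Suslin tree: no new countable sets, `ω₁` is preserved, Aronszajn trees that
remain Aronszajn, uniformizations.
-/

namespace Pool.Agent.Work.MP_0201f6_lc_helper21

open ZFSet Pool.Agent.Work.MP_6efb98_lc

variable {M : Set ZFSet.{0}} [hM : Model M] {κ S T C : ZFSet.{0}} {G : Set ZFSet.{0}}

omit hM in
theorem empty_mem_G (hS : TreeD M κ S) (hG : IsGeneric M {x | x ∈ S} G) : (∅ : ZFSet.{0}) ∈ G := by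
  obtain ⟨p, hp⟩ := hG.nonempty
  exact hG.upward p hp ∅ hS.root (ZFSet.empty_subset p)

/-- subsets of countable sets are not new -/
theorem no_new_ctbl (hS : SusD M κ S) (hG : IsGeneric M {x | x ∈ S} G) {x A : ZFSet.{0}}
    (hx : x ∈ M) (hxc : Ctbl M x) (hA : A ∈ Ext M G) (h : A ⊆ x) : A ∈ M := by
  obtain ⟨τ, hτ, rfl⟩ := hA
  obtain ⟨f, hf, d, hd, h1, h2⟩ := hxc
  obtain ⟨h3, h4, h5, h6⟩ := isFunc_iff'.1 h1
  have hfi : InM M f := inM_zf.2 hf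
  -- index
  set π : ZFSet.{0} → ZFSet.{0} := fun z => (⋂₀ (ZFSet.sep (fun n => pair n z ∈ f) omega) : ZFSet)
    with hπ
  have hπd : Dfn M π := by
    rw [hπ]
    have : InM M (omega : ZFSet.{0}) := inM_omega
    fun_prop (disch := assumption)
  have hπ2 : ∀ z ∈ x, π z ∈ omega ∧ pair (π z) z ∈ f := by
    intro z hz
    obtain ⟨n, hn⟩ := h2 z hz
    have := (sInter_mem_of_ordinals (X := ZFSet.sep (fun n => pair n z ∈ f) omega)
      ⟨n, mem_sep.2 ⟨hd (h5 ▸ mem_dom.2 ⟨z, hn⟩), hn⟩⟩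
      (fun x hx => by
        obtain ⟨m, rfl⟩ := mem_omega_iff.1 (mem_sep.1 hx).1
        exact isOrdinal_toZFSet _)).1
    exact mem_sep.1 this
  have h7 := no_new_gen hS.tree.mem hG (omega_mem (M := M)) (fun D hD h1 h2 p hp =>
    hS.dist hD h1 h2 hp) hx hπd (fun z hz => (hπ2 z hz).1) hτ (by
      intro z hz z' hz' _ _ h8
      have h9 := (hπ2 z hz).2
      rw [h8] at h9
      exact h4 _ _ _ h9 (hπ2 z' hz').2)
  have h8 : ZFSet.sep (fun z => z ∈ val G τ) x = val G τ := by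
    ext z
    rw [mem_sep]
    exact ⟨fun h => h.2, fun h' => ⟨h h', h'⟩⟩
  rwa [h8] at h7

/-- `κ` is not countable in the extension -/
theorem not_ctbl_ext (hS : SusD M κ S) (hG : IsGeneric M {x | x ∈ S} G) :
    ¬ Ctbl (Ext M G) κ := by
  rintro ⟨f, ⟨τ, hτ, rfl⟩, d, hd, h1, h2⟩
  obtain ⟨h3, h4, h5, h6⟩ := isFunc_iff'.1 h1
  have hSM : prod omega κ ∈ M := by
    have : Dfn M (fun q : ZFSet.{0} × ZFSet.{0} => prod q.1 q.2) := by fun_prop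
    exact inM_zf.1 (this.1 (omega, κ) (by simp [hS.reg.mem, omega_mem]))
  have h7 := no_new_gen hS.tree.mem hG (omega_mem (M := M)) (fun D hD h1 h2 p hp =>
    hS.dist hD h1 h2 hp) hSM dfn_fstZ (by
      intro z hz
      obtain ⟨x, hx, y, _, rfl⟩ := mem_prod.1 hz
      rw [fstZ_pair]
      exact hx) hτ (by
      intro z hz z' hz' hzv hzv' h
      obtain ⟨x, hx, y, _, rfl⟩ := mem_prod.1 hz
      obtain ⟨x', hx', y', _, rfl⟩ := mem_prod.1 hz'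
      rw [fstZ_pair, fstZ_pair] at h
      subst h
      rw [h4 _ _ _ hzv hzv'])
  have h8 : ZFSet.sep (fun z => z ∈ val G τ) (prod omega κ) = val G τ := by
    ext z
    rw [mem_sep]
    refine ⟨fun h => h.2, fun h => ⟨?_, h⟩⟩
    obtain ⟨x, y, rfl⟩ := h3 z h
    exact pair_mem_prod.2 ⟨hd (h5 ▸ mem_dom.2 ⟨y, h⟩), h6 (mem_ran.2 ⟨x, h⟩)⟩
  rw [h8] at h7
  exact not_ctbl hS.reg ⟨_, h7, d, hd, h1, h2⟩

/-- `κ` is still `ω₁` -/
theorem isOmegaOne_ext (hS : SusD M κ S) (hc : ∀ α ∈ κ, Ctbl M α)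
    (hG : IsGeneric M {x | x ∈ S} G) : IsOmegaOne (Ext M G) κ :=
  ⟨sub_ext (empty_mem_G hS.tree hG) hS.reg.mem, hS.reg.ord,
    fun α hα => (hc α hα).mono (sub_ext (empty_mem_G hS.tree hG)), not_ctbl_ext hS hG⟩

/-- no node of `S` forces an unbounded chain in `T` -/
def Aron (M : Set ZFSet.{0}) (κ S T : ZFSet.{0}) : Prop :=
  ∀ A ∈ M, ∀ s₀ ∈ S, (∀ s ∈ S, ∀ t ∈ T, ∀ s' ∈ S, ∀ t' ∈ T, s₀ ⊆ s → s ⊆ s' → pair s t ∈ A →
    pair s' t' ∈ A → t ⊆ t' ∨ t' ⊆ t) →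
    ¬ ∀ s ∈ S, s₀ ⊆ s → ∀ γ ∈ κ, ∃ s' ∈ S, s ⊆ s' ∧ ∃ t ∈ T, γ ⊆ dom t ∧ pair s' t ∈ A

/-- chains of `T` in the extension are bounded -/
theorem chain_bdd_ext (hS : SusD M κ S) (hT : TreeD M κ T) (hA : Aron M κ S T)
    (hG : IsGeneric M {x | x ∈ S} G) {A : ZFSet.{0}} (hAE : A ∈ Ext M G) (hAT : A ⊆ T)
    (hc : ∀ s ∈ A, ∀ t ∈ A, s ⊆ t ∨ t ⊆ s) : ∃ γ ∈ κ, ∀ t ∈ A, dom t ∈ γ := by
  by_contra hcon
  push Not at hcon
  obtain ⟨τ, hτ, rfl⟩ := hAE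
  have hSi : InM M S := inM_zf.2 hS.tree.mem
  have hTi : InM M T := inM_zf.2 hT.mem
  have hκi : InM M κ := inM_zf.2 hS.reg.mem
  obtain ⟨E, hEd, hEmono, hE⟩ := exists_forces hS.tree.mem hG hτ hT.mem
  -- a node of `G` that forces that `τ` is a chain
  have hD1 : Dfn M (fun P : ZFSet.{0} => ZFSet.sep (fun s => (BEx T (fun t => BEx T (fun t' =>
      E s t ∧ E s t' ∧ ¬ (t ⊆ t' ∨ t' ⊆ t)))) ∨ BAll P (fun s' => Imp (s ⊆ s')
      (¬ (BEx T (fun t => BEx T (fun t' => E s' t ∧ E s' t' ∧ ¬ (t ⊆ t' ∨ t' ⊆ t))))))) P) := by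
    fun_prop (disch := assumption)
  obtain ⟨s1, hs1, h1⟩ := exists_avoid (D := fun s => (BEx T (fun t => BEx T (fun t' =>
      E s t ∧ E s t' ∧ ¬ (t ⊆ t' ∨ t' ⊆ t))))) hG (inM_zf.1 (hD1.1 S hSi)) (by
    rintro s hs ⟨t, ht, t', ht', h1, h2, h3⟩
    exact h3 (hc t ((hE t ht).2 ⟨s, hs, h1⟩) t' ((hE t' ht').2 ⟨s, hs, h2⟩)))
  -- a node of `G` that forces that `τ` is unbounded
  have hD2 : Dfn M (fun P : ZFSet.{0} => ZFSet.sep (fun s => (BEx κ (fun γ => BAll P (fun s' =>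
      Imp (s ⊆ s') (BAll T (fun t => Imp (γ ⊆ dom t) (¬ E s' t)))))) ∨
      BAll P (fun s₁ => Imp (s ⊆ s₁) (¬ (BEx κ (fun γ => BAll P (fun s' =>
      Imp (s₁ ⊆ s') (BAll T (fun t => Imp (γ ⊆ dom t) (¬ E s' t))))))))) P) := by
    fun_prop (disch := assumption)
  obtain ⟨s2, hs2, h2⟩ := exists_avoid (D := fun s => (BEx κ (fun γ => BAll S (fun s' =>
      Imp (s ⊆ s') (BAll T (fun t => Imp (γ ⊆ dom t) (¬ E s' t))))))) hG
      (inM_zf.1 (hD2.1 S hSi)) (by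
    rintro s hs ⟨γ, hγ, h2⟩
    obtain ⟨t, ht, h3⟩ := hcon γ hγ
    have htT := hAT ht
    obtain ⟨s', hs', h4⟩ := (hE t htT).1 ht
    obtain ⟨r, hr, h5, h6⟩ := hG.directed s hs s' hs'
    refine h2 r (hG.subset hr) h5 t htT ?_ (hEmono _ _ _ h4 h6 (hG.subset hr))
    exact ((hT.dom_ord hS.reg.ord htT).notMem_iff_subset (hS.reg.ord.mem hγ)).1 h3)
  obtain ⟨s₀, hs₀, h3, h4⟩ := hG.directed s1 hs1 s2 hs2
  have hs₀S : s₀ ∈ S := hG.subset hs₀
  -- the relation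
  have hR : Dfn M (fun P : ZFSet.{0} => ZFSet.sep (fun w => BEx P (fun s => BEx T (fun t =>
      w = pair s t ∧ E s t))) (prod P T)) := by
    fun_prop (disch := assumption)
  have hRM := inM_zf.1 (hR.1 S hSi)
  have hRm : ∀ s t, pair s t ∈ ZFSet.sep (fun w => BEx S (fun s => BEx T (fun t =>
      w = pair s t ∧ E s t))) (prod S T) ↔ s ∈ S ∧ t ∈ T ∧ E s t := by
    intro s t
    simp only [mem_sep, pair_mem_prod]
    constructor
    · rintro ⟨⟨h5, h6⟩, s', _, t', _, h7, h8⟩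
      obtain ⟨rfl, rfl⟩ := pair_inj.1 h7
      exact ⟨h5, h6, h8⟩
    · rintro ⟨h5, h6, h7⟩
      exact ⟨⟨h5, h6⟩, s, h5, t, h6, rfl, h7⟩
  refine hA _ hRM s₀ hs₀S ?_ ?_
  · intro s hs t ht s' hs' t' ht' h5 h6 h7 h8
    by_contra h9
    have h10 := ((hRm _ _).1 h7).2.2
    have h11 := ((hRm _ _).1 h8).2.2
    exact h1 s' hs' (fun x hx => h6 (h5 (h3 hx))) ⟨t, ht, t', ht', hEmono _ _ _ h10 h6 hs', h11, h9⟩
  · intro s hs h5 γ hγ
    by_contra h6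
    push Not at h6
    refine h2 s hs (fun x hx => h5 (h4 hx)) ⟨γ, hγ, fun s' hs' h7 t ht h8 h9 => ?_⟩
    exact h6 s' hs' h7 t ht h8 ((hRm _ _).2 ⟨hs', ht, h9⟩)

/-- `T` is still an Aronszajn tree -/
theorem isAronszajn_ext (hS : SusD M κ S) (hT : TreeD M κ T) (hA : Aron M κ S T)
    (hG : IsGeneric M {x | x ∈ S} G) : IsAronszajn (Ext M G) κ T where
  tree := hT.isTree (sub_ext (empty_mem_G hS.tree hG) hT.mem)
  level := by
    intro α hα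
    apply Ctbl.mono (sub_ext (empty_mem_G hS.tree hG))
    obtain ⟨γ, hγ, h1⟩ := hS.reg.succ_mem hα
    have hd : Dfn M (fun q : ZFSet.{0} × ZFSet.{0} =>
        ZFSet.sep (fun t => IsFunc q.2 omega t) q.1) := by
      have : InM M (omega : ZFSet.{0}) := inM_omega
      fun_prop (disch := assumption)
    refine (hT.ctbl γ hγ).subset
      (inM_zf.1 (hd.1 (T, α) (by simp [hT.mem, trans_mem hS.reg.mem hα]))) ?_
    intro t ht
    obtain ⟨h2, h3⟩ := mem_sep.1 ht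
    exact mem_sep.2 ⟨h2, by rw [isFunc_dom h3]; exact h1⟩
  chain := by
    intro A hAE hAT hc
    obtain ⟨γ, hγ, h1⟩ := chain_bdd_ext hS hT hA hG hAE hAT hc
    have h2 : A ⊆ ZFSet.sep (fun t => dom t ∈ γ) T := fun t ht => mem_sep.2 ⟨hAT ht, h1 t ht⟩
    have hd : Dfn M (fun q : ZFSet.{0} × ZFSet.{0} => ZFSet.sep (fun t => dom t ∈ q.2) q.1) := by
      fun_prop
    have h3 := no_new_ctbl hS hG (inM_zf.1 (hd.1 (T, γ) (by
      simp [hT.mem, trans_mem hS.reg.mem hγ]))) (hT.ctbl γ hγ) hAE h2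
    exact ((hT.ctbl γ hγ).subset h3 h2).mono (sub_ext (empty_mem_G hS.tree hG))

/-- `T` is an Aronszajn tree in `M` -/
theorem isAronszajn_M (hS : SusD M κ S) (hT : TreeD M κ T) (hA : Aron M κ S T) :
    IsAronszajn M κ T where
  tree := hT.isTree hT.mem
  level := by
    intro α hα
    obtain ⟨γ, hγ, h1⟩ := hS.reg.succ_mem hα
    have hd : Dfn M (fun q : ZFSet.{0} × ZFSet.{0} =>
        ZFSet.sep (fun t => IsFunc q.2 omega t) q.1) := by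
      have : InM M (omega : ZFSet.{0}) := inM_omega
      fun_prop (disch := assumption)
    refine (hT.ctbl γ hγ).subset
      (inM_zf.1 (hd.1 (T, α) (by simp [hT.mem, trans_mem hS.reg.mem hα]))) ?_
    intro t ht
    obtain ⟨h2, h3⟩ := mem_sep.1 ht
    exact mem_sep.2 ⟨h2, by rw [isFunc_dom h3]; exact h1⟩
  chain := by
    intro A hAM hAT hc
    have hAi : InM M A := inM_zf.2 hAM
    have h0 : ∃ γ ∈ κ, ∀ t ∈ A, dom t ∈ γ := by
      by_contra hcon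
      push Not at hcon
      have hR : Dfn M (fun P : ZFSet.{0} => prod P A) := by
        fun_prop (disch := assumption)
      refine hA _ (inM_zf.1 (hR.1 S (inM_zf.2 hS.tree.mem))) ∅ hS.tree.root ?_ ?_
      · intro s hs t ht s' hs' t' ht' _ _ h1 h2
        exact hc t (pair_mem_prod.1 h1).2 t' (pair_mem_prod.1 h2).2
      · intro s hs _ γ hγ
        obtain ⟨t, ht, h3⟩ := hcon γ hγ
        refine ⟨s, hs, subset_rfl, t, hAT ht, ?_, pair_mem_prod.2 ⟨hs, ht⟩⟩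
        exact ((hT.dom_ord hS.reg.ord (hAT ht)).notMem_iff_subset (hS.reg.ord.mem hγ)).1 h3
    obtain ⟨γ, hγ, h1⟩ := h0
    exact (hT.ctbl γ hγ).subset hAM fun t ht => mem_sep.2 ⟨hAT ht, h1 t ht⟩

end Pool.Agent.Work.MP_0201f6_lc_helper21
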