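import Pool.Agent.Work.MP_0201f6_lc_helper21.TreeB

/-!
Ladder system, Suslin property, Aronszajn property and uniformization in the model.
-/

namespace Pool.Agent.Work.MP_0201f6_lc_helper21

open ZFSet Pool.Agent.Work.MP_6efb98_lc

variable {B : Type} [CompleteBooleanAlgebra B]

/-- `ω₁` in the model -/
noncomputable def kap (X : Set (Nm B)) (G : Set B) : ZFSet.{0} :=
  ev X G (ordN (Cardinal.aleph (0 + 1)).ord)

/-! ### The ladder system -/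

/-- name of the ladder system -/
noncomputable def ldN (C : W → Set W) : Nm B :=
  .mk {p : W × W // Order.IsSuccLimit p.1 ∧ p.2 ∈ C p.1} (fun p => pairN (Cd.cN p.1.1) (Cd.cN p.1.2))
    (fun _ => ⊤)

open Classical in
/-- an element strictly between -/
noncomputable def md (p : W × W) : W := if h : ∃ c, p.1 < c ∧ c < p.2 then h.choose else w0

open Classical in
/-- the element covered by `d` -/
noncomputable def pr (d : W) : W := if h : ∃ b, b ⋖ d then h.choose else w0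

open Classical in
/-- an element of the ladder -/
noncomputable def cf (C : W → Set W) (p : W × W) : W :=
  if h : ∃ ξ ∈ C p.1, p.2 ≤ ξ then h.choose else w0

section

variable {X : Set (Nm B)} {G : Set B}

/-- closure properties of the hull, for the ladder system -/
structure Lz (C : W → Set W) (X : Set (Nm B)) (G : Set B) : Prop where
  hull : Hull X
  ult : IsUltra G
  C_lt : ∀ α, ∀ ξ ∈ C α, ξ < α
  C_cof : ∀ α, Order.IsSuccLimit α → ∀ β < α, ∃ ξ ∈ C α, β ≤ ξ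
  C_fin : ∀ α, ∀ β < α, (C α ∩ Set.Iio β).Finite
  o_ld : ldN C ∈ X
  o_w0 : In X w0
  o_md : ∀ p : W × W, In X p → In X (md p)
  o_pr : ∀ d : W, In X d → In X (pr d)
  o_cf : ∀ p : W × W, In X p → In X (cf C p)

namespace Lz

variable {C : W → Set W} (h : Lz C X G)
include h

/-- limit elements -/
theorem lim_iff {d : W} (hd : In X d) : IsLim (ev X G (Cd.cN d)) ↔ Order.IsSuccLimit d := by
  constructor
  · rintro ⟨h1, h2⟩
    refine ⟨?_, ?_⟩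
    · intro hmin
      apply h1
      ext x
      rw [mem_ev_W h.ult]
      constructor
      · rintro ⟨v, hv, _⟩
        exact absurd hv (hmin.not_lt)
      · intro hx
        exact absurd hx (notMem_empty x)
    · intro b hb
      have h3 : ∃ b, b ⋖ d := ⟨b, hb⟩
      have h4 : pr d ⋖ d := by
        rw [pr, dif_pos h3]
        exact h3.choose_spec
      have h5 := h.o_pr d hd
      obtain ⟨γ, hγ, h6⟩ := h2 _ (ev_W_mem h.ult h5 h4.lt)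
      obtain ⟨c, hc, hcX, rfl⟩ := (mem_ev_W h.ult).1 hγ
      exact h4.2 ((ev_W_lt h.ult h5 hcX).1 h6) hc
  · intro hlim
    refine ⟨?_, ?_⟩
    · intro h1
      have h2 : w0 < d := by
        rcases (w0_le d).lt_or_eq with h2 | h2
        · exact h2
        · exfalso
          apply hlim.not_isMin
          intro b _
          rw [← h2]
          exact w0_le b
      have h3 := ev_W_mem h.ult h.o_w0 h2
      rw [h1] at h3
      exact notMem_empty _ h3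
    · intro β hβ
      obtain ⟨b, hb, hbX, rfl⟩ := (mem_ev_W h.ult).1 hβ
      have h1 : ∃ c, b < c ∧ c < d := by
        by_contra hcon
        push Not at hcon
        exact hlim.isSuccPrelimit b ⟨hb, fun {c} hc hcd => not_lt.2 (hcon c hc) hcd⟩
      have h2 := h.o_md (b, d) ((in_prod h.hull).2 ⟨hbX, hd⟩)
      have h3 : b < md (b, d) ∧ md (b, d) < d := by
        have h4 : ∃ c, (b, d).1 < c ∧ c < (b, d).2 := h1
        rw [md, dif_pos h4]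
        exact h4.choose_spec
      exact ⟨_, ev_W_mem h.ult h2 h3.2, ev_W_mem h.ult hbX h3.1⟩

theorem mem_ld {x : ZFSet.{0}} : x ∈ ev X G (ldN C) ↔ ∃ α ξ : W, Order.IsSuccLimit α ∧ ξ ∈ C α ∧
    In X α ∧ In X ξ ∧ x = pair (ev X G (Cd.cN α)) (ev X G (Cd.cN ξ)) := by
  rw [ldN, mem_ev_top h.ult]
  constructor
  · rintro ⟨⟨⟨α, ξ⟩, h1, h2⟩, h3, rfl⟩
    obtain ⟨h4, h5⟩ := of_pairN_mem h.hull h3
    exact ⟨α, ξ, h1, h2, h4, h5, ev_pairN h.ult h.hull h4 h5⟩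
  · rintro ⟨α, ξ, h1, h2, h3, h4, rfl⟩
    exact ⟨⟨⟨α, ξ⟩, h1, h2⟩, pairN_mem h.hull h3 h4, ev_pairN h.ult h.hull h3 h4⟩

theorem pair_mem_ld {α ξ : W} (hα : In X α) (hξ : In X ξ) :
    pair (ev X G (Cd.cN α)) (ev X G (Cd.cN ξ)) ∈ ev X G (ldN C) ↔
      Order.IsSuccLimit α ∧ ξ ∈ C α := by
  rw [h.mem_ld]
  constructor
  · rintro ⟨α', ξ', h1, h2, h3, h4, h5⟩
    obtain ⟨h6, h7⟩ := pair_inj.1 h5
    have h8 := ev_W_inj h.ult hα h3 h6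
    have h9 := ev_W_inj h.ult hξ h4 h7
    subst h8 h9
    exact ⟨h1, h2⟩
  · rintro ⟨h1, h2⟩
    exact ⟨α, ξ, h1, h2, hα, hξ, rfl⟩

/-- the ladder system in the model -/
theorem isLadder : IsLadder (Mod X G) (kap X G) (ev X G (ldN C)) where
  mem := ⟨_, h.o_ld, rfl⟩
  pairs := by
    intro z hz
    obtain ⟨α, ξ, h1, h2, h3, h4, rfl⟩ := h.mem_ld.1 hz
    exact ⟨_, (mem_ev_omega1 h.ult).2 ⟨α, h3, rfl⟩, (h.lim_iff h3).2 h1, _,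
      ev_W_mem h.ult h4 (h.C_lt α ξ h2), rfl⟩
  cofinal := by
    intro α hα hlim β hβ
    obtain ⟨a, ha, rfl⟩ := (mem_ev_omega1 h.ult).1 hα
    obtain ⟨b, hb, hbX, rfl⟩ := (mem_ev_W h.ult).1 hβ
    have h1 := (h.lim_iff ha).1 hlim
    have h2 := h.o_cf (a, b) ((in_prod h.hull).2 ⟨ha, hbX⟩)
    have h3 : cf C (a, b) ∈ C a ∧ b ≤ cf C (a, b) := by
      have h4 : ∃ ξ ∈ C (a, b).1, (a, b).2 ≤ ξ := h.C_cof a h1 b hb
      rw [cf, dif_pos h4]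
      exact h4.choose_spec
    exact ⟨_, (h.pair_mem_ld ha h2).2 ⟨h1, h3.1⟩, (ev_W_le h.ult hbX h2).2 h3.2⟩
  finite := by
    intro α hα β hβ
    obtain ⟨a, ha, rfl⟩ := (mem_ev_omega1 h.ult).1 hα
    obtain ⟨b, hb, hbX, rfl⟩ := (mem_ev_W h.ult).1 hβ
    refine ((h.C_fin a b hb).image (fun w => ev X G (Cd.cN w))).subset ?_
    rintro ξ ⟨h1, h2⟩
    obtain ⟨v, hv, hvX, rfl⟩ := (mem_ev_W h.ult).1 h2
    exact ⟨v, ⟨((h.pair_mem_ld ha hvX).1 h1).2, hv⟩, rfl⟩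

end Lz

end

/-! ### The Suslin property -/

/-- value of membership of a node -/
noncomputable def PX (x : W → W → ℕ → B) (c : Nm B) (s : Node) : B := bmem (fnN x s) c

/-- closure properties of the hull, for the Suslin property -/
structure Sz (x : W → W → ℕ → B) (X : Set (Nm B)) (G : Set B) : Prop where
  gen : Gen X G
  tz : Tz x X G
  suslin : ∀ X : Node → B, (⨅ s, ⨅ t, (X s ⊓ X t ⊓ le x s t ⇨ le x t s)) ⊓
    (⨅ γ : W, ⨆ s : Node, ⨆ _ : γ ≤ s.1, X s) = ⊥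
  t_1 : ∀ c ∈ X, (⨆ p : Node × Node, (PX x c p.1 ⊓ PX x c p.2 ⊓ le x p.1 p.2 ⇨ le x p.2 p.1)ᶜ) ∈ G →
    ∃ p : Node × Node, In X p ∧ (PX x c p.1 ⊓ PX x c p.2 ⊓ le x p.1 p.2 ⇨ le x p.2 p.1)ᶜ ∈ G
  t_2 : ∀ c ∈ X, (⨆ γ : W, (⨆ s : Node, ⨆ _ : γ ≤ s.1, PX x c s)ᶜ) ∈ G →
    ∃ γ : W, In X γ ∧ (⨆ s : Node, ⨆ _ : γ ≤ s.1, PX x c s)ᶜ ∈ G

theorem Sz.anti {x : W → W → ℕ → B} {X : Set (Nm B)} {G : Set B} (h : Sz x X G) :
    ∀ A ∈ Mod X G, A ⊆ ev X G (trN x) → (∀ s ∈ A, ∀ t ∈ A, s ⊆ t → s = t) →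
      ∃ γ ∈ kap X G, ∀ s ∈ A, dom s ∈ γ := by
  rintro _ ⟨c, hc, rfl⟩ hA hanti
  have hG := h.tz.ult
  have hPX : ∀ s : Node, In X s → (PX x c s ∈ G ↔ ev X G (fnN x s) ∈ ev X G c) := by
    intro s hs
    rw [PX, h.gen.bmem_iff (h.tz.o_fn s hs) hc]
  have h1 : (⨅ s, ⨅ t, (PX x c s ⊓ PX x c t ⊓ le x s t ⇨ le x t s)) ∈ G := by
    by_contra hcon
    rw [← hG.compl_iff, compl_iInf] at hcon
    simp only [compl_iInf] at hcon
    obtain ⟨⟨s, t⟩, h2, h3⟩ := h.t_1 c hc (hG.up hcon (iSup_le fun s => iSup_le fun t =>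
      le_iSup (fun p : Node × Node =>
        (PX x c p.1 ⊓ PX x c p.2 ⊓ le x p.1 p.2 ⇨ le x p.2 p.1)ᶜ) (s, t)))
    obtain ⟨hs, ht⟩ := (in_prod h.tz.hull).1 h2
    rw [hG.compl_iff, hG.himp_iff, hG.inf_iff, hG.inf_iff, hPX s hs, hPX t ht,
      h.tz.le_iff hs ht, h.tz.le_iff ht hs] at h3
    exact h3 fun h4 => by rw [hanti _ h4.1.1 _ h4.1.2 h4.2]
  have h2 : (⨅ γ : W, ⨆ s : Node, ⨆ _ : γ ≤ s.1, PX x c s) ∉ G := by
    intro h2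
    have := hG.inf h1 h2
    rw [h.suslin] at this
    exact hG.bot_notMem this
  rw [← hG.compl_iff, compl_iInf] at h2
  obtain ⟨γ, hγ, h3⟩ := h.t_2 c hc h2
  refine ⟨_, (mem_ev_omega1 hG).2 ⟨γ, hγ, rfl⟩, fun a ha => ?_⟩
  obtain ⟨s, hs, rfl⟩ := h.tz.mem_tr.1 (hA ha)
  rw [h.tz.dom_fn hs, ev_W_lt hG (h.tz.in_fst hs) hγ]
  by_contra hcon
  refine hG.compl_iff.1 h3 (hG.up ((hPX s hs).2 ha) ?_)
  exact le_iSup₂_of_le s (not_lt.1 hcon) le_rfl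

/-! ### The Aronszajn property -/

/-- value of membership of a pair of nodes -/
noncomputable def PA (x y : W → W → ℕ → B) (c : Nm B) (s t : Node) : B :=
  bmem (pairN (fnN x s) (fnN y t)) c

/-- closure properties of the hull, for the Aronszajn property -/
structure Az (x y : W → W → ℕ → B) (X : Set (Nm B)) (G : Set B) : Prop where
  gen : Gen X G
  tx : Tz x X G
  ty : Tz y X G
  aron : ∀ (X : Node → Node → B) (s₀ : Node),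
    (⨅ s, ⨅ t, ⨅ s', ⨅ t', (le x s₀ s ⊓ le x s s' ⊓ X s t ⊓ X s' t' ⇨ le y t t' ⊔ le y t' t)) ⊓
    (⨅ s, ⨅ γ : W, (le x s₀ s ⇨ ⨆ s', ⨆ t : Node, ⨆ _ : γ ≤ t.1, le x s s' ⊓ X s' t)) = ⊥
  t_1 : ∀ c ∈ X, ∀ s₀ : Node, In X s₀ → (⨆ p : (Node × Node) × (Node × Node),
      (le x s₀ p.1.1 ⊓ le x p.1.1 p.2.1 ⊓ PA x y c p.1.1 p.1.2 ⊓ PA x y c p.2.1 p.2.2 ⇨
        le y p.1.2 p.2.2 ⊔ le y p.2.2 p.1.2)ᶜ) ∈ G →
    ∃ p : (Node × Node) × (Node × Node), In X p ∧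
      (le x s₀ p.1.1 ⊓ le x p.1.1 p.2.1 ⊓ PA x y c p.1.1 p.1.2 ⊓ PA x y c p.2.1 p.2.2 ⇨
        le y p.1.2 p.2.2 ⊔ le y p.2.2 p.1.2)ᶜ ∈ G
  t_2 : ∀ c ∈ X, ∀ s₀ : Node, In X s₀ → (⨆ p : Node × W,
      (le x s₀ p.1 ⇨ ⨆ s', ⨆ t : Node, ⨆ _ : p.2 ≤ t.1, le x p.1 s' ⊓ PA x y c s' t)ᶜ) ∈ G →
    ∃ p : Node × W, In X p ∧
      (le x s₀ p.1 ⇨ ⨆ s', ⨆ t : Node, ⨆ _ : p.2 ≤ t.1, le x p.1 s' ⊓ PA x y c s' t)ᶜ ∈ G

theorem PA_iff {x y : W → W → ℕ → B} {X : Set (Nm B)} {G : Set B} (hg : Gen X G) (tx : Tz x X G)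
    (ty : Tz y X G) {c : Nm B} (hc : c ∈ X) {s t : Node} (hs : In X s) (ht : In X t) :
    PA x y c s t ∈ G ↔ pair (ev X G (fnN x s)) (ev X G (fnN y t)) ∈ ev X G c := by
  rw [PA, hg.bmem_iff (pairN_mem tx.hull (tx.o_fn s hs) (ty.o_fn t ht)) hc,
    ev_pairN tx.ult tx.hull (tx.o_fn s hs) (ty.o_fn t ht)]

theorem Az.aronM {x y : W → W → ℕ → B} {X : Set (Nm B)} {G : Set B} (h : Az x y X G) :
    Aron (Mod X G) (kap X G) (ev X G (trN x)) (ev X G (trN y)) := by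
  rintro _ ⟨c, hc, rfl⟩ s₀ hs₀ hchain hunb
  have hG := h.tx.ult
  obtain ⟨n₀, hn₀, rfl⟩ := h.tx.mem_tr.1 hs₀
  have hPA := fun {s t : Node} (hs : In X s) (ht : In X t) => PA_iff h.gen h.tx h.ty hc hs ht
  have h1 : (⨅ s, ⨅ t, ⨅ s', ⨅ t', (le x n₀ s ⊓ le x s s' ⊓ PA x y c s t ⊓ PA x y c s' t' ⇨
      le y t t' ⊔ le y t' t)) ∈ G := by
    by_contra hcon
    rw [← hG.compl_iff] at hcon
    simp only [compl_iInf] at hcon
    obtain ⟨⟨⟨s, t⟩, s', t'⟩, h2, h3⟩ := h.t_1 c hc n₀ hn₀ (hG.up hcon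
      (iSup_le fun s => iSup_le fun t => iSup_le fun s' => iSup_le fun t' =>
      le_iSup (fun p : (Node × Node) × (Node × Node) =>
      (le x n₀ p.1.1 ⊓ le x p.1.1 p.2.1 ⊓ PA x y c p.1.1 p.1.2 ⊓ PA x y c p.2.1 p.2.2 ⇨
        le y p.1.2 p.2.2 ⊔ le y p.2.2 p.1.2)ᶜ) ((s, t), (s', t'))))
    obtain ⟨h4, h5⟩ := (in_prod h.tx.hull).1 h2
    obtain ⟨hs, ht⟩ := (in_prod h.tx.hull).1 h4
    obtain ⟨hs', ht'⟩ := (in_prod h.tx.hull).1 h5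
    rw [hG.compl_iff, hG.himp_iff, hG.inf_iff, hG.inf_iff, hG.inf_iff, hG.sup_iff,
      h.tx.le_iff hn₀ hs, h.tx.le_iff hs hs', h.ty.le_iff ht ht', h.ty.le_iff ht' ht,
      hPA hs ht, hPA hs' ht'] at h3
    exact h3 fun h6 => hchain _ (h.tx.mem_tr.2 ⟨s, hs, rfl⟩) _ (h.ty.mem_tr.2 ⟨t, ht, rfl⟩) _
      (h.tx.mem_tr.2 ⟨s', hs', rfl⟩) _ (h.ty.mem_tr.2 ⟨t', ht', rfl⟩) h6.1.1.1 h6.1.1.2 h6.1.2 h6.2
  have h2 : (⨅ s, ⨅ γ : W, (le x n₀ s ⇨ ⨆ s', ⨆ t : Node, ⨆ _ : γ ≤ t.1,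
      le x s s' ⊓ PA x y c s' t)) ∉ G := by
    intro h2
    have := hG.inf h1 h2
    rw [h.aron] at this
    exact hG.bot_notMem this
  rw [← hG.compl_iff] at h2
  simp only [compl_iInf] at h2
  obtain ⟨⟨s, γ⟩, h3, h4⟩ := h.t_2 c hc n₀ hn₀ (hG.up h2
      (iSup_le fun s => iSup_le fun γ => le_iSup (fun p : Node × W =>
      (le x n₀ p.1 ⇨ ⨆ s', ⨆ t : Node, ⨆ _ : p.2 ≤ t.1, le x p.1 s' ⊓ PA x y c s' t)ᶜ) (s, γ)))
  obtain ⟨hs, hγ⟩ := (in_prod h.tx.hull).1 h3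
  rw [hG.compl_iff, hG.himp_iff] at h4
  apply h4
  intro h5
  rw [h.tx.le_iff hn₀ hs] at h5
  obtain ⟨s', hs', h6, t, ht, h7, h8⟩ := hunb _ (h.tx.mem_tr.2 ⟨s, hs, rfl⟩) h5 _
    ((mem_ev_omega1 hG).2 ⟨γ, hγ, rfl⟩)
  obtain ⟨m, hm, rfl⟩ := h.tx.mem_tr.1 hs'
  obtain ⟨k, hk, rfl⟩ := h.ty.mem_tr.1 ht
  rw [h.ty.dom_fn hk, ev_W_le hG hγ (h.ty.in_fst hk)] at h7
  rw [← h.tx.le_iff hs hm] at h6
  rw [← hPA hm hk] at h8
  exact hG.up (hG.inf h6 h8) (le_iSup_of_le m (le_iSup_of_le k (le_iSup_of_le h7 le_rfl)))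

end Pool.Agent.Work.MP_0201f6_lc_helper21
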