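import Pool.Agent.Work.MP_0201f6_lc_helper21.Level

/-!
Generic extensions: transitive closures, forcing membership, names of relations, no new small
sets for distributive forcings.
-/

namespace Pool.Agent.Work.MP_0201f6_lc_helper21

open ZFSet Pool.Agent.Work.MP_6efb98_lc

variable {M : Set ZFSet.{0}}

/-- transitive closure -/
noncomputable def tc : ZFSet.{0} → ZFSet.{0} :=
  recF (fun q => q.1 ∪ ⋃₀ (ran q.2)) (fun x => x) (fun _ _ h => rank_lt_of_mem h)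

theorem ran_graph {R : ZFSet.{0} → ZFSet.{0}} {x : ZFSet.{0}} : ran (graph R x) = img R x := by
  ext y
  simp only [mem_ran, mem_graph, mem_img]
  exact exists_congr fun z => and_congr_right fun _ => eq_comm

theorem tc_eq (x : ZFSet.{0}) : tc x = x ∪ ⋃₀ (img tc x) := by
  rw [tc, recF_eq, ← tc, ran_graph]

theorem sub_tc (x : ZFSet.{0}) : x ⊆ tc x := by
  rw [tc_eq]
  exact fun y hy => mem_union.2 (Or.inl hy)

theorem tc_transitive (x : ZFSet.{0}) : (tc x).IsTransitive := by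
  induction x using ZFSet.inductionOn with
  | h x ih =>
  intro y hy z hz
  rw [tc_eq] at hy ⊢
  rw [mem_union, mem_sUnion] at *
  right
  rcases hy with hy | ⟨w, hw, hyw⟩
  · exact ⟨_, mem_img.2 ⟨y, hy, rfl⟩, sub_tc y hz⟩
  · obtain ⟨u, hu, rfl⟩ := mem_img.1 hw
    exact ⟨_, mem_img.2 ⟨u, hu, rfl⟩, ih u hu y hyw hz⟩

theorem dfn_tc [Model M] : Dfn M tc :=
  dfn_rec (F := fun q => q.1 ∪ ⋃₀ (ran q.2)) (ext := fun x => x) (by fun_prop)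
    (by fun_prop) (fun _ _ h => rank_lt_of_mem h) (recF_eq _ _ _)

theorem tc_mem [Model M] {x : ZFSet.{0}} (hx : x ∈ M) : tc x ∈ M :=
  inM_zf.1 (dfn_tc.1 x (inM_zf.2 hx))

variable [hM : Model M] {P : ZFSet.{0}} {G : Set ZFSet.{0}}

/-- forcing membership -/
theorem exists_forces (hP : P ∈ M) (hG : IsGeneric M {x | x ∈ P} G) {τ : ZFSet.{0}} (hτ : τ ∈ M)
    {Z : ZFSet.{0}} (hZ : Z ∈ M) :
    ∃ E : ZFSet.{0} → ZFSet.{0} → Prop, Dfn M (fun p : ZFSet.{0} × ZFSet.{0} => E p.1 p.2) ∧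
      (∀ r z r', E r z → r ⊆ r' → r' ∈ P → E r' z) ∧
      ∀ z ∈ Z, (z ∈ val G τ ↔ ∃ r ∈ G, E r z) := by
  have hPi : InM M P := inM_zf.2 hP
  have hτi : InM M τ := inM_zf.2 hτ
  have hZ' := tc_mem hZ
  have hFT := dfn_FT hP hZ'
  have htruth := truth hP hZ' (tc_transitive Z) hG
  set E : ZFSet.{0} → ZFSet.{0} → Prop := fun r z =>
    BEx (fld τ) (fun η => BEx P (fun q => pair η q ∈ τ ∧ q ⊆ r ∧ pair r z ∈ FT P (tc Z) η)) with hE
  refine ⟨E, ?_, ?_, ?_⟩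
  · rw [hE]
    fun_prop (disch := assumption)
  · rintro r z r' ⟨η, hη, q, hq, h1, h2, h3⟩ hrr' hr'
    exact ⟨η, hη, q, hq, h1, fun x hx => hrr' (h2 hx), FT_mono h3 hrr' hr'⟩
  · have hτM' : ∀ η ∈ fld τ, η ∈ M := fun η hη =>
      trans_mem (inM_zf.1 ((dfn_fld (dfn_id (α := ZFSet.{0}))).1 τ hτi)) hη
    intro z hz
    constructor
    · intro h
      obtain ⟨η, q, hq, hηq, rfl⟩ := mem_val.1 h
      obtain ⟨p, hp, h1⟩ := (htruth η (hτM' η (left_mem_fld hηq)) _ (sub_tc Z hz)).1 rfl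
      obtain ⟨r, hr, h2, h3⟩ := hG.directed p hp q hq
      exact ⟨r, hr, η, left_mem_fld hηq, q, hG.subset hq, hηq, h3, FT_mono h1 h2 (hG.subset hr)⟩
    · rintro ⟨r, hr, η, hη, q, hq, h1, h2, h3⟩
      exact mem_val.2 ⟨η, q, hG.upward r hr q hq h2, h1,
        (htruth η (hτM' η hη) z (sub_tc Z hz)).2 ⟨r, hr, h3⟩⟩

/-- no new small sets -/
theorem no_new_gen (hP : P ∈ M) (hG : IsGeneric M {x | x ∈ P} G) {δ : ZFSet.{0}} (hδ : δ ∈ M)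
    (hdist : ∀ D ∈ M, (∀ n ∈ δ, ∀ s ∈ P, ∃ t ∈ P, s ⊆ t ∧ pair n t ∈ D) →
      (∀ n ∈ δ, ∀ s ∈ P, pair n s ∈ D → ∀ t ∈ P, s ⊆ t → pair n t ∈ D) →
      ∀ p ∈ P, ∃ r ∈ P, p ⊆ r ∧ ∀ n ∈ δ, pair n r ∈ D)
    {S : ZFSet.{0}} (hS : S ∈ M)
    {π : ZFSet.{0} → ZFSet.{0}} (hπ : Dfn M π) (hπδ : ∀ z ∈ S, π z ∈ δ)
    {τ : ZFSet.{0}} (hτ : τ ∈ M)
    (hinj : ∀ z ∈ S, ∀ z' ∈ S, z ∈ val G τ → z' ∈ val G τ → π z = π z' → z = z') :
    ZFSet.sep (fun z => z ∈ val G τ) S ∈ M := by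
  have hPi : InM M P := inM_zf.2 hP
  have hδi : InM M δ := inM_zf.2 hδ
  have hSi : InM M S := inM_zf.2 hS
  obtain ⟨E, hEd, hEmono, hE1⟩ := exists_forces hP hG hτ hS
  have hDd : Dfn M (fun P' : ZFSet.{0} => ZFSet.sep (fun w => BEx δ (fun β => BEx P' (fun r =>
      w = pair β r ∧ (BEx S (fun z => π z = β ∧ E r z) ∨
        BAll P' (fun r' => Imp (r ⊆ r') (BAll S (fun z => Imp (π z = β) (¬ E r' z)))))))) (prod δ P')) := by
    fun_prop (disch := assumption)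
  set D := ZFSet.sep (fun w => BEx δ (fun β => BEx P (fun r =>
      w = pair β r ∧ (BEx S (fun z => π z = β ∧ E r z) ∨
        BAll P (fun r' => Imp (r ⊆ r') (BAll S (fun z => Imp (π z = β) (¬ E r' z)))))))) (prod δ P)
    with hD
  have hDM : D ∈ M := inM_zf.1 (hDd.1 P hPi)
  have hmemD : ∀ β r, pair β r ∈ D ↔ β ∈ δ ∧ r ∈ P ∧ ((∃ z ∈ S, π z = β ∧ E r z) ∨
      ∀ r' ∈ P, r ⊆ r' → ∀ z ∈ S, π z = β → ¬ E r' z) := by
    intro β r
    rw [hD]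
    simp only [mem_sep, pair_mem_prod]
    constructor
    · rintro ⟨⟨h1, h2⟩, β', hβ', r', hr', h3, h4⟩
      obtain ⟨rfl, rfl⟩ := pair_inj.1 h3
      exact ⟨h1, h2, h4⟩
    · rintro ⟨h1, h2, h3⟩
      exact ⟨⟨h1, h2⟩, β, h1, r, h2, rfl, h3⟩
  have hD2 : Dfn M (fun P' : ZFSet.{0} => ZFSet.sep (fun r => BAll δ (fun β => pair β r ∈ D)) P') := by
    have : InM M D := inM_zf.2 hDM
    fun_prop (disch := assumption)
  obtain ⟨r, hr, hrD⟩ := hG.generic _ (inM_zf.1 (hD2.1 P hPi)) (fun q hq => (mem_sep.1 hq).1) (by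
    intro p hp
    obtain ⟨r, hr, h1, h2⟩ := hdist D hDM (by
      intro β hβ p hp
      by_cases h : ∃ r' ∈ P, p ⊆ r' ∧ ∃ z ∈ S, π z = β ∧ E r' z
      · obtain ⟨r', hr', h1, z, hz, h2, h3⟩ := h
        exact ⟨r', hr', h1, (hmemD β r').2 ⟨hβ, hr', Or.inl ⟨z, hz, h2, h3⟩⟩⟩
      · refine ⟨p, hp, subset_rfl, (hmemD β p).2 ⟨hβ, hp, Or.inr ?_⟩⟩
        intro r' hr' h1 z hz h2 h3
        exact h ⟨r', hr', h1, z, hz, h2, h3⟩) (by
      intro β hβ p hp h1 q hq hpq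
      obtain ⟨_, _, h2⟩ := (hmemD β p).1 h1
      refine (hmemD β q).2 ⟨hβ, hq, ?_⟩
      rcases h2 with ⟨z, hz, h3, h4⟩ | h2
      · exact Or.inl ⟨z, hz, h3, hEmono _ _ _ h4 hpq hq⟩
      · exact Or.inr fun r' hr' h3 => h2 r' hr' (fun x hx => h3 (hpq hx))) p hp
    exact ⟨r, mem_sep.2 ⟨hr, h2⟩, h1⟩)
  have hrD' : ∀ β ∈ δ, pair β r ∈ D := (mem_sep.1 hrD).2
  have hrP : r ∈ P := hG.subset hr
  have hfin : Dfn M (fun S' : ZFSet.{0} => ZFSet.sep (fun z => E r z) S') := by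
    have : InM M r := inM_zf.2 (trans_mem hP hrP)
    fun_prop (disch := assumption)
  have : ZFSet.sep (fun z => z ∈ val G τ) S = ZFSet.sep (fun z => E r z) S := by
    ext z
    simp only [mem_sep]
    refine and_congr_right fun hz => ?_
    constructor
    · intro hzv
      obtain ⟨_, _, h1⟩ := (hmemD _ _).1 (hrD' (π z) (hπδ z hz))
      rcases h1 with ⟨z', hz', h2, h3⟩ | h1
      · have h4 : z' ∈ val G τ := (hE1 z' hz').2 ⟨r, hr, h3⟩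
        rw [hinj z hz z' hz' hzv h4 h2.symm]
        exact h3
      · exfalso
        obtain ⟨r1, hr1, h2⟩ := (hE1 z hz).1 hzv
        obtain ⟨r2, hr2, h3, h4⟩ := hG.directed r hr r1 hr1
        exact h1 r2 (hG.subset hr2) h3 z hz rfl (hEmono _ _ _ h2 h4 (hG.subset hr2))
    · intro h
      exact (hE1 z hz).2 ⟨r, hr, h⟩
  rw [this]
  exact inM_zf.1 (hfin.1 S hSi)

omit hM in
/-- a condition in `G` without extensions in a set disjoint from `G` -/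
theorem exists_avoid (hG : IsGeneric M {x | x ∈ P} G) {D : ZFSet.{0} → Prop}
    (hD : ZFSet.sep (fun s => D s ∨ BAll P (fun t => Imp (s ⊆ t) (¬ D t))) P ∈ M)
    (h : ∀ s ∈ G, ¬ D s) : ∃ s ∈ G, ∀ t ∈ P, s ⊆ t → ¬ D t := by
  obtain ⟨s, hs, hsD⟩ := hG.generic _ hD (fun q hq => (mem_sep.1 hq).1) (by
    intro s hs
    by_cases h : ∃ t ∈ P, s ⊆ t ∧ D t
    · obtain ⟨t, ht, h1, h2⟩ := h
      exact ⟨t, mem_sep.2 ⟨ht, Or.inl h2⟩, h1⟩
    · refine ⟨s, mem_sep.2 ⟨hs, Or.inr fun t ht h1 h2 => h ⟨t, ht, h1, h2⟩⟩, subset_rfl⟩)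
  obtain ⟨_, h1 | h1⟩ := mem_sep.1 hsD
  · exact absurd h1 (h s hs)
  · exact ⟨s, hs, h1⟩

/-- names for relations -/
theorem exists_name (h0 : ∅ ∈ G) {R : ZFSet.{0}} (hR : R ∈ M) (hrel : IsRel R) :
    ∃ x ∈ Ext M G, ∀ z, z ∈ x ↔ ∃ s ∈ G, pair z s ∈ R := by
  have h1 : Dfn M check := dfn_check
  have h2 : Dfn M fstZ := dfn_fstZ
  have h3 : Dfn M sndZ := dfn_sndZ
  have h4 : Dfn M (fun R : ZFSet.{0} => img (fun w => pair (check (fstZ w)) (sndZ w)) R) := by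
    fun_prop
  refine ⟨_, ⟨_, inM_zf.1 (h4.1 R (inM_zf.2 hR)), rfl⟩, fun z => ?_⟩
  rw [mem_val]
  constructor
  · rintro ⟨σ, p, hp, h5, rfl⟩
    obtain ⟨w, hw, h6⟩ := mem_img.1 h5
    obtain ⟨a, b, rfl⟩ := hrel w hw
    rw [fstZ_pair, sndZ_pair, pair_inj] at h6
    obtain ⟨rfl, rfl⟩ := h6
    rw [val_check h0]
    exact ⟨b, hp, hw⟩
  · rintro ⟨s, hs, h5⟩
    refine ⟨check z, s, hs, ?_, val_check h0 z⟩
    exact mem_img.2 ⟨pair z s, h5, by rw [fstZ_pair, sndZ_pair]⟩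

omit hM in
theorem sub_ext [Model M] (h0 : ∅ ∈ G) : M ⊆ Ext M G := fun x hx =>
  ⟨check x, inM_zf.1 (dfn_check.1 x (inM_zf.2 hx)), val_check h0 x⟩

end Pool.Agent.Work.MP_0201f6_lc_helper21
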