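import Pool.Agent.Work.MP_0201f6_lc_helper21.MTree
import Pool.Agent.Work.MP_6efb98_lc.Main

/-!
Suslin trees in a transitive model: open dense sets contain all high nodes, distributivity.
-/

namespace Pool.Agent.Work.MP_0201f6_lc_helper21

open ZFSet Pool.Agent.Work.MP_6efb98_lc

variable {M : Set ZFSet.{0}} [hM : Model M] {κ S T C : ZFSet.{0}}

theorem ord_succ {γ : ZFSet.{0}} (h : γ.IsOrdinal) : (insert γ γ : ZFSet.{0}).IsOrdinal := by
  rw [isOrdinal_iff_forall_mem_isOrdinal]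
  constructor
  · intro x hx y hy
    rcases mem_insert_iff.1 hx with rfl | hx
    · exact mem_insert_of_mem _ hy
    · exact mem_insert_of_mem _ (h.mem_trans hy hx)
  · intro x hx
    rcases mem_insert_iff.1 hx with rfl | hx
    · exact h
    · exact h.mem hx

/-- `S` is a tree without unbounded antichains -/
structure SusD (M : Set ZFSet.{0}) (κ S : ZFSet.{0}) : Prop where
  reg : Reg M κ
  tree : TreeD M κ S
  anti : ∀ A ∈ M, A ⊆ S → (∀ s ∈ A, ∀ t ∈ A, s ⊆ t → s = t) → ∃ γ ∈ κ, ∀ s ∈ A, dom s ∈ γ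

namespace SusD

variable (hS : SusD M κ S)
include hS

/-- an open dense set contains all nodes above some level -/
theorem level {D : ZFSet.{0}} (hD : D ∈ M) (hDS : D ⊆ S)
    (hopen : ∀ s ∈ D, ∀ t ∈ S, s ⊆ t → t ∈ D) (hdense : ∀ s ∈ S, ∃ t ∈ D, s ⊆ t) :
    ∃ γ ∈ κ, ∀ s ∈ S, γ ⊆ dom s → s ∈ D := by
  have hA : Dfn M (fun D : ZFSet.{0} => ZFSet.sep (fun s => BAll D (fun t => Imp (t ⊆ s) (t = s))) D) := by
    fun_prop
  have hAM := inM_zf.1 (hA.1 D (by simpa using hD))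
  obtain ⟨γ, hγ, h1⟩ := hS.anti _ hAM (fun s hs => hDS (mem_sep.1 hs).1) (by
    intro s hs t ht hst
    exact (mem_sep.1 ht).2 s (mem_sep.1 hs).1 hst)
  refine ⟨γ, hγ, fun s hs hγs => ?_⟩
  obtain ⟨t, ht, hst⟩ := hdense s hs
  -- the minimal node of `D` below `t`
  obtain ⟨a, ⟨haD, hat⟩, hamin⟩ := (InvImage.wf dom mem_wf).has_min {a | a ∈ D ∧ a ⊆ t}
    ⟨t, ht, subset_rfl⟩
  have hκo := hS.reg.ord
  have hT := hS.tree
  have ha : a ∈ ZFSet.sep (fun s => BAll D (fun t => Imp (t ⊆ s) (t = s))) D := by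
    refine mem_sep.2 ⟨haD, fun u hu hua => ?_⟩
    have h2 := hamin u ⟨hu, fun x hx => hat (hua hx)⟩
    have h3 : dom a ⊆ dom u :=
      ((hT.dom_ord hκo (hDS hu)).notMem_iff_subset (hT.dom_ord hκo (hDS haD))).1 h2
    exact eq_of_sub (hT.func a (hDS haD)).2.1 (hT.func a (hDS haD)).2.2.1 hua h3
  have h4 : dom a ∈ γ := h1 a ha
  have h5 : a ⊆ s := comp_sub (hT.func a (hDS haD)).2.1 (hT.func t (hDS ht)).2.2.1 hat hst
    ((hT.dom_ord hκo hs).subset_of_mem (hγs h4))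
  exact hopen a haD s hs h5

/-- countably many open dense sets contain all nodes above some level -/
theorem level_seq {D : ZFSet.{0}} (hD : D ∈ M)
    (hopen : ∀ n ∈ omega, ∀ s ∈ S, pair n s ∈ D → ∀ t ∈ S, s ⊆ t → pair n t ∈ D)
    (hdense : ∀ n ∈ omega, ∀ s ∈ S, ∃ t ∈ S, s ⊆ t ∧ pair n t ∈ D) :
    ∃ γ ∈ κ, ∀ n ∈ omega, ∀ s ∈ S, γ ⊆ dom s → pair n s ∈ D := by
  have hκi : InM M κ := inM_zf.2 hS.reg.mem
  have hSi : InM M S := inM_zf.2 hS.tree.mem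
  have hDi : InM M D := inM_zf.2 hD
  set F : ZFSet.{0} → ZFSet.{0} := fun n => (⋂₀ (ZFSet.sep (fun δ => BAll S (fun s =>
    Imp (δ ⊆ dom s) (pair n s ∈ D))) κ) : ZFSet) with hF
  have hFd : Dfn M F := by
    rw [hF]
    fun_prop (disch := assumption)
  have hg : Dfn M (fun x : ZFSet.{0} => graph F x) := by
    fun_prop (disch := assumption)
  have hgM : graph F omega ∈ M := inM_zf.1 (hg.1 omega (inM_zf.2 omega_mem))
  have hDn : Dfn M (fun n : ZFSet.{0} => ZFSet.sep (fun s => pair n s ∈ D) S) := by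
    fun_prop (disch := assumption)
  have key : ∀ n ∈ omega, F n ∈ κ ∧ ∀ s ∈ S, F n ⊆ dom s → pair n s ∈ D := by
    intro n hn
    have hnM := trans_mem (omega_mem (M := M)) hn
    obtain ⟨γ, hγ, h1⟩ := hS.level (inM_zf.1 (hDn.1 n (inM_zf.2 hnM))) sep_subset (by
      intro s hs t ht hst
      obtain ⟨h2, h3⟩ := mem_sep.1 hs
      exact mem_sep.2 ⟨ht, hopen n hn s h2 h3 t ht hst⟩) (by
      intro s hs
      obtain ⟨t, ht, h2, h3⟩ := hdense n hn s hs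
      exact ⟨t, mem_sep.2 ⟨ht, h3⟩, h2⟩)
    have h2 := (sInter_mem_of_ordinals (X := ZFSet.sep (fun δ => BAll S (fun s =>
      Imp (δ ⊆ dom s) (pair n s ∈ D))) κ) ⟨γ, mem_sep.2 ⟨hγ, fun s hs h3 =>
        (mem_sep.1 (h1 s hs h3)).2⟩⟩ (fun x hx => hS.reg.ord.mem (mem_sep.1 hx).1)).1
    exact mem_sep.1 h2
  obtain ⟨β, hβ, h1⟩ := hS.reg.bdd omega hS.reg.omega_mem _ hgM sv_graph (by
    rw [dom_graph]) (by
    intro y hy
    obtain ⟨n, hn⟩ := mem_ran.1 hy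
    obtain ⟨h5, rfl⟩ := mem_graph.1 hn
    exact (key n h5).1)
  refine ⟨β, hβ, fun n hn s hs hβs => (key n hn).2 s hs fun x hx => hβs ?_⟩
  exact (hS.reg.ord.mem hβ).mem_trans hx (h1 (mem_ran.2 ⟨n, mem_graph.2 ⟨hn, rfl⟩⟩))

/-- `S` is `ω`-distributive -/
theorem dist {D : ZFSet.{0}} (hD : D ∈ M)
    (hdense : ∀ n ∈ omega, ∀ s ∈ S, ∃ t ∈ S, s ⊆ t ∧ pair n t ∈ D)
    (hopen : ∀ n ∈ omega, ∀ s ∈ S, pair n s ∈ D → ∀ t ∈ S, s ⊆ t → pair n t ∈ D)
    {p : ZFSet.{0}} (hp : p ∈ S) : ∃ r ∈ S, p ⊆ r ∧ ∀ n ∈ omega, pair n r ∈ D := by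
  obtain ⟨γ, hγ, h1⟩ := hS.level_seq hD hopen hdense
  obtain ⟨r, hr, h2, h3⟩ := hS.tree.exists_ext hS.reg hp hγ
  exact ⟨r, hr, h2, fun n hn => h1 n hn r hr h3⟩

/-- antichains are countable -/
theorem ctbl_of_bdd {A : ZFSet.{0}} (hA : A ∈ M) (hAS : A ⊆ S) {γ : ZFSet.{0}} (hγ : γ ∈ κ)
    (h : ∀ s ∈ A, dom s ∈ γ) : Ctbl M A :=
  (hS.tree.ctbl γ hγ).subset hA fun s hs => mem_sep.2 ⟨hAS hs, h s hs⟩

/-- chains are bounded -/
theorem chain {A : ZFSet.{0}} (hA : A ∈ M) (hAS : A ⊆ S)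
    (hc : ∀ s ∈ A, ∀ t ∈ A, s ⊆ t ∨ t ⊆ s) : ∃ γ ∈ κ, ∀ s ∈ A, dom s ∈ γ := by
  have hκi : InM M κ := inM_zf.2 hS.reg.mem
  have hSi : InM M S := inM_zf.2 hS.tree.mem
  have hT := hS.tree
  have hκo := hS.reg.ord
  by_contra hcon
  push Not at hcon
  have hB : Dfn M (fun A : ZFSet.{0} => ZFSet.sep (fun s => BEx (dom s) (fun ξ =>
      dom s = insert ξ ξ ∧ BEx A (fun a => ξ ∈ dom a ∧ restr s ξ ⊆ a ∧ ¬ s ⊆ a))) S) := by
    fun_prop (disch := assumption)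
  have hBM := inM_zf.1 (hB.1 A (inM_zf.2 hA))
  obtain ⟨γ, hγ, h1⟩ := hS.anti _ hBM sep_subset (by
    intro s hs t ht hst
    obtain ⟨hsS, ξ, hξ, h2, a, ha, h3, h4, h5⟩ := mem_sep.1 hs
    obtain ⟨htS, η, hη, h6, b, hb, h7, h8, h9⟩ := mem_sep.1 ht
    obtain ⟨_, hs1, hs2, _⟩ := hT.func s hsS
    obtain ⟨_, ht1, ht2, _⟩ := hT.func t htS
    by_contra hne
    -- `s` is a proper initial segment of `t`
    have h10 : dom s ∈ dom t := by
      rcases (hT.dom_ord hκo hsS).mem_trichotomous (hT.dom_ord hκo htS) with h | h | h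
      · exact h
      · exact absurd (eq_of_sub ht1 ht2 hst (by rw [h])) hne
      · exact absurd (dom_mono hst h) (mem_irrefl _)
    have h11 : dom s ⊆ η := by
      rw [h6, mem_insert_iff] at h10
      rcases h10 with h10 | h10
      · rw [h10]
      · exact ((hT.dom_ord hκo htS).mem hη).subset_of_mem h10
    have h12 : s ⊆ b := by
      intro z hz
      obtain ⟨x, y, rfl⟩ := hs1 z hz
      exact h8 (pair_mem_restr.2 ⟨hst hz, h11 (mem_dom.2 ⟨y, hz⟩)⟩)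
    rcases hc a ha b hb with h13 | h13
    · apply h5
      refine comp_sub hs1 (hT.func b (hAS hb)).2.2.1 h12 h13 ?_
      rw [h2]
      intro x hx
      rcases mem_insert_iff.1 hx with rfl | hx
      · exact h3
      · exact (hT.dom_ord hκo (hAS ha)).mem_trans hx h3
    · exact h5 fun z hz => h13 (h12 hz))
  -- a node above `γ`
  obtain ⟨a, ha, h2⟩ := hcon _ hγ
  have haS := hAS ha
  have hao := hT.dom_ord hκo haS
  obtain ⟨γ', hγ', h3⟩ := hS.reg.succ_mem hγ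
  obtain ⟨a', ha', h2'⟩ := hcon _ hγ'
  have ha'o := hT.dom_ord hκo (hAS ha')
  have h4 : γ ∈ dom a' := by
    have : γ' ⊆ dom a' := (ha'o.notMem_iff_subset (hκo.mem hγ')).1 h2'
    exact this h3
  -- the value of `a'` at `γ`
  obtain ⟨n, hn⟩ := mem_dom.1 h4
  obtain ⟨m, hm, hmn⟩ : ∃ m ∈ omega, m ≠ n := by
    by_cases h : n = ∅
    · refine ⟨insert ∅ ∅, omega_succ omega_zero, ?_⟩
      rw [h]
      intro h5
      have : (∅ : ZFSet.{0}) ∈ (insert ∅ ∅ : ZFSet.{0}) := mem_insert_iff.2 (Or.inl rfl)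
      rw [h5] at this
      exact notMem_empty _ this
    · exact ⟨∅, omega_zero, fun h' => h h'.symm⟩
  have hr := hT.restr a' (hAS ha') γ h4
  have hdr : dom (restr a' γ) = γ := dom_restr (ha'o.subset_of_mem h4)
  have hsγ : insert γ γ ∈ κ := by
    have : insert γ γ ⊆ γ' := by
      intro x hx
      rcases mem_insert_iff.1 hx with rfl | hx
      · exact h3
      · exact (hκo.mem hγ').mem_trans hx h3
    rcases (ord_succ (hκo.mem hγ)).mem_trichotomous (hκo.mem hγ') with h | h | h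
    · exact hκo.mem_trans h hγ'
    · rw [h]
      exact hγ'
    · exact absurd (this h) (mem_irrefl _)
  obtain ⟨t, ht, h5, h6, h7⟩ := hT.ext _ hr _ hsγ (by
    rw [hdr]
    exact mem_insert_iff.2 (Or.inl rfl)) m hm
  rw [hdr] at h7
  have htB : t ∈ ZFSet.sep (fun s => BEx (dom s) (fun ξ =>
      dom s = insert ξ ξ ∧ BEx A (fun a => ξ ∈ dom a ∧ restr s ξ ⊆ a ∧ ¬ s ⊆ a))) S := by
    refine mem_sep.2 ⟨ht, γ, mem_dom.2 ⟨m, h7⟩, h6, a', ha', h4, ?_, ?_⟩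
    · have h8 : restr t γ = restr a' γ := by
        conv_lhs => rw [← hdr]
        exact restr_of_sub isRel_restr (hT.func t ht).2.2.1 h5
      rw [h8]
      exact restr_subset
    · intro h8
      exact hmn ((hT.func a' (hAS ha')).2.2.1 _ _ _ (h8 h7) hn)
  have h9 := h1 t htB
  rw [h6] at h9
  exact mem_asymm h9 (mem_insert_iff.2 (Or.inl rfl))

/-- `S` is a Suslin tree in `M` -/
theorem isSuslin : IsSuslin M κ S where
  tree := hS.tree.isTree hS.tree.mem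
  chain A hA hAS hc := by
    obtain ⟨γ, hγ, h1⟩ := hS.chain hA hAS hc
    exact hS.ctbl_of_bdd hA hAS hγ h1
  antichain A hA hAS hc := by
    obtain ⟨γ, hγ, h1⟩ := hS.anti A hA hAS (fun s hs t ht hst => by
      by_contra hne
      exact hc s hs t ht hne hst)
    exact hS.ctbl_of_bdd hA hAS hγ h1

end SusD

end Pool.Agent.Work.MP_0201f6_lc_helper21
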