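import Pool.Agent.Work.MP_0201f6_lc_helper21.Defs
import Pool.Agent.Work.MP_6efb98_lc.Neg2

/-!
Trees of functions, in a transitive model.
-/

namespace Pool.Agent.Work.MP_0201f6_lc_helper21

open ZFSet Pool.Agent.Work.MP_6efb98_lc

theorem rs_eq (f d : ZFSet.{0}) : rs f d = restr f d := by
  ext z
  simp only [rs, restr, mem_sep, BEx]
  constructor
  · rintro ⟨hz, x, hx, y, rfl⟩
    exact ⟨hz, x, hx, y, right_mem_fld hz, rfl⟩
  · rintro ⟨hz, x, hx, y, _, h⟩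
    exact ⟨hz, x, hx, y, h⟩

theorem dom_mono {f g : ZFSet.{0}} (h : f ⊆ g) : dom f ⊆ dom g := by
  intro x hx
  obtain ⟨y, hy⟩ := mem_dom.1 hx
  exact mem_dom.2 ⟨y, h hy⟩

theorem dom_restr {f d : ZFSet.{0}} (h : d ⊆ dom f) : dom (restr f d) = d := by
  ext x
  rw [mem_dom]
  constructor
  · rintro ⟨y, hy⟩
    exact (pair_mem_restr.1 hy).2
  · intro hx
    obtain ⟨y, hy⟩ := mem_dom.1 (h hx)
    exact ⟨y, pair_mem_restr.2 ⟨hy, hx⟩⟩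

theorem comp_sub {s s' u : ZFSet.{0}} (hs : IsRel s) (hu : Sv u) (h : s ⊆ u) (h' : s' ⊆ u)
    (hd : dom s ⊆ dom s') : s ⊆ s' := by
  intro z hz
  obtain ⟨x, y, rfl⟩ := hs z hz
  obtain ⟨y', hy'⟩ := mem_dom.1 (hd (mem_dom.2 ⟨y, hz⟩))
  rw [hu _ _ _ (h hz) (h' hy')]
  exact hy'

theorem restr_of_sub {s u : ZFSet.{0}} (hs : IsRel s) (hu : Sv u) (h : s ⊆ u) :
    restr u (dom s) = s := by
  refine isRel_restr.ext hs fun x y => ?_
  rw [pair_mem_restr]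
  constructor
  · rintro ⟨h1, h2⟩
    obtain ⟨y', hy'⟩ := mem_dom.1 h2
    rw [hu _ _ _ h1 (h hy')]
    exact hy'
  · intro h1
    exact ⟨h h1, mem_dom.2 ⟨y, h1⟩⟩

theorem eq_of_sub {s u : ZFSet.{0}} (hu' : IsRel u) (hu : Sv u) (h : s ⊆ u)
    (hd : dom u ⊆ dom s) : s = u :=
  subset_antisymm h (comp_sub hu' hu subset_rfl h hd)

theorem restr_restr {f d e : ZFSet.{0}} (h : e ⊆ d) : restr (restr f d) e = restr f e := by
  refine isRel_restr.ext isRel_restr fun x y => ?_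
  rw [pair_mem_restr, pair_mem_restr, pair_mem_restr]
  exact ⟨fun h1 => ⟨h1.1.1, h1.2⟩, fun h1 => ⟨⟨h1.1, h h1.2⟩, h1.2⟩⟩

theorem restr_mono {f g d : ZFSet.{0}} (h : f ⊆ g) : restr f d ⊆ restr g d := by
  intro z hz
  obtain ⟨x, y, rfl⟩ := isRel_restr z hz
  rw [pair_mem_restr] at hz ⊢
  exact ⟨h hz.1, hz.2⟩

theorem sv_sub {f g : ZFSet.{0}} (hg : Sv g) (h : f ⊆ g) : Sv f :=
  fun _ _ _ h1 h2 => hg _ _ _ (h h1) (h h2)

theorem restr_sub_mono {f d e : ZFSet.{0}} (h : d ⊆ e) : restr f d ⊆ restr f e := by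
  intro z hz
  obtain ⟨x, y, rfl⟩ := isRel_restr z hz
  rw [pair_mem_restr] at hz ⊢
  exact ⟨hz.1, h hz.2⟩

/-! ### Countability -/

section ctbl

variable {M : Set ZFSet.{0}} [hM : Model M]

omit hM in
theorem Ctbl.mono {N N' : Set ZFSet.{0}} (h : N ⊆ N') {x : ZFSet.{0}} (hx : Ctbl N x) :
    Ctbl N' x := by
  obtain ⟨f, hf, d, hd, h1, h2⟩ := hx
  exact ⟨f, h hf, d, hd, h1, h2⟩

omit hM in
theorem ctbl_of {f x : ZFSet.{0}} (hf : f ∈ M) (h1 : IsRel f) (h2 : Sv f) (h3 : dom f ⊆ omega)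
    (h4 : ran f = x) : Ctbl M x := by
  refine ⟨f, hf, dom f, h3, ?_, ?_⟩
  · rw [isFunc_iff']
    exact ⟨h1, h2, rfl, by rw [h4]⟩
  · intro y hy
    rw [← h4] at hy
    exact mem_ran.1 hy

theorem Ctbl.subset {x y : ZFSet.{0}} (hx : Ctbl M x) (hy : y ∈ M) (h : y ⊆ x) : Ctbl M y := by
  obtain ⟨f, hf, d, hd, h1, h2⟩ := hx
  obtain ⟨h3, h4, h5, h6⟩ := isFunc_iff'.1 h1
  have hD : Dfn M (fun q : ZFSet.{0} × ZFSet.{0} => ZFSet.sep (fun z =>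
      BEx (fld q.1) (fun n => BEx q.2 (fun y => z = pair n y))) q.1) := by
    fun_prop
  have hDM := inM_zf.1 (hD.1 (f, y) (by simp [hf, hy]))
  have hm : ∀ n z, pair n z ∈ ZFSet.sep (fun z => BEx (fld f) (fun n =>
      BEx y (fun w => z = pair n w))) f ↔ pair n z ∈ f ∧ z ∈ y := by
    intro n z
    simp only [mem_sep, BEx, pair_inj]
    constructor
    · rintro ⟨h7, n', _, z', hz', rfl, rfl⟩
      exact ⟨h7, hz'⟩
    · rintro ⟨h7, h8⟩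
      exact ⟨h7, n, left_mem_fld h7, z, h8, rfl, rfl⟩
  refine ctbl_of hDM ?_ (sv_sub h4 sep_subset) ?_ ?_
  · intro z hz
    exact h3 z (sep_subset hz)
  · intro n hn
    exact hd (h5 ▸ dom_mono sep_subset hn)
  · ext z
    rw [mem_ran]
    constructor
    · rintro ⟨n, hn⟩
      exact ((hm n z).1 hn).2
    · intro hz
      obtain ⟨n, hn⟩ := h2 z (h hz)
      exact ⟨n, (hm n z).2 ⟨hn, hz⟩⟩

theorem Ctbl.img {x : ZFSet.{0}} (hx : Ctbl M x) {F : ZFSet.{0} → ZFSet.{0}} (hF : Dfn M F) :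
    Ctbl M (img F x) := by
  obtain ⟨f, hf, d, hd, h1, h2⟩ := hx
  obtain ⟨h3, h4, h5, h6⟩ := isFunc_iff'.1 h1
  have hD : Dfn M (fun f : ZFSet.{0} => graph (fun n => F (app f n)) (dom f)) := by
    fun_prop
  have hDM := inM_zf.1 (hD.1 f (by simpa using hf))
  refine ctbl_of hDM isRel_graph sv_graph ?_ ?_
  · rw [dom_graph, h5]
    exact hd
  · ext z
    rw [mem_ran, mem_img]
    constructor
    · rintro ⟨n, hn⟩
      obtain ⟨h7, rfl⟩ := mem_graph.1 hn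
      obtain ⟨y, hy⟩ := mem_dom.1 h7
      rw [h4.app_eq hy]
      exact ⟨y, h6 (mem_ran.2 ⟨n, hy⟩), rfl⟩
    · rintro ⟨y, hy, rfl⟩
      obtain ⟨n, hn⟩ := h2 y hy
      refine ⟨n, mem_graph.2 ⟨mem_dom.2 ⟨y, hn⟩, ?_⟩⟩
      rw [h4.app_eq hn]

omit hM in
theorem not_ctbl {κ : ZFSet.{0}} (hκ : Reg M κ) : ¬ Ctbl M κ := by
  rintro ⟨f, hf, d, hd, h1, h2⟩
  obtain ⟨h3, h4, h5, h6⟩ := isFunc_iff'.1 h1
  obtain ⟨β, hβ, h7⟩ := hκ.bdd omega hκ.omega_mem f hf h4 (by rw [h5]; exact hd) h6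
  obtain ⟨n, hn⟩ := h2 β hβ
  exact mem_irrefl _ (h7 (mem_ran.2 ⟨n, hn⟩))

end ctbl

/-! ### Trees -/

/-- trees in `M` -/
structure TreeD (M : Set ZFSet.{0}) (κ T : ZFSet.{0}) : Prop where
  mem : T ∈ M
  func : ∀ t ∈ T, dom t ∈ κ ∧ IsRel t ∧ Sv t ∧ ran t ⊆ omega
  root : ∅ ∈ T
  restr : ∀ t ∈ T, ∀ ξ ∈ dom t, restr t ξ ∈ T
  ext : ∀ t ∈ T, ∀ β ∈ κ, dom t ∈ β → ∀ n ∈ omega, ∃ t' ∈ T, t ⊆ t' ∧ dom t' = β ∧
    pair (dom t) n ∈ t'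
  ctbl : ∀ δ ∈ κ, Ctbl M (ZFSet.sep (fun t => dom t ∈ δ) T)

theorem isFunc_dom {t α : ZFSet.{0}} (h : IsFunc α omega t) : dom t = α := (isFunc_iff'.1 h).2.2.1

namespace TreeD

variable {M : Set ZFSet.{0}} [hM : Model M] {κ T : ZFSet.{0}} (hT : TreeD M κ T)
include hT

omit hM in
theorem isFunc {t : ZFSet.{0}} (ht : t ∈ T) : IsFunc (dom t) omega t := by
  obtain ⟨_, h1, h2, h3⟩ := hT.func t ht
  exact isFunc_iff'.2 ⟨h1, h2, rfl, h3⟩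

omit hM in
theorem isTree {N : Set ZFSet.{0}} (hTN : T ∈ N) : IsTree N κ T where
  mem := hTN
  func t ht := ⟨dom t, (hT.func t ht).1, hT.isFunc ht⟩
  root := hT.root
  restr t ht α hα ξ hξ := by
    rw [rs_eq]
    rw [← isFunc_dom hα] at hξ
    exact hT.restr t ht ξ hξ
  extend t ht α hα β hβ hαβ := by
    rw [← isFunc_dom hα] at hαβ
    obtain ⟨t', ht', h1, h2, _⟩ := hT.ext t ht β hβ hαβ ∅ omega_zero
    exact ⟨t', ht', h1, h2 ▸ hT.isFunc ht'⟩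

omit hM in
theorem dom_ord (hκ : κ.IsOrdinal) {t : ZFSet.{0}} (ht : t ∈ T) : (dom t).IsOrdinal :=
  hκ.mem (hT.func t ht).1

omit hM in
/-- two nodes below a common node are comparable -/
theorem comparable (hκ : κ.IsOrdinal) {s t u : ZFSet.{0}} (hs : s ∈ T) (ht : t ∈ T) (hu : u ∈ T)
    (h : s ⊆ u) (h' : t ⊆ u) : s ⊆ t ∨ t ⊆ s := by
  rcases (hT.dom_ord hκ hs).subset_total (hT.dom_ord hκ ht) with h1 | h1
  · exact Or.inl (comp_sub (hT.func s hs).2.1 (hT.func u hu).2.2.1 h h' h1)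
  · exact Or.inr (comp_sub (hT.func t ht).2.1 (hT.func u hu).2.2.1 h' h h1)

/-- extension to a level -/
theorem exists_ext (hκ : Reg M κ) {t : ZFSet.{0}} (ht : t ∈ T) {β : ZFSet.{0}} (hβ : β ∈ κ) :
    ∃ t' ∈ T, t ⊆ t' ∧ β ⊆ dom t' := by
  obtain ⟨γ, hγ, h1, h2⟩ := max_mem (hκ := hκ.ord) hβ (hT.func t ht).1
  obtain ⟨δ, hδ, h3⟩ := hκ.succ_mem hγ
  have hδo := hκ.ord.mem hδ
  have h4 : dom t ∈ δ := by
    rcases (hT.dom_ord hκ.ord ht).mem_trichotomous hδo with h | h | h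
    · exact h
    · rw [h] at h2
      exact absurd (h2 h3) (mem_irrefl _)
    · exact absurd h3 (mem_asymm (h2 h))
  obtain ⟨t', ht', h5, h6, _⟩ := hT.ext t ht δ hδ h4 ∅ omega_zero
  refine ⟨t', ht', h5, ?_⟩
  rw [h6]
  exact fun x hx => hδo.mem_trans (h1 hx) h3

end TreeD

end Pool.Agent.Work.MP_0201f6_lc_helper21
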