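import Pool.Agent.Work.MP_0201f6_lc_helper21.ExtS

/-!
Uniformizations in the extension by a Suslin tree.
-/

namespace Pool.Agent.Work.MP_0201f6_lc_helper21

open ZFSet Pool.Agent.Work.MP_6efb98_lc

/-- the uniformization principle in `M`, for names of colourings coded by `Y` -/
def UnifD (M : Set ZFSet.{0}) (κ S T C : ZFSet.{0}) : Prop :=
  ∀ Y ∈ M, ∃ K ∈ M, ∃ Φ ∈ M,
    (∀ s ∈ S, ∃ s' ∈ S, s ⊆ s' ∧ ∃ t ∈ T, pair s' t ∈ K) ∧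
    (∀ s ∈ S, ∀ t ∈ T, pair s t ∈ K → ∀ s' ∈ S, s ⊆ s' → ∀ γ ∈ κ,
      ∃ s'' ∈ S, s' ⊆ s'' ∧ ∃ t'' ∈ T, t ⊆ t'' ∧ γ ⊆ dom t'' ∧ pair s'' t'' ∈ K) ∧
    (∀ s ∈ S, ∀ t ∈ T, pair s t ∈ K → ∀ β ∈ dom t, IsLim β → pair s (restr t β) ∈ K) ∧
    (∀ s ∈ S, ∀ t ∈ T, pair s t ∈ K → IsLim (dom t) → ∃ β ∈ dom t, ∀ ξ ∈ dom t,
      pair (dom t) ξ ∈ C → β ⊆ ξ → ∃ s' ∈ S, s' ⊆ s ∧
        ((pair s' (pair (restr t ξ) {∅}) ∈ Φ ∧
          ∀ s₁ ∈ S, s ⊆ s₁ → ∃ s₂ ∈ S, s₁ ⊆ s₂ ∧ pair s₂ (pair (dom t) ξ) ∈ Y) ∨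
        (pair s' (pair (restr t ξ) ∅) ∈ Φ ∧
          ∀ s₁ ∈ S, s ⊆ s₁ → pair s₁ (pair (dom t) ξ) ∉ Y))) ∧
    (∀ s ∈ S, ∀ s' ∈ S, ∀ t ∈ T, pair s (pair t {∅}) ∈ Φ → pair s' (pair t ∅) ∈ Φ →
      ¬ (s ⊆ s' ∨ s' ⊆ s))

variable {M : Set ZFSet.{0}} [hM : Model M] {κ S T C : ZFSet.{0}} {G : Set ZFSet.{0}}

theorem uniformizes_ext (hS : SusD M κ S) (hT : TreeD M κ T) (hC : IsLadder M κ C)
    (hU : UnifD M κ S T C) (hG : IsGeneric M {x | x ∈ S} G) {f : ZFSet.{0}} (hf : f ∈ Ext M G)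
    (hfC : IsFunc C {∅, {∅}} f) : ∃ φ, Uniformizes (Ext M G) κ T C f φ := by
  obtain ⟨τ, hτ, rfl⟩ := hf
  obtain ⟨hf1, hf2, hf3, hf4⟩ := isFunc_iff'.1 hfC
  have h0G := empty_mem_G hS.tree hG
  have hSi : InM M S := inM_zf.2 hS.tree.mem
  have hTi : InM M T := inM_zf.2 hT.mem
  have hκi : InM M κ := inM_zf.2 hS.reg.mem
  have hCi : InM M C := inM_zf.2 hC.mem
  have hκo := hS.reg.ord
  have hone : InM M ({∅} : ZFSet.{0}) := inM_zf.2 (singleton_mem empty_mem)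
  have hzero : InM M (∅ : ZFSet.{0}) := inM_empty
  -- the set of possible members of the colouring
  have hZ : Dfn M (fun C : ZFSet.{0} => prod C {∅, {∅}}) := by
    fun_prop (disch := assumption)
  obtain ⟨E, hEd, hEmono, hE⟩ := exists_forces hS.tree.mem hG hτ (inM_zf.1 (hZ.1 C hCi))
  have hY : Dfn M (fun P : ZFSet.{0} => ZFSet.sep (fun w => BEx P (fun s => BEx C (fun z =>
      w = pair s z ∧ E s (pair z {∅})))) (prod P C)) := by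
    fun_prop (disch := assumption)
  set Y := ZFSet.sep (fun w => BEx S (fun s => BEx C (fun z =>
      w = pair s z ∧ E s (pair z {∅})))) (prod S C) with hYdef
  have hYM : Y ∈ M := inM_zf.1 (hY.1 S hSi)
  have hYm : ∀ s z, pair s z ∈ Y ↔ s ∈ S ∧ z ∈ C ∧ E s (pair z {∅}) := by
    intro s z
    rw [hYdef]
    simp only [mem_sep, pair_mem_prod]
    constructor
    · rintro ⟨⟨h5, h6⟩, s', _, z', _, h7, h8⟩
      obtain ⟨rfl, rfl⟩ := pair_inj.1 h7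
      exact ⟨h5, h6, h8⟩
    · rintro ⟨h5, h6, h7⟩
      exact ⟨⟨h5, h6⟩, s, h5, z, h6, rfl, h7⟩
  obtain ⟨K, hK, Φ, hΦ, k2, k3, k4, k5, k6⟩ := hU Y hYM
  have hKi : InM M K := inM_zf.2 hK
  have hΦi : InM M Φ := inM_zf.2 hΦ
  -- the name of the uniformization
  set D0 : ZFSet.{0} → ZFSet.{0} → Prop := fun s t => BEx S (fun s' => s' ⊆ s ∧
    BEx T (fun t' => t ⊆ t' ∧ pair s' t' ∈ K)) with hD0
  set P1 : ZFSet.{0} → ZFSet.{0} → Prop := fun s t => BEx S (fun s' => s' ⊆ s ∧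
    pair s' (pair t {∅}) ∈ Φ) with hP1
  set P0 : ZFSet.{0} → ZFSet.{0} → Prop := fun s t => BAll S (fun s' => Imp (s' ⊆ s ∨ s ⊆ s')
    (¬ pair s' (pair t {∅}) ∈ Φ)) with hP0
  have hR : Dfn M (fun P : ZFSet.{0} => ZFSet.sep (fun w => BEx P (fun s => BEx T (fun t =>
      (w = pair (pair t {∅}) s ∧ D0 s t ∧ P1 s t) ∨ (w = pair (pair t ∅) s ∧ D0 s t ∧ P0 s t))))
      (prod (prod T {∅, {∅}}) P)) := by
    rw [hD0, hP1, hP0]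
    fun_prop (disch := assumption)
  set R := ZFSet.sep (fun w => BEx S (fun s => BEx T (fun t =>
      (w = pair (pair t {∅}) s ∧ D0 s t ∧ P1 s t) ∨ (w = pair (pair t ∅) s ∧ D0 s t ∧ P0 s t))))
      (prod (prod T {∅, {∅}}) S) with hRdef
  have hRM : R ∈ M := inM_zf.1 (hR.1 S hSi)
  have hRm1 : ∀ s t, pair (pair t {∅}) s ∈ R ↔ s ∈ S ∧ t ∈ T ∧ D0 s t ∧ P1 s t := by
    intro s t
    rw [hRdef]
    simp only [mem_sep, pair_mem_prod, mem_pair]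
    constructor
    · rintro ⟨⟨⟨h5, _⟩, h6⟩, s', _, t', _, ⟨h7, h8⟩ | ⟨h7, h8⟩⟩
      · obtain ⟨h9, rfl⟩ := pair_inj.1 h7
        obtain ⟨rfl, _⟩ := pair_inj.1 h9
        exact ⟨h6, h5, h8⟩
      · obtain ⟨h9, rfl⟩ := pair_inj.1 h7
        exact absurd (pair_inj.1 h9).2 empty_ne
    · rintro ⟨h5, h6, h7⟩
      exact ⟨⟨⟨h6, Or.inr trivial⟩, h5⟩, s, h5, t, h6, Or.inl ⟨rfl, h7⟩⟩
  have hRm0 : ∀ s t, pair (pair t ∅) s ∈ R ↔ s ∈ S ∧ t ∈ T ∧ D0 s t ∧ P0 s t := by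
    intro s t
    rw [hRdef]
    simp only [mem_sep, pair_mem_prod, mem_pair]
    constructor
    · rintro ⟨⟨⟨h5, _⟩, h6⟩, s', _, t', _, ⟨h7, h8⟩ | ⟨h7, h8⟩⟩
      · obtain ⟨h9, rfl⟩ := pair_inj.1 h7
        exact absurd (pair_inj.1 h9).2.symm empty_ne
      · obtain ⟨h9, rfl⟩ := pair_inj.1 h7
        obtain ⟨rfl, _⟩ := pair_inj.1 h9
        exact ⟨h6, h5, h8⟩
    · rintro ⟨h5, h6, h7⟩
      exact ⟨⟨⟨h6, Or.inl trivial⟩, h5⟩, s, h5, t, h6, Or.inr ⟨rfl, h7⟩⟩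
  have hRrel : IsRel R := by
    intro w hw
    obtain ⟨_, s, _, t, _, ⟨h7, _⟩ | ⟨h7, _⟩⟩ := mem_sep.1 hw
    · exact ⟨_, _, h7⟩
    · exact ⟨_, _, h7⟩
  obtain ⟨φ, hφE, hφ⟩ := exists_name h0G hRM hRrel
  -- the domain
  set Db : ZFSet.{0} := ZFSet.sep (fun t => ∃ s ∈ G, D0 s t) T with hDb
  have hGS : ∀ s ∈ G, s ∈ S := fun s hs => hG.subset hs
  -- the nodes decided by `K`
  have hKb : ∀ t ∈ Db, ∃ s ∈ G, ∃ t' ∈ T, t ⊆ t' ∧ pair s t' ∈ K := by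
    intro t ht
    obtain ⟨_, s, hs, s', hs', h1, t', ht', h2, h3⟩ := mem_sep.1 ht
    exact ⟨s', hG.upward s hs s' hs' h1, t', ht', h2, h3⟩
  have hDbK : ∀ t ∈ T, ∀ s ∈ G, ∀ t' ∈ T, t ⊆ t' → pair s t' ∈ K → t ∈ Db := by
    intro t ht s hs t' ht' h1 h2
    exact mem_sep.2 ⟨ht, s, hs, s, hGS s hs, subset_rfl, t', ht', h1, h2⟩
  -- the values
  have hP10 : ∀ t ∈ T, (∃ s ∈ G, P1 s t) ∨ ∃ s ∈ G, P0 s t := by
    intro t ht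
    have hti : InM M t := inM_zf.2 (trans_mem hT.mem ht)
    have hD1 : Dfn M (fun P : ZFSet.{0} => ZFSet.sep (fun s => P1 s t ∨ P0 s t) P) := by
      rw [hP1, hP0]
      fun_prop (disch := assumption)
    obtain ⟨s, hs, h1⟩ := hG.generic _ (inM_zf.1 (hD1.1 S hSi)) (fun q hq => (mem_sep.1 hq).1) (by
      intro s hs
      by_cases h : P0 s t
      · exact ⟨s, mem_sep.2 ⟨hs, Or.inr h⟩, subset_rfl⟩
      · rw [hP0] at h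
        simp only [BAll, Imp, not_forall, not_not] at h
        obtain ⟨s', hs', h1, h2⟩ := h
        rcases h1 with h1 | h1
        · exact ⟨s, mem_sep.2 ⟨hs, Or.inl ⟨s', hs', h1, h2⟩⟩, subset_rfl⟩
        · exact ⟨s', mem_sep.2 ⟨hs', Or.inl ⟨s', hs', subset_rfl, h2⟩⟩, h1⟩)
    rcases (mem_sep.1 h1).2 with h1 | h1
    · exact Or.inl ⟨s, hs, h1⟩
    · exact Or.inr ⟨s, hs, h1⟩
  have hP1' : ∀ s ∈ G, ∀ t, P1 s t → ∀ s' ∈ G, ¬ P0 s' t := by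
    rintro s hs t ⟨s1, hs1, h1, h2⟩ s' hs' h3
    have h4 : s1 ∈ G := hG.upward s hs s1 hs1 h1
    obtain ⟨r, hr, h5, h6⟩ := hG.directed s1 h4 s' hs'
    exact h3 s1 hs1 (hS.tree.comparable hκo hs1 (hGS s' hs') (hGS r hr) h5 h6) h2
  have hD0mono : ∀ s t r, D0 s t → s ⊆ r → D0 r t := by
    rintro s t r ⟨s', hs', h1, h2⟩ h3
    exact ⟨s', hs', fun x hx => h3 (h1 hx), h2⟩
  have hP1mono : ∀ s t r, P1 s t → s ⊆ r → P1 r t := by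
    rintro s t r ⟨s', hs', h1, h2⟩ h3
    exact ⟨s', hs', fun x hx => h3 (h1 hx), h2⟩
  have hφ1 : ∀ t, pair t {∅} ∈ φ ↔ t ∈ Db ∧ ∃ s ∈ G, P1 s t := by
    intro t
    rw [hφ]
    constructor
    · rintro ⟨s, hs, h1⟩
      obtain ⟨_, h2, h3, h4⟩ := (hRm1 s t).1 h1
      exact ⟨mem_sep.2 ⟨h2, s, hs, h3⟩, s, hs, h4⟩
    · rintro ⟨h1, s, hs, h2⟩
      obtain ⟨h3, s', hs', h4⟩ := mem_sep.1 h1
      obtain ⟨r, hr, h5, h6⟩ := hG.directed s hs s' hs'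
      exact ⟨r, hr, (hRm1 r t).2 ⟨hGS r hr, h3, hD0mono _ _ _ h4 h6, hP1mono _ _ _ h2 h5⟩⟩
  have hP0mono : ∀ s ∈ G, ∀ t, ∀ r ∈ G, P0 s t → s ⊆ r → P0 r t := by
    intro s hs t r hr h1 h2 s' hs' h3
    refine h1 s' hs' ?_
    rcases h3 with h3 | h3
    · exact hS.tree.comparable hκo hs' (hGS s hs) (hGS r hr) h3 h2
    · exact Or.inr fun x hx => h3 (h2 hx)
  have hφ0 : ∀ t, pair t ∅ ∈ φ ↔ t ∈ Db ∧ ∃ s ∈ G, P0 s t := by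
    intro t
    rw [hφ]
    constructor
    · rintro ⟨s, hs, h1⟩
      obtain ⟨_, h2, h3, h4⟩ := (hRm0 s t).1 h1
      exact ⟨mem_sep.2 ⟨h2, s, hs, h3⟩, s, hs, h4⟩
    · rintro ⟨h1, s, hs, h2⟩
      obtain ⟨h3, s', hs', h4⟩ := mem_sep.1 h1
      obtain ⟨r, hr, h5, h6⟩ := hG.directed s hs s' hs'
      exact ⟨r, hr, (hRm0 r t).2 ⟨hGS r hr, h3, hD0mono _ _ _ h4 h6, hP0mono s hs t r hr h2 h5⟩⟩
  have hφp : ∀ z ∈ φ, ∃ t ∈ Db, z = pair t {∅} ∨ z = pair t ∅ := by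
    intro z hz
    obtain ⟨s, hs, h1⟩ := (hφ z).1 hz
    obtain ⟨_, s', _, t, ht, ⟨h2, h3, _⟩ | ⟨h2, h3, _⟩⟩ := mem_sep.1 h1
    · obtain ⟨rfl, rfl⟩ := pair_inj.1 h2
      exact ⟨t, mem_sep.2 ⟨ht, s, hs, h3⟩, Or.inl rfl⟩
    · obtain ⟨rfl, rfl⟩ := pair_inj.1 h2
      exact ⟨t, mem_sep.2 ⟨ht, s, hs, h3⟩, Or.inr rfl⟩
  refine ⟨φ, hφE, Db, ⟨sep_subset, ?_, ?_, ?_⟩, ⟨?_, ?_⟩, ?_⟩
  · -- nonempty
    have hD1 : Dfn M (fun P : ZFSet.{0} => ZFSet.sep (fun s => BEx T (fun t => pair s t ∈ K)) P) := by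
      fun_prop (disch := assumption)
    obtain ⟨s, hs, h1⟩ := hG.generic _ (inM_zf.1 (hD1.1 S hSi)) (fun q hq => (mem_sep.1 hq).1) (by
      intro s hs
      obtain ⟨s', hs', h1, t, ht, h2⟩ := k2 s hs
      exact ⟨s', mem_sep.2 ⟨hs', t, ht, h2⟩, h1⟩)
    obtain ⟨_, t, ht, h2⟩ := mem_sep.1 h1
    exact ⟨t, hDbK t ht s hs t ht subset_rfl h2⟩
  · -- restrictions
    intro t ht α hα ξ hξ
    rw [← isFunc_dom hα] at hξ
    obtain ⟨s, hs, t', ht', h1, h2⟩ := hKb t ht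
    rw [rs_eq]
    exact hDbK _ (hT.restr t (mem_sep.1 ht).1 ξ hξ) s hs t' ht'
      (fun x hx => h1 (restr_subset hx)) h2
  · -- unbounded
    intro t ht β hβ
    obtain ⟨s, hs, t', ht', h1, h2⟩ := hKb t ht
    have ht'i : InM M t' := inM_zf.2 (trans_mem hT.mem ht')
    have hβi : InM M β := inM_zf.2 (trans_mem hS.reg.mem hβ)
    have hD1 : Dfn M (fun P : ZFSet.{0} => ZFSet.sep (fun s => BEx T (fun t'' => t' ⊆ t'' ∧
        β ⊆ dom t'' ∧ pair s t'' ∈ K)) P) := by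
      fun_prop (disch := assumption)
    obtain ⟨s'', hs'', h3⟩ := generic_below hS.tree.mem hG (inM_zf.1 (hD1.1 S hSi)) hs (by
      intro r hr hsr
      obtain ⟨s'', hs'', h3, t'', ht'', h4, h5, h6⟩ := k3 s (hGS s hs) t' ht' h2 r hr hsr β hβ
      exact ⟨s'', mem_sep.2 ⟨hs'', t'', ht'', h4, h5, h6⟩, hs'', h3⟩)
    obtain ⟨_, t'', ht'', h4, h5, h6⟩ := mem_sep.1 h3
    exact ⟨t'', hDbK t'' ht'' s'' hs'' t'' ht'' subset_rfl h6, fun x hx => h4 (h1 hx), dom t'', h5,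
      hT.isFunc ht''⟩
  · -- `φ` is a relation
    intro z hz
    obtain ⟨t, ht, rfl | rfl⟩ := hφp z hz
    · exact pair_mem_prod.2 ⟨ht, mem_pair.2 (Or.inr rfl)⟩
    · exact pair_mem_prod.2 ⟨ht, mem_pair.2 (Or.inl rfl)⟩
  · -- `φ` is a function
    intro t ht
    rcases hP10 t (mem_sep.1 ht).1 with ⟨s, hs, h1⟩ | ⟨s, hs, h1⟩
    · refine ⟨{∅}, (hφ1 t).2 ⟨ht, s, hs, h1⟩, fun y hy => ?_⟩
      obtain ⟨t', ht', h2 | h2⟩ := hφp _ hy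
      · exact (pair_inj.1 h2).2
      · obtain ⟨rfl, rfl⟩ := pair_inj.1 h2
        obtain ⟨_, s', hs', h3⟩ := (hφ0 t).1 hy
        exact absurd h3 (hP1' s hs t h1 s' hs')
    · refine ⟨∅, (hφ0 t).2 ⟨ht, s, hs, h1⟩, fun y hy => ?_⟩
      obtain ⟨t', ht', h2 | h2⟩ := hφp _ hy
      · obtain ⟨rfl, rfl⟩ := pair_inj.1 h2
        obtain ⟨_, s', hs', h3⟩ := (hφ1 t).1 hy
        exact absurd h1 (hP1' s' hs' t h3 s hs)
      · exact (pair_inj.1 h2).2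
  · -- uniformization
    intro t ht α hα hlim
    have hdt := isFunc_dom hα
    subst hdt
    obtain ⟨htT, _⟩ := mem_sep.1 ht
    -- `t` itself is a node of `K`
    obtain ⟨s, hs, h1⟩ : ∃ s ∈ G, pair s t ∈ K := by
      obtain ⟨s, hs, t', ht', h1, h2⟩ := hKb t ht
      obtain ⟨_, ht1, ht2, _⟩ := hT.func t htT
      obtain ⟨_, ht'1, ht'2, _⟩ := hT.func t' ht'
      rcases (hT.dom_ord hκo htT).mem_trichotomous (hT.dom_ord hκo ht') with h | h | h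
      · refine ⟨s, hs, ?_⟩
        have := k4 s (hGS s hs) t' ht' h2 (dom t) h hlim
        rwa [restr_of_sub ht1 ht'2 h1] at this
      · have := eq_of_sub ht'1 ht'2 h1 (by rw [h])
        rw [this]
        exact ⟨s, hs, h2⟩
      · exact absurd (dom_mono h1 h) (mem_irrefl _)
    obtain ⟨β, hβ, h2⟩ := k5 s (hGS s hs) t htT h1 hlim
    refine (hC.finite (dom t) (hT.func t htT).1 β hβ).subset ?_
    rintro ξ ⟨hξC, hξ⟩
    refine ⟨hξC, ?_⟩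
    by_contra hβξ
    apply hξ
    -- `ξ ∈ dom t`
    obtain ⟨α', _, _, ξ', hξ', h3⟩ := hC.pairs _ hξC
    obtain ⟨rfl, rfl⟩ := pair_inj.1 h3
    have hdo := hT.dom_ord hκo htT
    have h4 : β ⊆ ξ := ((hdo.mem hξ').notMem_iff_subset (hdo.mem hβ)).1 hβξ
    obtain ⟨s', hs', hs's, h5⟩ := h2 ξ hξ' hξC h4
    have hs'G : s' ∈ G := hG.upward s hs s' hs' hs's
    rw [rs_eq]
    have hrT : restr t ξ ∈ T := hT.restr t htT ξ hξ'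
    have hrD : restr t ξ ∈ Db := hDbK _ hrT s hs t htT restr_subset h1
    have hξM : InM M (pair (dom t) ξ) := inM_zf.2 (trans_mem hC.mem hξC)
    have hmemZ : ∀ i, i = ∅ ∨ i = {∅} → pair (pair (dom t) ξ) i ∈ prod C {∅, {∅}} := fun i hi =>
      pair_mem_prod.2 ⟨hξC, mem_pair.2 hi⟩
    -- the value of `f`
    obtain ⟨i, hi, _⟩ := hfC.2 _ hξC
    have hi2 : i = ∅ ∨ i = {∅} := mem_pair.1 (hf4 (mem_ran.2 ⟨_, hi⟩))
    rcases h5 with ⟨h5, h6⟩ | ⟨h5, h6⟩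
    · refine ⟨{∅}, (hφ1 _).2 ⟨hrD, s', hs'G, s', hs', subset_rfl, h5⟩, ?_⟩
      have hD1 : Dfn M (fun P : ZFSet.{0} => ZFSet.sep (fun s => pair s (pair (dom t) ξ) ∈ Y) P) := by
        have : InM M Y := inM_zf.2 hYM
        fun_prop (disch := assumption)
      obtain ⟨s₂, hs₂, h7⟩ := generic_below hS.tree.mem hG (inM_zf.1 (hD1.1 S hSi)) hs (by
        intro r hr hsr
        obtain ⟨s₂, hs₂, h7, h8⟩ := h6 r hr hsr
        exact ⟨s₂, mem_sep.2 ⟨hs₂, h8⟩, hs₂, h7⟩)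
      have h8 := ((hYm _ _).1 (mem_sep.1 h7).2).2.2
      exact (hE _ (hmemZ _ (Or.inr rfl))).2 ⟨s₂, hs₂, h8⟩
    · refine ⟨∅, (hφ0 _).2 ⟨hrD, ?_⟩, ?_⟩
      · rcases hP10 _ hrT with ⟨s₁, hs₁, s₂, hs₂, h7, h8⟩ | h7
        · exfalso
          have hs₂G : s₂ ∈ G := hG.upward s₁ hs₁ s₂ hs₂ h7
          obtain ⟨r, hr, h9, h10⟩ := hG.directed s₂ hs₂G s' hs'G
          exact k6 s₂ hs₂ s' hs' _ hrT h8 h5
            (hS.tree.comparable hκo hs₂ hs' (hGS r hr) h9 h10)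
        · exact h7
      · rcases hi2 with rfl | rfl
        · exact hi
        · exfalso
          obtain ⟨s₁, hs₁, h7⟩ := (hE _ (hmemZ _ (Or.inr rfl))).1 hi
          obtain ⟨r, hr, h9, h10⟩ := hG.directed s hs s₁ hs₁
          exact h6 r (hGS r hr) h9 ((hYm _ _).2 ⟨hGS r hr, hξC, hEmono _ _ _ h7 h10 (hGS r hr)⟩)

end Pool.Agent.Work.MP_0201f6_lc_helper21
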