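import Pool.Agent.Work.MP_0201f6_lc_helper21.Code
import Pool.Agent.Work.MP_0201f6_lc_helper21.Unif

/-!
Names for trees of finite modifications of a coherent sequence.
-/

namespace Pool.Agent.Work.MP_0201f6_lc_helper21

open ZFSet Pool.Agent.Work.MP_6efb98_lc

variable {B : Type} [CompleteBooleanAlgebra B]

instance : Nonempty W := by
  rw [Ordinal.nonempty_toType_iff]
  intro h
  have h1 : (Cardinal.aleph (0 + 1)) = 0 := Cardinal.ord_eq_zero.1 h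
  exact (Cardinal.aleph_pos _).ne' h1

theorem exists_w0 : ∃ w : W, ∀ v : W, w ≤ v := by
  obtain ⟨w, _, hw⟩ := (wellFounded_lt (α := W)).has_min Set.univ Set.univ_nonempty
  exact ⟨w, fun v => not_lt.1 (hw v (Set.mem_univ v))⟩

/-- the least element -/
noncomputable def w0 : W := exists_w0.choose

theorem w0_le (v : W) : w0 ≤ v := exists_w0.choose_spec v

theorem countable_Iio (w : W) : (Set.Iio w).Countable := by
  rw [← Cardinal.le_aleph0_iff_set_countable]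
  have h := Cardinal.mk_Iio_toType_ord_lt (c := Cardinal.aleph (0 + 1)) w
  have h2 : Cardinal.aleph (0 + 1) = Order.succ Cardinal.aleph0 := by
    rw [← Cardinal.succ_aleph, Cardinal.aleph_zero]
  exact Order.lt_succ_iff.1 (h.trans_eq h2)

/-- name of the function coded by a node -/
noncomputable def fnN (z : W → W → ℕ → B) (s : Node) : Nm B :=
  .mk ({ξ : W // ξ < s.1} × ℕ) (fun p => pairN (Cd.cN p.1.1) (Cd.cN p.2))
    (fun p => sv z s p.1.1 p.2)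

/-- name of the tree -/
noncomputable def trN (z : W → W → ℕ → B) : Nm B := .mk Node (fun s => fnN z s) (fun _ => ⊤)

open Classical in
/-- forget the modifications above the level -/
noncomputable def rd (s : Node) : Node := (s.1, s.2.filter (fun ξ => ξ < s.1))

open Classical in
/-- decoding of node names -/
noncomputable def dcN (z : W → W → ℕ → B) (η : Nm B) : Node :=
  if h : ∃ s, fnN z s = η then h.choose else (w0, 0)

theorem fnN_dcN (z : W → W → ℕ → B) (s : Node) : fnN z (dcN z (fnN z s)) = fnN z s := by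
  have h : ∃ s', fnN z s' = fnN z s := ⟨s, rfl⟩
  rw [dcN, dif_pos h]
  exact h.choose_spec

theorem lev_aux (z : W → W → ℕ → B) (s : Node) (ξ : W) :
    (∃ i, (fnN z s).c i = pairN (Cd.cN ξ) (Cd.cN (0 : ℕ))) ↔ ξ < s.1 := by
  constructor
  · rintro ⟨⟨⟨ξ', h'⟩, n⟩, h⟩
    have h1 : ξ' = ξ := Cd.inj (pairN_inj h).1
    rw [← h1]
    exact h'
  · intro h
    exact ⟨(⟨ξ, h⟩, 0), rfl⟩

theorem lev_eq {z : W → W → ℕ → B} {s s' : Node} (h : fnN z s = fnN z s') : s.1 = s'.1 := by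
  have h1 : ∀ ξ, ξ < s.1 ↔ ξ < s'.1 := fun ξ => by
    rw [← lev_aux z s, ← lev_aux z s', h]
  rcases lt_trichotomy s.1 s'.1 with h2 | h2 | h2
  · exact absurd ((h1 _).2 h2) (lt_irrefl _)
  · exact h2
  · exact absurd ((h1 _).1 h2) (lt_irrefl _)

theorem countable_rd (d : W) : {s : Node | s.1 < d ∧ rd s = s}.Countable := by
  classical
  have hc := countable_Iio d
  have : Countable (Set.Iio d) := hc
  let g : Set.Iio d × (Set.Iio d →₀ ℕ) → Node := fun p =>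
    (p.1.1, p.2.mapDomain Subtype.val)
  refine (Set.countable_range g).mono ?_
  rintro ⟨α, h⟩ ⟨h1, h2⟩
  have h3 : ∀ ξ, d ≤ ξ → h ξ = 0 := by
    intro ξ hξ
    have h4 : (rd (α, h)).2 = h := by rw [h2]
    rw [← h4]
    simp only [rd]
    rw [Finsupp.filter_apply, if_neg]
    exact not_lt.2 ((le_of_lt h1).trans hξ)
  refine ⟨(⟨α, h1⟩, h.comapDomain Subtype.val Subtype.val_injective.injOn), ?_⟩
  simp only [g]
  refine Prod.ext rfl ?_
  change Finsupp.mapDomain Subtype.val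
    (Finsupp.comapDomain (Subtype.val : Set.Iio d → W) h Subtype.val_injective.injOn) = h
  apply Finsupp.mapDomain_comapDomain _ Subtype.val_injective
  intro ξ hξ
  rw [Finset.mem_coe, Finsupp.mem_support_iff] at hξ
  have : ξ < d := by
    by_contra hcon
    exact hξ (h3 ξ (not_lt.1 hcon))
  exact ⟨⟨ξ, this⟩, rfl⟩

/-- numbering of the nodes below a level -/
noncomputable def num (d : W) (s : Node) : ℕ :=
  open Classical in
  if h : s.1 < d ∧ rd s = s then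
    haveI := (countable_rd d).to_subtype
    (Countable.exists_injective_nat {s : Node | s.1 < d ∧ rd s = s}).choose ⟨s, h⟩ else 0

theorem num_inj {d : W} {s t : Node} (hs : s.1 < d ∧ rd s = s) (ht : t.1 < d ∧ rd t = t)
    (h : num d s = num d t) : s = t := by
  rw [num, num, dif_pos hs, dif_pos ht] at h
  have := (countable_rd d).to_subtype
  have h1 := (Countable.exists_injective_nat {s : Node | s.1 < d ∧ rd s = s}).choose_spec h
  exact congrArg Subtype.val h1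

/-- name of an enumeration of the nodes below a level -/
noncomputable def enN (z : W → W → ℕ → B) (d : W) : Nm B :=
  .mk {s : Node // s.1 < d ∧ rd s = s} (fun s => pairN (Cd.cN (num d s.1)) (fnN z s.1))
    (fun _ => ⊤)

theorem rd_rd (s : Node) : rd (rd s) = rd s := by
  classical
  refine Prod.ext rfl ?_
  ext ξ
  simp only [rd, Finsupp.filter_apply]
  split <;> rfl

theorem sv_rd (z : W → W → ℕ → B) (s : Node) {ξ : W} (h : ξ < s.1) (n : ℕ) :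
    sv z (rd s) ξ n = sv z s ξ n := by
  classical
  have h1 : (rd s).2 ξ = s.2 ξ := by
    simp only [rd]
    rw [Finsupp.filter_apply, if_pos h]
  rw [sv, sv, h1]
  rfl

/-- closure properties of the hull, for the tree given by `z` -/
structure Tz (z : W → W → ℕ → B) (X : Set (Nm B)) (G : Set B) : Prop where
  hull : Hull X
  ult : IsUltra G
  disj : ∀ α, ∀ ξ < α, ∀ n m, n ≠ m → z α ξ n ⊓ z α ξ m = ⊥
  tot : ∀ α, ∀ ξ < α, (⨆ n, z α ξ n) = ⊤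
  restr : ∀ (t : Node), ∀ β ≤ t.1, (⨆ s : Node, ⨆ _ : s.1 = β, le z s t) = ⊤
  ext : ∀ (s : Node) (β : W) (n : ℕ), s.1 < β →
    (⨆ t : Node, ⨆ _ : t.1 = β, le z s t ⊓ sv z t s.1 n) = ⊤
  o_w0 : In X ((w0, 0) : Node)
  o_fn : ∀ s : Node, In X s → fnN z s ∈ X
  o_dc : ∀ η ∈ X, In X (dcN z η)
  o_tr : trN z ∈ X
  o_rd : ∀ s : Node, In X s → In X (rd s)
  o_en : ∀ d : W, In X d → enN z d ∈ X
  t_ag : ∀ (s t : Node) (ξ : W), In X s → In X t → In X ξ →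
    (⨆ n, sv z s ξ n ⊓ sv z t ξ n) ∈ G → ∃ n, sv z s ξ n ⊓ sv z t ξ n ∈ G
  t_dis : ∀ s t : Node, In X s → In X t →
    (⨆ ξ, ⨆ _ : ξ < s.1, (⨆ n, sv z s ξ n ⊓ sv z t ξ n)ᶜ) ∈ G →
    ∃ ξ, In X ξ ∧ (⨆ _ : ξ < s.1, (⨆ n, sv z s ξ n ⊓ sv z t ξ n)ᶜ) ∈ G
  t_tot : ∀ (s : Node) (ξ : W), In X s → In X ξ → (⨆ n, sv z s ξ n) ∈ G → ∃ n, sv z s ξ n ∈ G
  t_res : ∀ (t : Node) (β : W), In X t → In X β → (⨆ s : Node, ⨆ _ : s.1 = β, le z s t) ∈ G →
    ∃ s : Node, In X s ∧ (⨆ _ : s.1 = β, le z s t) ∈ G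
  t_ext : ∀ (s : Node) (β : W) (n : ℕ), In X s → In X β →
    (⨆ t : Node, ⨆ _ : t.1 = β, le z s t ⊓ sv z t s.1 n) ∈ G →
    ∃ t : Node, In X t ∧ (⨆ _ : t.1 = β, le z s t ⊓ sv z t s.1 n) ∈ G

theorem iSup_prop_mem {G : Set B} (hG : IsUltra G) {p : Prop} {a : B} (h : (⨆ _ : p, a) ∈ G) :
    p ∧ a ∈ G := by
  by_cases hp : p
  · simp only [hp, iSup_pos] at h
    exact ⟨hp, h⟩
  · simp only [hp, iSup_false] at h
    exact absurd h hG.bot_notMem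

theorem sv_disj {z : W → W → ℕ → B}
    (hd : ∀ α, ∀ ξ < α, ∀ n m, n ≠ m → z α ξ n ⊓ z α ξ m = ⊥) (s : Node) {ξ : W} (h : ξ < s.1)
    {n m : ℕ} (hnm : n ≠ m) : sv z s ξ n ⊓ sv z s ξ m = ⊥ := by
  unfold sv
  by_cases h1 : s.2 ξ = 0
  · rw [if_pos h1, if_pos h1]
    exact hd _ _ h _ _ hnm
  · rw [if_neg h1, if_neg h1]
    by_cases h2 : s.2 ξ = n + 1
    · have h3 : s.2 ξ ≠ m + 1 := by omega
      rw [if_neg h3, inf_bot_eq]
    · rw [if_neg h2, bot_inf_eq]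

theorem sv_tot {z : W → W → ℕ → B}
    (ht : ∀ α, ∀ ξ < α, (⨆ n, z α ξ n) = ⊤) (s : Node) {ξ : W} (h : ξ < s.1) :
    (⨆ n, sv z s ξ n) = ⊤ := by
  unfold sv
  by_cases h1 : s.2 ξ = 0
  · simp only [if_pos h1]
    exact ht _ _ h
  · simp only [if_neg h1]
    rw [eq_top_iff]
    refine le_iSup_of_le (s.2 ξ - 1) ?_
    rw [if_pos (by omega)]

namespace Tz

variable {z : W → W → ℕ → B} {X : Set (Nm B)} {G : Set B} (h : Tz z X G)
include h

theorem nat_ev (n : ℕ) : ev X G (Cd.cN n) = nat n := ev_nat h.ult h.hull n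

theorem mem_fn {s : Node} {x : ZFSet.{0}} : x ∈ ev X G (fnN z s) ↔ ∃ ξ, ξ < s.1 ∧ In X ξ ∧
    ∃ n : ℕ, sv z s ξ n ∈ G ∧ x = pair (ev X G (Cd.cN ξ)) (nat n) := by
  rw [fnN, mem_ev_inj h.ult]
  · constructor
    · rintro ⟨⟨⟨ξ, hξ⟩, n⟩, h1, h2, rfl⟩
      obtain ⟨h3, h4⟩ := of_pairN_mem h.hull h1
      refine ⟨ξ, hξ, h3, n, h2, ?_⟩
      rw [ev_pairN h.ult h.hull h3 h4, h.nat_ev]
    · rintro ⟨ξ, hξ, h1, n, h2, rfl⟩
      refine ⟨⟨⟨ξ, hξ⟩, n⟩, pairN_mem h.hull h1 (in_nat h.hull n), h2, ?_⟩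
      rw [ev_pairN h.ult h.hull h1 (in_nat h.hull n), h.nat_ev]
  · rintro ⟨⟨ξ, hξ⟩, n⟩ ⟨⟨ξ', hξ'⟩, n'⟩ h1
    obtain ⟨h2, h3⟩ := pairN_inj h1
    have h4 : ξ = ξ' := Cd.inj h2
    have h5 : n = n' := Cd.inj h3
    subst h4 h5
    rfl

theorem pair_mem_fn {s : Node} {ξ : W} (hξ : In X ξ) {n : ℕ} :
    pair (ev X G (Cd.cN ξ)) (nat n) ∈ ev X G (fnN z s) ↔ ξ < s.1 ∧ sv z s ξ n ∈ G := by
  rw [h.mem_fn]
  constructor
  · rintro ⟨ξ', h1, h2, n', h3, h4⟩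
    obtain ⟨h5, h6⟩ := pair_inj.1 h4
    have h7 := ev_W_inj h.ult hξ h2 h5
    have h8 := nat_inj.1 h6
    subst h7 h8
    exact ⟨h1, h3⟩
  · rintro ⟨h1, h2⟩
    exact ⟨ξ, h1, hξ, n, h2, rfl⟩

theorem exists_val (s : Node) (hs : In X s) {ξ : W} (hξ : In X ξ) (h1 : ξ < s.1) :
    ∃ n, sv z s ξ n ∈ G := by
  apply h.t_tot s ξ hs hξ
  rw [sv_tot h.tot s h1]
  exact h.ult.top_mem

theorem isRel_fn (s : Node) : IsRel (ev X G (fnN z s)) := by
  intro x hx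
  obtain ⟨ξ, _, _, n, _, rfl⟩ := h.mem_fn.1 hx
  exact ⟨_, _, rfl⟩

theorem sv_unique (s : Node) {ξ : W} (h1 : ξ < s.1) {n m : ℕ} (hn : sv z s ξ n ∈ G)
    (hm : sv z s ξ m ∈ G) : n = m := by
  by_contra hne
  have := h.ult.inf hn hm
  rw [sv_disj h.disj s h1 hne] at this
  exact h.ult.bot_notMem this

theorem Sv_fn (s : Node) : Sv (ev X G (fnN z s)) := by
  intro x y y' h1 h2
  obtain ⟨ξ, h3, h4, n, h5, h6⟩ := h.mem_fn.1 h1
  obtain ⟨ξ', h3', h4', n', h5', h6'⟩ := h.mem_fn.1 h2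
  obtain ⟨rfl, rfl⟩ := pair_inj.1 h6
  obtain ⟨h7, rfl⟩ := pair_inj.1 h6'
  have h8 := ev_W_inj h.ult h4 h4' h7
  subst h8
  rw [h.sv_unique s h3 h5 h5']

theorem dom_fn {s : Node} (hs : In X s) : dom (ev X G (fnN z s)) = ev X G (Cd.cN s.1) := by
  ext x
  rw [mem_dom, mem_ev_W h.ult]
  constructor
  · rintro ⟨y, hy⟩
    obtain ⟨ξ, h3, h4, n, _, h6⟩ := h.mem_fn.1 hy
    exact ⟨ξ, h3, h4, (pair_inj.1 h6).1.symm⟩
  · rintro ⟨ξ, h1, h2, rfl⟩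
    obtain ⟨n, hn⟩ := h.exists_val s hs h2 h1
    exact ⟨nat n, (h.pair_mem_fn h2).2 ⟨h1, hn⟩⟩

theorem in_fst {s : Node} (hs : In X s) : In X s.1 := ((in_prod h.hull).1 hs).1

theorem le_iff {s t : Node} (hs : In X s) (ht : In X t) :
    le z s t ∈ G ↔ ev X G (fnN z s) ⊆ ev X G (fnN z t) := by
  constructor
  · intro h1 x hx
    rw [le] at h1
    obtain ⟨h2, h3⟩ := iSup_prop_mem h.ult h1
    obtain ⟨ξ, h4, h5, n, h6, rfl⟩ := h.mem_fn.1 hx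
    obtain ⟨m, hm⟩ := h.t_ag s t ξ hs ht h5
      (h.ult.up h3 ((iInf_le _ ξ).trans (iInf_le _ h4)))
    rw [h.ult.inf_iff] at hm
    have h7 := h.sv_unique s h4 h6 hm.1
    subst h7
    exact (h.pair_mem_fn h5).2 ⟨h4.trans_le h2, hm.2⟩
  · intro h1
    have h2 : s.1 ≤ t.1 := by
      rw [← ev_W_le h.ult (h.in_fst hs) (h.in_fst ht), ← h.dom_fn hs, ← h.dom_fn ht]
      exact dom_mono h1
    rw [le, iSup_pos h2]
    by_contra h3
    rw [← h.ult.compl_iff, compl_iInf] at h3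
    simp only [compl_iInf] at h3
    obtain ⟨ξ, h4, h5⟩ := h.t_dis s t hs ht h3
    obtain ⟨h6, h7⟩ := iSup_prop_mem h.ult h5
    obtain ⟨n, hn⟩ := h.exists_val s hs h4 h6
    have h8 := (h.pair_mem_fn h4).1 (h1 ((h.pair_mem_fn h4).2 ⟨h6, hn⟩))
    refine h.ult.compl_iff.1 h7 (h.ult.up (h.ult.inf hn h8.2) ?_)
    exact le_iSup (fun n => sv z s ξ n ⊓ sv z t ξ n) n

theorem mem_tr {x : ZFSet.{0}} : x ∈ ev X G (trN z) ↔ ∃ s : Node, In X s ∧ ev X G (fnN z s) = x := by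
  rw [trN, mem_ev_top h.ult]
  constructor
  · rintro ⟨s, h1, rfl⟩
    exact ⟨dcN z (fnN z s), h.o_dc _ h1, by rw [fnN_dcN]⟩
  · rintro ⟨s, h1, rfl⟩
    exact ⟨s, h.o_fn s h1, rfl⟩

theorem fn_mem_tr {s : Node} (hs : fnN z s ∈ X) : ev X G (fnN z s) ∈ ev X G (trN z) := by
  rw [trN, mem_ev_top h.ult]
  exact ⟨s, hs, rfl⟩

theorem ev_rd (s : Node) : ev X G (fnN z (rd s)) = ev X G (fnN z s) := by
  ext x
  rw [h.mem_fn, h.mem_fn]
  refine exists_congr fun ξ => ?_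
  constructor
  · rintro ⟨h1, h2, n, h3, h4⟩
    refine ⟨h1, h2, n, ?_, h4⟩
    rw [← sv_rd z s h1]
    exact h3
  · rintro ⟨h1, h2, n, h3, h4⟩
    refine ⟨h1, h2, n, ?_, h4⟩
    rw [sv_rd z s h1]
    exact h3

theorem restr_fn {t : Node} (ht : In X t) {β : W} (hβ : In X β) (h1 : β ≤ t.1) :
    ∃ s : Node, In X s ∧ s.1 = β ∧ le z s t ∈ G ∧
      MP_6efb98_lc.restr (ev X G (fnN z t)) (ev X G (Cd.cN β)) = ev X G (fnN z s) := by
  obtain ⟨s, hs, h2⟩ := h.t_res t β ht hβ (by rw [h.restr t β h1]; exact h.ult.top_mem)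
  obtain ⟨h3, h4⟩ := iSup_prop_mem h.ult h2
  refine ⟨s, hs, h3, h4, ?_⟩
  have h5 := restr_of_sub (h.isRel_fn s) (h.Sv_fn t) ((h.le_iff hs ht).1 h4)
  rw [h.dom_fn hs, h3] at h5
  exact h5

/-- the tree in the model -/
theorem treeD : TreeD (Mod X G) (ev X G (ordN (Cardinal.aleph (0 + 1)).ord))
    (ev X G (trN z)) where
  mem := ⟨_, h.o_tr, rfl⟩
  func := by
    intro t ht
    obtain ⟨s, hs, rfl⟩ := h.mem_tr.1 ht
    refine ⟨?_, h.isRel_fn s, h.Sv_fn s, ?_⟩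
    · rw [h.dom_fn hs, mem_ev_omega1 h.ult]
      exact ⟨s.1, h.in_fst hs, rfl⟩
    · intro y hy
      obtain ⟨x, hx⟩ := mem_ran.1 hy
      obtain ⟨ξ, _, _, n, _, h6⟩ := h.mem_fn.1 hx
      rw [(pair_inj.1 h6).2]
      exact nat_mem_omega n
  root := by
    rw [h.mem_tr]
    refine ⟨(w0, 0), h.o_w0, ?_⟩
    ext x
    rw [h.mem_fn]
    constructor
    · rintro ⟨ξ, h1, _⟩
      exact absurd h1 (not_lt.2 (w0_le ξ))
    · intro hx
      exact absurd hx (notMem_empty x)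
  restr := by
    intro t ht ξ hξ
    obtain ⟨s, hs, rfl⟩ := h.mem_tr.1 ht
    rw [h.dom_fn hs, mem_ev_W h.ult] at hξ
    obtain ⟨v, hv, hvX, rfl⟩ := hξ
    obtain ⟨s', hs', _, _, h3⟩ := h.restr_fn hs hvX hv.le
    rw [h3, h.mem_tr]
    exact ⟨s', hs', rfl⟩
  ext := by
    intro t ht β hβ h1 n hn
    obtain ⟨s, hs, rfl⟩ := h.mem_tr.1 ht
    obtain ⟨b, hb, rfl⟩ := (mem_ev_omega1 h.ult).1 hβ
    obtain ⟨m, rfl⟩ := mem_omega_iff.1 hn
    rw [h.dom_fn hs, ev_W_lt h.ult (h.in_fst hs) hb] at h1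
    obtain ⟨s', hs', h2⟩ := h.t_ext s b m hs hb (by rw [h.ext s b m h1]; exact h.ult.top_mem)
    obtain ⟨h3, h4⟩ := iSup_prop_mem h.ult h2
    rw [h.ult.inf_iff, h.le_iff hs hs'] at h4
    refine ⟨_, h.mem_tr.2 ⟨s', hs', rfl⟩, h4.1, ?_, ?_⟩
    · rw [h.dom_fn hs', h3]
    · rw [h.dom_fn hs, h.pair_mem_fn (h.in_fst hs), h3]
      exact ⟨h1, h4.2⟩
  ctbl := by
    intro δ hδ
    obtain ⟨d, hd, rfl⟩ := (mem_ev_omega1 h.ult).1 hδ
    have hen : ∀ x, x ∈ ev X G (enN z d) ↔ ∃ s : Node, (s.1 < d ∧ rd s = s) ∧ fnN z s ∈ X ∧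
        x = pair (nat (num d s)) (ev X G (fnN z s)) := by
      intro x
      rw [enN, mem_ev_top h.ult]
      constructor
      · rintro ⟨⟨s, hs⟩, h1, rfl⟩
        obtain ⟨h2, h3⟩ := of_pairN_mem h.hull h1
        refine ⟨s, hs, h3, ?_⟩
        rw [ev_pairN h.ult h.hull h2 h3, h.nat_ev]
      · rintro ⟨s, hs, h1, rfl⟩
        refine ⟨⟨s, hs⟩, pairN_mem h.hull (in_nat h.hull _) h1, ?_⟩
        rw [ev_pairN h.ult h.hull (in_nat h.hull _) h1, h.nat_ev]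
    refine ctbl_of ⟨_, h.o_en d hd, rfl⟩ ?_ ?_ ?_ ?_
    · intro x hx
      obtain ⟨s, _, _, rfl⟩ := (hen x).1 hx
      exact ⟨_, _, rfl⟩
    · intro x y y' h1 h2
      obtain ⟨s, hs, _, h3⟩ := (hen _).1 h1
      obtain ⟨s', hs', _, h3'⟩ := (hen _).1 h2
      obtain ⟨rfl, rfl⟩ := pair_inj.1 h3
      obtain ⟨h4, rfl⟩ := pair_inj.1 h3'
      rw [num_inj hs hs' (nat_inj.1 h4)]
    · intro x hx
      obtain ⟨y, hy⟩ := mem_dom.1 hx
      obtain ⟨s, hs, _, h3⟩ := (hen _).1 hy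
      rw [(pair_inj.1 h3).1]
      exact nat_mem_omega _
    · ext y
      rw [mem_ran, mem_sep]
      constructor
      · rintro ⟨x, hx⟩
        obtain ⟨s, hs, h1, h3⟩ := (hen _).1 hx
        rw [(pair_inj.1 h3).2]
        refine ⟨h.fn_mem_tr h1, ?_⟩
        have h4 := h.o_dc _ h1
        have h5 : (dcN z (fnN z s)).1 = s.1 := lev_eq (fnN_dcN z s)
        rw [← fnN_dcN z s, h.dom_fn h4]
        exact ev_W_mem h.ult (h.in_fst h4) (h5 ▸ hs.1)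
      · rintro ⟨h1, h2⟩
        obtain ⟨s, hs, rfl⟩ := h.mem_tr.1 h1
        rw [h.dom_fn hs, ev_W_lt h.ult (h.in_fst hs) hd] at h2
        refine ⟨nat (num d (rd s)), (hen _).2 ⟨rd s, ⟨h2, rd_rd s⟩, ?_, ?_⟩⟩
        · exact h.o_fn _ (h.o_rd s hs)
        · rw [h.ev_rd]

end Tz

end Pool.Agent.Work.MP_0201f6_lc_helper21
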