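import Pool.Agent.Work.MP_0201f6_lc_helper21.FactsB

/-!
The uniformization principle in the model.
-/

namespace Pool.Agent.Work.MP_0201f6_lc_helper21

open ZFSet Pool.Agent.Work.MP_6efb98_lc

variable {B : Type} [CompleteBooleanAlgebra B]

/-- value of membership of a triple -/
noncomputable def YP (x : W → W → ℕ → B) (c : Nm B) (s : Node) (α ξ : W) : B :=
  bmem (pairN (fnN x s) (pairN (Cd.cN α) (Cd.cN ξ))) c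

/-- name of a relation between nodes -/
noncomputable def KN (x y : W → W → ℕ → B) (K : Node → Node → B) : Nm B :=
  .mk (Node × Node) (fun p => pairN (fnN x p.1) (fnN y p.2)) (fun p => K p.1 p.2)

/-- name of a relation between nodes and truth values -/
noncomputable def FN (x y : W → W → ℕ → B) (F : Node → Node → Bool → B) : Nm B :=
  .mk (Node × Node × Bool) (fun p => pairN (fnN x p.1) (pairN (fnN y p.2.1) (Cd.cN p.2.2)))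
    (fun p => F p.1 p.2.1 p.2.2)

/-- the kernel of the fifth clause -/
noncomputable def ker5 (x y : W → W → ℕ → B) (F : Node → Node → Bool → B) (Y : Node → W → W → B)
    (s t : Node) (ξ : W) (s' t' : Node) : B :=
  le x s' s ⊓ le y t' t ⊓ ((F s' t' true ⊓ F1 x Y s t.1 ξ) ⊔ (F s' t' false ⊓ F0 x Y s t.1 ξ))

/-- closure properties of the hull, for the uniformization principle -/
structure Uz (x y : W → W → ℕ → B) (C : W → Set W) (Kf : Nm B → Node → Node → B)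
    (Ff : Nm B → Node → Node → Bool → B) (X : Set (Nm B)) (G : Set B) : Prop where
  gen : Gen X G
  tx : Tz x X G
  ty : Tz y X G
  lz : Lz C X G
  u2 : ∀ c s, (⨆ s', ⨆ t, le x s s' ⊓ Kf c s' t) = ⊤
  u3 : ∀ c s t s' (γ : W), Kf c s t ⊓ le x s s' ≤
    ⨆ s'', ⨆ t'' : Node, ⨆ _ : γ ≤ t''.1, le x s' s'' ⊓ le y t t'' ⊓ Kf c s'' t''
  u4 : ∀ c s (t : Node) (β : W), Order.IsSuccLimit β → β < t.1 →
    Kf c s t ≤ ⨆ t' : Node, ⨆ _ : t'.1 = β, le y t' t ⊓ Kf c s t'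
  u5 : ∀ c s (t : Node), Order.IsSuccLimit t.1 → Kf c s t ≤
    ⨆ β : W, ⨆ _ : β < t.1, ⨅ ξ, ⨅ _ : ξ ∈ C t.1 ∧ β ≤ ξ,
      ⨆ s', ⨆ t' : Node, ⨆ _ : t'.1 = ξ, ker5 x y (Ff c) (YP x c) s t ξ s' t'
  u6 : ∀ c s t s' t', Ff c s t true ⊓ Ff c s' t' false ⊓ (le x s s' ⊔ le x s' s) ⊓
    (le y t t' ⊓ le y t' t) = ⊥
  o_K : ∀ c ∈ X, KN x y (Kf c) ∈ X
  o_F : ∀ c ∈ X, FN x y (Ff c) ∈ X
  t_K : ∀ c ∈ X, ∀ η ∈ X,
    (⨆ p : Node × Node, ⨆ _ : pairN (fnN x p.1) (fnN y p.2) = η, Kf c p.1 p.2) ∈ G →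
    ∃ p : Node × Node, In X p ∧ (⨆ _ : pairN (fnN x p.1) (fnN y p.2) = η, Kf c p.1 p.2) ∈ G
  t_F : ∀ c ∈ X, ∀ η ∈ X,
    (⨆ p : Node × Node × Bool, ⨆ _ : pairN (fnN x p.1) (pairN (fnN y p.2.1) (Cd.cN p.2.2)) = η,
      Ff c p.1 p.2.1 p.2.2) ∈ G →
    ∃ p : Node × Node × Bool, In X p ∧
      (⨆ _ : pairN (fnN x p.1) (pairN (fnN y p.2.1) (Cd.cN p.2.2)) = η, Ff c p.1 p.2.1 p.2.2) ∈ G
  t_2 : ∀ c ∈ X, ∀ s : Node, In X s → (⨆ p : Node × Node, le x s p.1 ⊓ Kf c p.1 p.2) ∈ G →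
    ∃ p : Node × Node, In X p ∧ le x s p.1 ⊓ Kf c p.1 p.2 ∈ G
  t_3 : ∀ c ∈ X, ∀ (t s' : Node) (γ : W), In X t → In X s' → In X γ →
    (⨆ p : Node × Node, ⨆ _ : γ ≤ p.2.1, le x s' p.1 ⊓ le y t p.2 ⊓ Kf c p.1 p.2) ∈ G →
    ∃ p : Node × Node, In X p ∧ (⨆ _ : γ ≤ p.2.1, le x s' p.1 ⊓ le y t p.2 ⊓ Kf c p.1 p.2) ∈ G
  t_4 : ∀ c ∈ X, ∀ (s t : Node) (β : W), In X s → In X t → In X β →
    (⨆ t' : Node, ⨆ _ : t'.1 = β, le y t' t ⊓ Kf c s t') ∈ G →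
    ∃ t' : Node, In X t' ∧ (⨆ _ : t'.1 = β, le y t' t ⊓ Kf c s t') ∈ G
  t_5a : ∀ c ∈ X, ∀ (s t : Node), In X s → In X t →
    (⨆ β : W, ⨆ _ : β < t.1, ⨅ ξ, ⨅ _ : ξ ∈ C t.1 ∧ β ≤ ξ,
      ⨆ s', ⨆ t' : Node, ⨆ _ : t'.1 = ξ, ker5 x y (Ff c) (YP x c) s t ξ s' t') ∈ G →
    ∃ β : W, In X β ∧ (⨆ _ : β < t.1, ⨅ ξ, ⨅ _ : ξ ∈ C t.1 ∧ β ≤ ξ,
      ⨆ s', ⨆ t' : Node, ⨆ _ : t'.1 = ξ, ker5 x y (Ff c) (YP x c) s t ξ s' t') ∈ G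
  t_5b : ∀ c ∈ X, ∀ (s t : Node) (ξ : W), In X s → In X t → In X ξ →
    (⨆ p : Node × Node, ⨆ _ : p.2.1 = ξ, ker5 x y (Ff c) (YP x c) s t ξ p.1 p.2) ∈ G →
    ∃ p : Node × Node, In X p ∧
      (⨆ _ : p.2.1 = ξ, ker5 x y (Ff c) (YP x c) s t ξ p.1 p.2) ∈ G
  t_f : ∀ c ∈ X, ∀ (s' : Node) (α ξ : W), In X s' → In X α → In X ξ →
    (⨆ s'', le x s' s'' ⊓ YP x c s'' α ξ) ∈ G →
    ∃ s'' : Node, In X s'' ∧ le x s' s'' ⊓ YP x c s'' α ξ ∈ G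

theorem le_iSup_pair {α β : Type} (f : α → β → B) :
    (⨆ a, ⨆ b, f a b) = ⨆ p : α × β, f p.1 p.2 := by
  rw [iSup_prod]

namespace Uz

variable {x y : W → W → ℕ → B} {C : W → Set W} {Kf : Nm B → Node → Node → B}
  {Ff : Nm B → Node → Node → Bool → B} {X : Set (Nm B)} {G : Set B} (h : Uz x y C Kf Ff X G)
include h

theorem YP_iff {c : Nm B} (hc : c ∈ X) {s : Node} {α ξ : W} (hs : In X s) (hα : In X α)
    (hξ : In X ξ) : YP x c s α ξ ∈ G ↔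
      pair (ev X G (fnN x s)) (pair (ev X G (Cd.cN α)) (ev X G (Cd.cN ξ))) ∈ ev X G c := by
  have hp : pairN (Cd.cN α) (Cd.cN ξ) ∈ X := pairN_mem h.tx.hull hα hξ
  rw [YP, h.gen.bmem_iff (pairN_mem h.tx.hull (h.tx.o_fn s hs) hp) hc,
    ev_pairN h.tx.ult h.tx.hull (h.tx.o_fn s hs) hp, ev_pairN h.tx.ult h.tx.hull hα hξ]

theorem mem_K {c : Nm B} (hc : c ∈ X) {z : ZFSet.{0}} : z ∈ ev X G (KN x y (Kf c)) ↔
    ∃ s t : Node, In X s ∧ In X t ∧ Kf c s t ∈ G ∧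
      z = pair (ev X G (fnN x s)) (ev X G (fnN y t)) := by
  rw [KN, mem_ev_mk h.tx.ult (h.t_K c hc) (by
    rintro ⟨s, t⟩ hp
    obtain ⟨hs, ht⟩ := (in_prod h.tx.hull).1 hp
    exact pairN_mem h.tx.hull (h.tx.o_fn s hs) (h.ty.o_fn t ht))]
  constructor
  · rintro ⟨⟨s, t⟩, hp, h1, rfl⟩
    obtain ⟨hs, ht⟩ := (in_prod h.tx.hull).1 hp
    exact ⟨s, t, hs, ht, h1, ev_pairN h.tx.ult h.tx.hull (h.tx.o_fn s hs) (h.ty.o_fn t ht)⟩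
  · rintro ⟨s, t, hs, ht, h1, rfl⟩
    exact ⟨(s, t), (in_prod h.tx.hull).2 ⟨hs, ht⟩, h1,
      ev_pairN h.tx.ult h.tx.hull (h.tx.o_fn s hs) (h.ty.o_fn t ht)⟩

theorem ev_bool (b : Bool) : ev X G (Cd.cN b) = if b then {∅} else ∅ := by
  change ev X G (ordN ((cond b 1 0 : ℕ) : Ordinal.{0})) = _
  rw [ev_nat h.tx.ult h.tx.hull]
  cases b
  · exact nat_zero
  · rw [if_pos rfl]
    change nat (0 + 1) = _
    rw [nat_succ, nat_zero]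
    rfl

theorem mem_F {c : Nm B} (hc : c ∈ X) {z : ZFSet.{0}} : z ∈ ev X G (FN x y (Ff c)) ↔
    ∃ (s t : Node) (b : Bool), In X s ∧ In X t ∧ Ff c s t b ∈ G ∧
      z = pair (ev X G (fnN x s)) (pair (ev X G (fnN y t)) (if b then {∅} else ∅)) := by
  rw [FN, mem_ev_mk h.tx.ult (h.t_F c hc) (by
    rintro ⟨s, t, b⟩ hp
    obtain ⟨hs, ht'⟩ := (in_prod h.tx.hull).1 hp
    obtain ⟨ht, hb⟩ := (in_prod h.tx.hull).1 ht'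
    exact pairN_mem h.tx.hull (h.tx.o_fn s hs) (pairN_mem h.tx.hull (h.ty.o_fn t ht) hb))]
  have key : ∀ (s t : Node) (b : Bool), In X s → In X t →
      ev X G (pairN (fnN x s) (pairN (fnN y t) (Cd.cN b))) =
      pair (ev X G (fnN x s)) (pair (ev X G (fnN y t)) (if b then {∅} else ∅)) := by
    intro s t b hs ht
    have hb := in_bool h.tx.hull b
    rw [ev_pairN h.tx.ult h.tx.hull (h.tx.o_fn s hs) (pairN_mem h.tx.hull (h.ty.o_fn t ht) hb),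
      ev_pairN h.tx.ult h.tx.hull (h.ty.o_fn t ht) hb, h.ev_bool]
  constructor
  · rintro ⟨⟨s, t, b⟩, hp, h1, rfl⟩
    obtain ⟨hs, ht'⟩ := (in_prod h.tx.hull).1 hp
    obtain ⟨ht, hb⟩ := (in_prod h.tx.hull).1 ht'
    exact ⟨s, t, b, hs, ht, h1, key s t b hs ht⟩
  · rintro ⟨s, t, b, hs, ht, h1, rfl⟩
    exact ⟨(s, t, b), (in_prod h.tx.hull).2 ⟨hs, (in_prod h.tx.hull).2 ⟨ht,
      in_bool h.tx.hull b⟩⟩, h1, key s t b hs ht⟩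

/-- the uniformization principle -/
theorem unifD : UnifD (Mod X G) (kap X G) (ev X G (trN x)) (ev X G (trN y))
    (ev X G (ldN C)) := by
  rintro _ ⟨c, hc, rfl⟩
  have hG := h.tx.ult
  refine ⟨_, ⟨_, h.o_K c hc, rfl⟩, _, ⟨_, h.o_F c hc, rfl⟩, ?_, ?_, ?_, ?_, ?_⟩
  · -- K2
    intro s hs
    obtain ⟨s₁, hs₁, rfl⟩ := h.tx.mem_tr.1 hs
    obtain ⟨⟨s', t⟩, hp, h1⟩ := h.t_2 c hc s₁ hs₁ (by
      rw [← le_iSup_pair (fun s' t => le x s₁ s' ⊓ Kf c s' t), h.u2]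
      exact hG.top_mem)
    obtain ⟨hs', ht⟩ := (in_prod h.tx.hull).1 hp
    rw [hG.inf_iff, h.tx.le_iff hs₁ hs'] at h1
    exact ⟨_, h.tx.mem_tr.2 ⟨s', hs', rfl⟩, h1.1, _, h.ty.mem_tr.2 ⟨t, ht, rfl⟩,
      (h.mem_K hc).2 ⟨s', t, hs', ht, h1.2, rfl⟩⟩
  · -- K3
    intro s _ t _ hst s' hs' hss' γ hγ
    obtain ⟨s₁, t₁, hs₁, ht₁, h1, h2⟩ := (h.mem_K hc).1 hst
    obtain ⟨rfl, rfl⟩ := pair_inj.1 h2
    obtain ⟨s₂, hs₂, rfl⟩ := h.tx.mem_tr.1 hs'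
    obtain ⟨g, hg, rfl⟩ := (mem_ev_omega1 hG).1 hγ
    rw [← h.tx.le_iff hs₁ hs₂] at hss'
    obtain ⟨⟨s₃, t₃⟩, hp, h3⟩ := h.t_3 c hc t₁ s₂ g ht₁ hs₂ hg (by
      rw [← le_iSup_pair (fun s'' (t'' : Node) => ⨆ _ : g ≤ t''.1,
        le x s₂ s'' ⊓ le y t₁ t'' ⊓ Kf c s'' t'')]
      exact hG.up (hG.inf h1 hss') (h.u3 c s₁ t₁ s₂ g))
    obtain ⟨hs₃, ht₃⟩ := (in_prod h.tx.hull).1 hp
    obtain ⟨h4, h5⟩ := iSup_prop_mem hG h3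
    rw [hG.inf_iff, hG.inf_iff, h.tx.le_iff hs₂ hs₃, h.ty.le_iff ht₁ ht₃] at h5
    refine ⟨_, h.tx.mem_tr.2 ⟨s₃, hs₃, rfl⟩, h5.1.1, _, h.ty.mem_tr.2 ⟨t₃, ht₃, rfl⟩, h5.1.2, ?_,
      (h.mem_K hc).2 ⟨s₃, t₃, hs₃, ht₃, h5.2, rfl⟩⟩
    rw [h.ty.dom_fn ht₃, ev_W_le hG hg (h.ty.in_fst ht₃)]
    exact h4
  · -- K4
    intro s _ t _ hst β hβ hlim
    obtain ⟨s₁, t₁, hs₁, ht₁, h1, h2⟩ := (h.mem_K hc).1 hst
    obtain ⟨rfl, rfl⟩ := pair_inj.1 h2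
    rw [h.ty.dom_fn ht₁] at hβ
    obtain ⟨b, hb, hbX, rfl⟩ := (mem_ev_W hG).1 hβ
    obtain ⟨t', ht', h3⟩ := h.t_4 c hc s₁ t₁ b hs₁ ht₁ hbX
      (hG.up h1 (h.u4 c s₁ t₁ b ((h.lz.lim_iff hbX).1 hlim) hb))
    obtain ⟨h4, h5⟩ := iSup_prop_mem hG h3
    rw [hG.inf_iff, h.ty.le_iff ht' ht₁] at h5
    have h6 := restr_of_sub (h.ty.isRel_fn t') (h.ty.Sv_fn t₁) h5.1
    rw [h.ty.dom_fn ht', h4] at h6
    rw [h6]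
    exact (h.mem_K hc).2 ⟨s₁, t', hs₁, ht', h5.2, rfl⟩
  · -- K5
    intro s _ t _ hst hlim
    obtain ⟨s₁, t₁, hs₁, ht₁, h1, h2⟩ := (h.mem_K hc).1 hst
    obtain ⟨rfl, rfl⟩ := pair_inj.1 h2
    have ht₁X := h.ty.in_fst ht₁
    rw [h.ty.dom_fn ht₁] at hlim ⊢
    have hlim' := (h.lz.lim_iff ht₁X).1 hlim
    obtain ⟨b, hbX, h3⟩ := h.t_5a c hc s₁ t₁ hs₁ ht₁ (hG.up h1 (h.u5 c s₁ t₁ hlim'))
    obtain ⟨hb, h4⟩ := iSup_prop_mem hG h3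
    refine ⟨_, ev_W_mem hG hbX hb, fun ξ hξ hξC hβξ => ?_⟩
    obtain ⟨v, hv, hvX, rfl⟩ := (mem_ev_W hG).1 hξ
    have h5 := ((h.lz.pair_mem_ld ht₁X hvX).1 hξC).2
    rw [ev_W_le hG hbX hvX] at hβξ
    obtain ⟨⟨s', t'⟩, hp, h6⟩ := h.t_5b c hc s₁ t₁ v hs₁ ht₁ hvX (by
      rw [← le_iSup_pair (fun s' (t' : Node) => ⨆ _ : t'.1 = v,
        ker5 x y (Ff c) (YP x c) s₁ t₁ v s' t')]
      exact hG.up h4 ((iInf_le _ v).trans (iInf_le _ ⟨h5, hβξ⟩)))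
    obtain ⟨hs', ht'⟩ := (in_prod h.tx.hull).1 hp
    obtain ⟨h7, h8⟩ := iSup_prop_mem hG h6
    rw [ker5, hG.inf_iff, hG.inf_iff, h.tx.le_iff hs' hs₁, h.ty.le_iff ht' ht₁, hG.sup_iff] at h8
    obtain ⟨⟨h9, h10⟩, h11⟩ := h8
    have h12 := restr_of_sub (h.ty.isRel_fn t') (h.ty.Sv_fn t₁) h10
    rw [h.ty.dom_fn ht', h7] at h12
    refine ⟨_, h.tx.mem_tr.2 ⟨s', hs', rfl⟩, h9, ?_⟩
    rw [h12]
    rcases h11 with h11 | h11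
    · left
      rw [hG.inf_iff] at h11
      refine ⟨(h.mem_F hc).2 ⟨s', t', true, hs', ht', h11.1, by simp⟩, fun u hu hsu => ?_⟩
      obtain ⟨u₁, hu₁, rfl⟩ := h.tx.mem_tr.1 hu
      rw [← h.tx.le_iff hs₁ hu₁] at hsu
      have h13 := hG.himp_iff.1 (hG.up h11.2 (iInf_le _ u₁)) hsu
      obtain ⟨u₂, hu₂, h14⟩ := h.t_f c hc u₁ t₁.1 v hu₁ ht₁X hvX h13
      rw [hG.inf_iff, h.tx.le_iff hu₁ hu₂, h.YP_iff hc hu₂ ht₁X hvX] at h14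
      exact ⟨_, h.tx.mem_tr.2 ⟨u₂, hu₂, rfl⟩, h14.1, h14.2⟩
    · right
      rw [hG.inf_iff] at h11
      refine ⟨(h.mem_F hc).2 ⟨s', t', false, hs', ht', h11.1, by simp⟩, fun u hu hsu => ?_⟩
      obtain ⟨u₁, hu₁, rfl⟩ := h.tx.mem_tr.1 hu
      rw [← h.tx.le_iff hs₁ hu₁] at hsu
      have h13 := hG.himp_iff.1 (hG.up h11.2 (iInf_le _ u₁)) hsu
      rw [hG.compl_iff, h.YP_iff hc hu₁ ht₁X hvX] at h13
      exact h13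
  · -- K6
    intro s hs s' hs' t _ h1 h2 h3
    obtain ⟨s₁, t₁, b₁, hs₁, ht₁, h4, h5⟩ := (h.mem_F hc).1 h1
    obtain ⟨s₂, t₂, b₂, hs₂, ht₂, h6, h7⟩ := (h.mem_F hc).1 h2
    obtain ⟨rfl, h8⟩ := pair_inj.1 h5
    obtain ⟨rfl, h9⟩ := pair_inj.1 h8
    obtain ⟨rfl, h10⟩ := pair_inj.1 h7
    obtain ⟨h11, h12⟩ := pair_inj.1 h10
    have hb₁ : b₁ = true := by
      cases b₁
      · exact absurd h9 empty_ne
      · rfl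
    have hb₂ : b₂ = false := by
      cases b₂
      · rfl
      · exact absurd h12.symm empty_ne
    subst hb₁ hb₂
    rw [← h.tx.le_iff hs₁ hs₂, ← h.tx.le_iff hs₂ hs₁, ← hG.sup_iff] at h3
    have h13 : le y t₁ t₂ ∈ G := (h.ty.le_iff ht₁ ht₂).2 (by rw [h11])
    have h14 : le y t₂ t₁ ∈ G := (h.ty.le_iff ht₂ ht₁).2 (by rw [h11])
    have := hG.inf (hG.inf (hG.inf h4 h6) h3) (hG.inf h13 h14)
    rw [h.u6] at this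
    exact hG.bot_notMem this

end Uz

end Pool.Agent.Work.MP_0201f6_lc_helper21
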